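import Pool.Agent.H68.HD.Base

/-!
# Module AC0: absolutely continuous curves in `ℝⁿ`
Componentwise from Mathlib (`MeasureTheory/Function/AbsolutelyContinuous.lean`,
`MeasureTheory/Integral/IntervalIntegral/AbsolutelyContinuousFun.lean`, `DerivIntegrable.lean`, which treat
real functions): the components `fun t => γ t i` are absolutely continuous (`γ ↦ γ i` is 1-Lipschitz), hence
a.e. differentiable with integrable derivative and the fundamental theorem; `EuclideanSpace` is a finite
product (`hasDerivAt_euclidean` or `hasFDerivAt`/`differentiableAt` pi lemmas, `EuclideanSpace.norm_eq`).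
`ac_integral`: `‖x‖ ≤ ∑ ‖x i‖` and absolute continuity of the components.
-/

set_option autoImplicit false

open MeasureTheory Filter
open scoped RealInnerProductSpace Topology

namespace Pool.Agent.H68.HD

open Pool.Agent.H33.AM (E Tor pr IsPeriodic)

variable {n : ℕ}

private theorem ac_comp {γ : ℝ → E n} {a b : ℝ} (h : AbsolutelyContinuousOnInterval γ a b)
    (i : Fin n) : AbsolutelyContinuousOnInterval (fun t => γ t i) a b := by
  refine squeeze_zero (fun t => ?_) (fun t => ?_) h
  · exact Finset.sum_nonneg (fun i hi => dist_nonneg)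
  · refine Finset.sum_le_sum fun j _ => ?_
    rw [dist_eq_norm, dist_eq_norm]
    exact PiLp.norm_apply_le (γ (t.2 j).1 - γ (t.2 j).2) i

private theorem deriv_comp {γ : ℝ → E n} {t : ℝ} (h : DifferentiableAt ℝ γ t) (i : Fin n) :
    deriv (fun s => γ s i) t = (deriv γ t) i := by
  have h1 := (EuclideanSpace.proj (𝕜 := ℝ) i : E n →L[ℝ] ℝ).hasFDerivAt.comp_hasDerivAt t
    h.hasDerivAt
  exact h1.deriv

theorem ac_diff {γ : ℝ → E n} {a b : ℝ} (h : AbsolutelyContinuousOnInterval γ a b) :
    ∀ᵐ t : ℝ, t ∈ Set.uIcc a b → DifferentiableAt ℝ γ t := by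
  have h1 : ∀ᵐ t : ℝ, ∀ i : Fin n, t ∈ Set.uIcc a b → DifferentiableAt ℝ (fun s => γ s i) t :=
    ae_all_iff.2 fun i => (ac_comp h i).ae_differentiableAt
  filter_upwards [h1] with t ht htm
  exact differentiableAt_euclidean.2 fun i => ht i htm

private theorem ae_comp {γ : ℝ → E n} {a b : ℝ} (h : AbsolutelyContinuousOnInterval γ a b)
    (i : Fin n) :
    (fun t => deriv (fun s => γ s i) t) =ᵐ[volume.restrict (Set.uIoc a b)]
      fun t => (deriv γ t) i := by
  rw [Filter.EventuallyEq, ae_restrict_iff' measurableSet_uIoc]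
  filter_upwards [ac_diff h] with t ht htm
  exact deriv_comp (ht (Set.uIoc_subset_uIcc htm)) i

theorem ac_int {γ : ℝ → E n} {a b : ℝ} (h : AbsolutelyContinuousOnInterval γ a b) :
    IntervalIntegrable (deriv γ) volume a b := by
  rw [intervalIntegrable_iff, IntegrableOn, integrable_piLp_iff]
  intro i
  have h1 := (ac_comp h i).intervalIntegrable_deriv
  rw [intervalIntegrable_iff, IntegrableOn] at h1
  exact h1.congr (ae_comp h i)

theorem ac_ftc {γ : ℝ → E n} {a b : ℝ} (h : AbsolutelyContinuousOnInterval γ a b) :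
    ∫ t in a..b, deriv γ t = γ b - γ a := by
  ext i
  have h1 := (EuclideanSpace.proj (𝕜 := ℝ) i : E n →L[ℝ] ℝ).intervalIntegral_comp_comm (ac_int h)
  have h2 : (∫ t in a..b, deriv γ t) i = ∫ t in a..b, (deriv γ t) i := h1.symm
  rw [h2]
  have h3 : ∫ t in a..b, (deriv γ t) i = ∫ t in a..b, deriv (fun s => γ s i) t := by
    refine intervalIntegral.integral_congr_ae ?_
    rw [← ae_restrict_iff' measurableSet_uIoc]
    exact (ae_comp h i).symm
  rw [h3, (ac_comp h i).integral_deriv_eq_sub]
  rfl

private theorem norm_le_sum (x : E n) : ‖x‖ ≤ ∑ i, |x i| := by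
  rw [EuclideanSpace.norm_eq]
  refine Real.sqrt_le_iff.2 ⟨Finset.sum_nonneg fun i _ => abs_nonneg _, ?_⟩
  have h1 : ∑ i, ‖x i‖ ^ 2 ≤ ∑ i, |x i| * ∑ j, |x j| := by
    refine Finset.sum_le_sum fun i _ => ?_
    rw [Real.norm_eq_abs, sq]
    exact mul_le_mul_of_nonneg_left
      (Finset.single_le_sum (f := fun j => |x j|) (fun j _ => abs_nonneg _) (Finset.mem_univ i))
      (abs_nonneg _)
  rw [← Finset.sum_mul, ← sq] at h1
  exact h1

theorem ac_integral {w : ℝ → E n} {a b : ℝ} (h : IntervalIntegrable w volume a b) (x : E n) :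
    AbsolutelyContinuousOnInterval (fun t => x + ∫ s in a..t, w s) a b := by
  have hi : ∀ i : Fin n, IntervalIntegrable (fun s => w s i) volume a b := by
    intro i
    rw [intervalIntegrable_iff, IntegrableOn] at h ⊢
    exact integrable_piLp_iff.1 h i
  have hac : ∀ i : Fin n, AbsolutelyContinuousOnInterval (fun t => ∫ s in a..t, w s i) a b :=
    fun i => (hi i).absolutelyContinuousOnInterval_intervalIntegral (by simp)
  have hsum : Tendsto (fun E : ℕ × (ℕ → ℝ × ℝ) => ∑ i : Fin n, ∑ j ∈ Finset.range E.1,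
      dist (∫ s in a..(E.2 j).1, w s i) (∫ s in a..(E.2 j).2, w s i))
      (AbsolutelyContinuousOnInterval.totalLengthFilter ⊓
        𝓟 (AbsolutelyContinuousOnInterval.disjWithin a b)) (𝓝 0) := by
    have h0 := tendsto_finsetSum (Finset.univ : Finset (Fin n)) fun i _ => hac i
    simpa using h0
  have key : ∀ s ∈ Set.uIcc a b, ∀ i : Fin n,
      (∫ r in a..s, w r) i = ∫ r in a..s, w r i := by
    intro s hs i
    have h1 : IntervalIntegrable w volume a s :=
      h.mono_set (Set.uIcc_subset_uIcc Set.left_mem_uIcc hs)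
    exact ((EuclideanSpace.proj (𝕜 := ℝ) i : E n →L[ℝ] ℝ).intervalIntegral_comp_comm h1).symm
  refine squeeze_zero' ?_ ?_ hsum
  · filter_upwards with E
    exact Finset.sum_nonneg fun _ _ => dist_nonneg
  · have hmem : ∀ᶠ E : ℕ × (ℕ → ℝ × ℝ) in AbsolutelyContinuousOnInterval.totalLengthFilter ⊓
        𝓟 (AbsolutelyContinuousOnInterval.disjWithin a b),
        E ∈ AbsolutelyContinuousOnInterval.disjWithin a b :=
      eventually_inf_principal.mpr (by simp)
    filter_upwards [hmem] with E hE
    rw [Finset.sum_comm]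
    refine Finset.sum_le_sum fun j hj => ?_
    have h1 := (hE.1 j hj).1
    have h2 := (hE.1 j hj).2
    rw [dist_eq_norm]
    refine (norm_le_sum _).trans (Finset.sum_le_sum fun i _ => le_of_eq ?_)
    rw [Real.dist_eq, ← key _ h1 i, ← key _ h2 i]
    congr 1
    simp

end Pool.Agent.H68.HD
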