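import Pool.Agent.H68.HD.Base
import Pool.Agent.H68.HD.AC0

/-!
# Module AC1: concatenation of curves
Let `ε t = γ t` for `t ≤ k` and `ε t = δ (t - k) + zv z` for `t ≥ k`. On `[0, k]`, `ε` agrees with `γ`, on
`(k, k + l)` the derivative is `deriv δ (t - k)`; `w := deriv` of these is interval integrable on `[0, k + l]`
(`ac_int`, `IntervalIntegrable.trans`, shift), and `ε t = γ 0 + ∫ s in 0..t, w s` on `[0, k + l]` (`ac_ftc` on
the pieces), so `ε` is absolutely continuous there by `ac_integral` (only the values on the interval matter in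
the definition of `AbsolutelyContinuousOnInterval`; choose `ε := fun t => γ 0 + ∫ s in 0..t, w s` if this is
more convenient). Split the action at `k`; shift of the variable `t ↦ t - k`
(`intervalIntegral.integral_comp_sub_right`), periodicity of `L` in `x` (by `zv z`) and in `t` (by `k`),
derivatives agree a.e. (at all points of the open intervals).
-/

set_option autoImplicit false

open MeasureTheory Filter
open scoped RealInnerProductSpace

namespace Pool.Agent.H68.HD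

open Pool.Agent.H33.AM (E Tor pr IsPeriodic)

variable {n : ℕ}

private theorem crv_cat_aux {γ δ : ℝ → E n} {k l : ℕ} (h1 : AbsolutelyContinuousOnInterval γ 0 k)
    (h2 : AbsolutelyContinuousOnInterval δ 0 l) (y : E n) (h : γ k = δ 0 + y) :
    ∃ ε : ℝ → E n, AbsolutelyContinuousOnInterval ε 0 ((k + l : ℕ) : ℝ) ∧
      (∀ t ∈ Set.Icc (0 : ℝ) k, ε t = γ t) ∧
      (∀ t ∈ Set.Icc (k : ℝ) ((k + l : ℕ) : ℝ), ε t = δ (t - k) + y) := by
  have hk : (0 : ℝ) ≤ k := Nat.cast_nonneg k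
  have hl : (0 : ℝ) ≤ l := Nat.cast_nonneg l
  have hkl : ((k + l : ℕ) : ℝ) = k + l := by push_cast; rfl
  obtain ⟨w, hw⟩ : ∃ w : ℝ → E n, w = fun t : ℝ => if t ≤ (k : ℝ) then deriv γ t else deriv δ (t - k) :=
    ⟨_, rfl⟩
  have hwa : ∀ a b : ℝ, a ≤ k → b ≤ k → Set.EqOn (deriv γ) w (Set.uIoo a b) := by
    intro a b ha hb t ht
    have h3 : t ≤ k := (lt_of_lt_of_le ht.2 (max_le ha hb)).le
    rw [hw]
    simp only [if_pos h3]
  have hwb : ∀ a b : ℝ, (k : ℝ) ≤ a → (k : ℝ) ≤ b →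
      Set.EqOn (fun t => deriv δ (t - k)) w (Set.uIoo a b) := by
    intro a b ha hb t ht
    have h3 : ¬ t ≤ k := not_le.2 (lt_of_le_of_lt (le_min ha hb) ht.1)
    rw [hw]
    simp only [if_neg h3]
  have hi1 : IntervalIntegrable w volume 0 k := (ac_int h1).congr_uIoo (hwa 0 k hk le_rfl)
  have hi2 : IntervalIntegrable w volume k ((k + l : ℕ) : ℝ) := by
    have h3 := (ac_int h2).comp_sub_right (k : ℝ)
    have h4 : (0 : ℝ) + k = k := zero_add _
    have h5 : (l : ℝ) + k = ((k + l : ℕ) : ℝ) := by rw [hkl]; ring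
    rw [h4, h5] at h3
    exact h3.congr_uIoo (hwb k _ le_rfl (by rw [hkl]; linarith))
  have hi := hi1.trans hi2
  have hv1 : ∀ t ∈ Set.Icc (0 : ℝ) k, (∫ s in (0 : ℝ)..t, w s) = γ t - γ 0 := by
    intro t ht
    rw [← intervalIntegral.integral_congr_uIoo (hwa 0 t hk ht.2)]
    refine ac_ftc (h1.mono ?_)
    rw [Set.uIcc_of_le ht.1, Set.uIcc_of_le hk]
    exact Set.Icc_subset_Icc le_rfl ht.2
  refine ⟨fun t => γ 0 + ∫ s in (0 : ℝ)..t, w s, ac_integral hi (γ 0), ?_, ?_⟩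
  · intro t ht
    simp only [hv1 t ht]
    abel
  · intro t ht
    have ht0 : 0 ≤ t - k := sub_nonneg.2 ht.1
    have htl : t - k ≤ l := by
      have h3 := ht.2
      rw [hkl] at h3
      linarith
    have h3 : IntervalIntegrable w volume k t := by
      refine hi2.mono_set ?_
      rw [Set.uIcc_of_le ht.1, Set.uIcc_of_le (by rw [hkl]; linarith)]
      exact Set.Icc_subset_Icc le_rfl ht.2
    have h4 : (∫ s in (0 : ℝ)..t, w s) = (∫ s in (0 : ℝ)..k, w s) + ∫ s in (k : ℝ)..t, w s :=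
      (intervalIntegral.integral_add_adjacent_intervals hi1 h3).symm
    have h5 : (∫ s in (k : ℝ)..t, w s) = δ (t - k) - δ 0 := by
      rw [← intervalIntegral.integral_congr_uIoo (hwb k t le_rfl ht.1),
        intervalIntegral.integral_comp_sub_right (fun s => deriv δ s) (k : ℝ), sub_self]
      refine ac_ftc (h2.mono ?_)
      rw [Set.uIcc_of_le ht0, Set.uIcc_of_le hl]
      exact Set.Icc_subset_Icc le_rfl htl
    simp only [h4, h5, hv1 k ⟨hk, le_rfl⟩, h]
    abel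

private theorem per_shift {L : E n → E n → ℝ → ℝ} (hper : IsPeriodic L) (x v : E n) (t : ℝ) (k : ℕ)
    (z : Fin n → ℤ) : L x v (t - k) = L (x + zv z) v t := by
  refine hper x (x + zv z) v (t - k) t (pr_eq_pr.2 ⟨z, rfl⟩) ?_
  rw [← sub_eq_zero, ← AddCircle.coe_sub, AddCircle.coe_eq_zero_iff]
  exact ⟨-(k : ℤ), by simp⟩

theorem crv_cat {L : E n → E n → ℝ → ℝ} (hper : IsPeriodic L) {c : E n} {e : ℝ} {k l : ℕ}
    {γ δ : ℝ → E n} {r s : ℝ} (h1 : Crv L c e k γ r) (h2 : Crv L c e l δ s) (z : Fin n → ℤ)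
    (h : γ k = δ 0 + zv z) :
    ∃ ε : ℝ → E n, Crv L c e (k + l) ε (r + s) ∧ ε 0 = γ 0 ∧
      ε ((k + l : ℕ) : ℝ) = δ l + zv z := by
  obtain ⟨ε, hac, hε1, hε2⟩ := crv_cat_aux h1.ac h2.ac (zv z) h
  have hk : (0 : ℝ) ≤ k := Nat.cast_nonneg k
  have hl : (0 : ℝ) ≤ l := Nat.cast_nonneg l
  have hkl : ((k + l : ℕ) : ℝ) = k + l := by push_cast; rfl
  have hle : (k : ℝ) ≤ ((k + l : ℕ) : ℝ) := by rw [hkl]; linarith
  have hd1 : ∀ t ∈ Set.Ioo (0 : ℝ) k, deriv ε t = deriv γ t := by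
    intro t ht
    refine Filter.EventuallyEq.deriv_eq ?_
    filter_upwards [isOpen_Ioo.mem_nhds ht] with u hu
    exact hε1 u ⟨hu.1.le, hu.2.le⟩
  have hd2 : ∀ t ∈ Set.Ioo (k : ℝ) ((k + l : ℕ) : ℝ), deriv ε t = deriv δ (t - k) := by
    intro t ht
    have h3 : deriv ε t = deriv (fun u => δ (u - k) + zv z) t := by
      refine Filter.EventuallyEq.deriv_eq ?_
      filter_upwards [isOpen_Ioo.mem_nhds ht] with u hu
      exact hε2 u ⟨hu.1.le, hu.2.le⟩
    rw [h3, deriv_add_const, deriv_comp_sub_const]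
  have he1 : Set.EqOn (fun t => L (γ t) (deriv γ t) t - ⟪c, deriv γ t⟫ + e)
      (fun t => L (ε t) (deriv ε t) t - ⟪c, deriv ε t⟫ + e) (Set.uIoo (0 : ℝ) k) := by
    intro t ht
    rw [Set.uIoo_of_le hk] at ht
    simp only [hε1 t ⟨ht.1.le, ht.2.le⟩, hd1 t ht]
  have he2 : Set.EqOn (fun t => L (δ (t - k)) (deriv δ (t - k)) (t - k) -
        ⟪c, deriv δ (t - k)⟫ + e)
      (fun t => L (ε t) (deriv ε t) t - ⟪c, deriv ε t⟫ + e)
      (Set.uIoo (k : ℝ) ((k + l : ℕ) : ℝ)) := by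
    intro t ht
    rw [Set.uIoo_of_le hle] at ht
    simp only [hε2 t ⟨ht.1.le, ht.2.le⟩, hd2 t ht, per_shift hper (δ (t - k)) (deriv δ (t - k)) t k z]
  have hi1 : IntervalIntegrable (fun t => L (ε t) (deriv ε t) t - ⟪c, deriv ε t⟫ + e) volume 0 k :=
    h1.int.congr_uIoo he1
  have h4 : (0 : ℝ) + k = k := zero_add _
  have h5 : (l : ℝ) + k = ((k + l : ℕ) : ℝ) := by rw [hkl]; ring
  have hi2 : IntervalIntegrable (fun t => L (ε t) (deriv ε t) t - ⟪c, deriv ε t⟫ + e) volume k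
      ((k + l : ℕ) : ℝ) := by
    have h3 := h2.int.comp_sub_right (k : ℝ)
    rw [h4, h5] at h3
    exact h3.congr_uIoo he2
  refine ⟨ε, ⟨hac, hi1.trans hi2, ?_⟩, hε1 0 ⟨le_rfl, hk⟩, ?_⟩
  · rw [← intervalIntegral.integral_add_adjacent_intervals hi1 hi2, h1.eq, h2.eq,
      intervalIntegral.integral_congr_uIoo he1]
    congr 1
    rw [← intervalIntegral.integral_congr_uIoo he2,
      intervalIntegral.integral_comp_sub_right
        (fun t => L (δ t) (deriv δ t) t - ⟪c, deriv δ t⟫ + e) (k : ℝ), sub_self]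
    congr 1
    rw [hkl]
    ring
  · rw [hε2 _ ⟨hle, le_rfl⟩, hkl, add_sub_cancel_left]

/-- Concatenation of `k` curves of time one. -/
theorem crv_chain {L : E n → E n → ℝ → ℝ} (hper : IsPeriodic L) {c : E n} {e : ℝ} (k : ℕ)
    (f : ℕ → E n) (γ : ℕ → ℝ → E n) (r : ℕ → ℝ) (h : ∀ i < k, Crv L c e 1 (γ i) (r i))
    (h0 : ∀ i < k, γ i 0 = f i) (h1 : ∀ i < k, γ i 1 = f (i + 1)) :
    ∃ ε : ℝ → E n, Crv L c e k ε (∑ i ∈ Finset.range k, r i) ∧ ε 0 = f 0 ∧ ε k = f k := by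
  induction k with
  | zero =>
    refine ⟨fun _ => f 0, ⟨?_, ?_, ?_⟩, rfl, rfl⟩
    · have h3 := ac_integral (w := fun _ => (0 : E n)) (a := 0) (b := ((0 : ℕ) : ℝ))
        intervalIntegrable_const (f 0)
      simpa using h3
    · simp
    · simp
  | succ k ih =>
    obtain ⟨ε, hε, ha, hb⟩ := ih (fun i hi => h i (Nat.lt_succ_of_lt hi))
      (fun i hi => h0 i (Nat.lt_succ_of_lt hi)) (fun i hi => h1 i (Nat.lt_succ_of_lt hi))
    obtain ⟨η, hη, hc, hd⟩ := crv_cat hper hε (h k (Nat.lt_succ_self k)) 0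
      (by rw [hb, h0 k (Nat.lt_succ_self k), zv_zero, add_zero])
    refine ⟨η, ?_, hc.trans ha, ?_⟩
    · rw [Finset.sum_range_succ]
      exact hη
    · rw [hd, zv_zero, add_zero, Nat.cast_one, h1 k (Nat.lt_succ_self k)]

end Pool.Agent.H68.HD
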