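import Pool.Agent.H68.HD.Base
import Pool.Agent.H68.HD.AC0

/-!
# Module AC2: cutting curves, kinetic energy
`crv_cut`: restrict to `[i, i + 1]` and shift by `i` (`L` is 1-periodic in `t`; `deriv_comp_add_const`);
sum of adjacent intervals (`intervalIntegral.sum_integral_adjacent_intervals`).
`crv_lb`: `L(x,v,t) - c · v + e ≥ (κ/2) ‖v‖² - K - ‖c‖²/(2κ) + e` and the integrand is measurable
(`measurable_deriv`), so `‖deriv γ‖²` is integrable; integrate.
`crv_jensen`: `ac_ftc` and `‖∫ g‖² ≤ ∫ ‖g‖²` on `[0, 1]` (Cauchy-Schwarz, or `2 p · v - ‖p‖² ≤ ‖v‖²` with `p = γ 1 - γ 0`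
integrated).
-/

set_option autoImplicit false

open MeasureTheory Filter
open scoped RealInnerProductSpace

namespace Pool.Agent.H68.HD

open Pool.Agent.H33.AM (E Tor pr IsPeriodic)

variable {n : ℕ}

private theorem ac_shift {γ : ℝ → E n} {a b : ℝ} (d : ℝ)
    (h : AbsolutelyContinuousOnInterval γ (a + d) (b + d)) :
    AbsolutelyContinuousOnInterval (fun t => γ (t + d)) a b := by
  rw [absolutelyContinuousOnInterval_iff] at h ⊢
  intro ε hε
  obtain ⟨δ, hδ, h2⟩ := h ε hε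
  refine ⟨δ, hδ, ?_⟩
  intro E hE hs
  have h3 := h2 (E.1, fun i => ((E.2 i).1 + d, (E.2 i).2 + d)) ?_ ?_
  · exact h3
  · obtain ⟨hm, hd⟩ := hE
    refine ⟨?_, ?_⟩
    · intro i hi
      have h4 := hm i hi
      simp only [Set.mem_uIcc] at h4 ⊢
      refine ⟨?_, ?_⟩
      · rcases h4.1 with h5 | h5
        · left; exact ⟨by linarith [h5.1], by linarith [h5.2]⟩
        · right; exact ⟨by linarith [h5.1], by linarith [h5.2]⟩
      · rcases h4.2 with h5 | h5
        · left; exact ⟨by linarith [h5.1], by linarith [h5.2]⟩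
        · right; exact ⟨by linarith [h5.1], by linarith [h5.2]⟩
    · intro i hi j hj hij
      have h4 := hd hi hj hij
      simp only [Function.onFun] at h4 ⊢
      rw [Set.disjoint_left] at h4 ⊢
      intro x hx hy
      refine h4 (a := x - d) ?_ ?_
      · simp only [Set.mem_uIoc] at hx ⊢
        rcases hx with h5 | h5
        · left; exact ⟨by linarith [h5.1], by linarith [h5.2]⟩
        · right; exact ⟨by linarith [h5.1], by linarith [h5.2]⟩
      · simp only [Set.mem_uIoc] at hy ⊢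
        rcases hy with h5 | h5
        · left; exact ⟨by linarith [h5.1], by linarith [h5.2]⟩
        · right; exact ⟨by linarith [h5.1], by linarith [h5.2]⟩
  · simpa [dist_add_right] using hs

theorem crv_cut {L : E n → E n → ℝ → ℝ} (hper : IsPeriodic L) {c : E n} {e : ℝ} {k : ℕ}
    {γ : ℝ → E n} {r : ℝ} (h : Crv L c e k γ r) :
    ∃ (δ : ℕ → ℝ → E n) (s : ℕ → ℝ), (∀ i < k, Crv L c e 1 (δ i) (s i) ∧ δ i 0 = γ i ∧
      δ i 1 = γ (i + 1 : ℕ)) ∧ r = ∑ i ∈ Finset.range k, s i := by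
  set F : ℝ → ℝ := fun t => L (γ t) (deriv γ t) t - ⟪c, deriv γ t⟫ + e with hF
  have hsub : ∀ i < k, Set.uIcc (i : ℝ) ((i + 1 : ℕ) : ℝ) ⊆ Set.uIcc (0 : ℝ) k := by
    intro i hi
    have h1 : (0 : ℝ) ≤ i := Nat.cast_nonneg i
    have h2 : ((i + 1 : ℕ) : ℝ) ≤ k := Nat.cast_le.2 hi
    have h3 : (i : ℝ) ≤ ((i + 1 : ℕ) : ℝ) := Nat.cast_le.2 (Nat.le_succ i)
    rw [Set.uIcc_of_le h3, Set.uIcc_of_le (h1.trans (h3.trans h2))]
    exact Set.Icc_subset_Icc h1 h2
  have hint : ∀ i < k, IntervalIntegrable F volume (i : ℝ) ((i + 1 : ℕ) : ℝ) := by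
    intro i hi
    exact h.int.mono_set (hsub i hi)
  have hshift : ∀ (i : ℕ) (t : ℝ), L (γ (t + i)) (deriv (fun t => γ (t + i)) t) t -
      ⟪c, deriv (fun t => γ (t + i)) t⟫ + e = F (t + i) := by
    intro i t
    have h1 : deriv (fun t => γ (t + i)) t = deriv γ (t + i) := by
      rw [deriv_comp_add_const]
    rw [h1]
    have h2 : L (γ (t + i)) (deriv γ (t + i)) t = L (γ (t + i)) (deriv γ (t + i)) (t + i) := by
      apply hper _ _ _ _ _ rfl
      have h3 : ((t + (i : ℝ) : ℝ) : UnitAddCircle) = ((t : ℝ) : UnitAddCircle) := by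
        rw [← sub_eq_zero, ← AddCircle.coe_sub, AddCircle.coe_eq_zero_iff]
        exact ⟨i, by simp⟩
      exact h3.symm
    rw [h2]
  refine ⟨fun i t => γ (t + i), fun i => ∫ t in (i : ℝ)..((i + 1 : ℕ) : ℝ), F t, ?_, ?_⟩
  · intro i hi
    refine ⟨⟨?_, ?_, ?_⟩, ?_, ?_⟩
    · apply ac_shift
      have h1 := h.ac.mono (hsub i hi)
      convert h1 using 1
      · simp
      · push_cast; ring
    · have h1 : IntervalIntegrable (fun t => F (t + i)) volume 0 ((1 : ℕ) : ℝ) := by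
        rw [IntervalIntegrable.comp_add_right_iff]
        have h2 := hint i hi
        convert h2 using 1
        · simp
        · push_cast; ring
      exact h1.congr (fun t _ => (hshift i t).symm)
    · have h1 : ∫ t in (0 : ℝ)..((1 : ℕ) : ℝ), (L (γ (t + i)) (deriv (fun t => γ (t + i)) t) t -
          ⟪c, deriv (fun t => γ (t + i)) t⟫ + e) = ∫ t in (0 : ℝ)..((1 : ℕ) : ℝ), F (t + i) :=
        intervalIntegral.integral_congr (fun t _ => hshift i t)
      rw [h1, intervalIntegral.integral_comp_add_right]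
      have h2 : (0 : ℝ) + i = i := by ring
      have h3 : ((1 : ℕ) : ℝ) + i = ((i + 1 : ℕ) : ℝ) := by push_cast; ring
      rw [h2, h3]
    · simp
    · push_cast
      congr 1
      ring
  · rw [h.eq]
    have h1 := intervalIntegral.sum_integral_adjacent_intervals (μ := volume) (f := F)
      (a := fun i : ℕ => (i : ℝ)) (n := k) (fun i hi => hint i hi)
    rw [h1]
    simp [hF]

theorem crv_lb {L : E n → E n → ℝ → ℝ} {κ K : ℝ} (hL : Growth L κ K) {c : E n} {e : ℝ} {k : ℕ}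
    {γ : ℝ → E n} {r : ℝ} (h : Crv L c e k γ r) :
    IntervalIntegrable (fun t => ‖deriv γ t‖ ^ 2) volume 0 k ∧
      κ / 2 * (∫ t in (0 : ℝ)..k, ‖deriv γ t‖ ^ 2) - (K + ‖c‖ ^ 2 / (2 * κ) - e) * k ≤ r := by
  have hκ := hL.pos
  set F : ℝ → ℝ := fun t => L (γ t) (deriv γ t) t - ⟪c, deriv γ t⟫ + e with hF
  set C : ℝ := K + ‖c‖ ^ 2 / (2 * κ) - e with hC
  have hlo : ∀ t, κ / 2 * ‖deriv γ t‖ ^ 2 - C ≤ F t := by
    intro t
    have h1 := hL.lo (γ t) (deriv γ t) t
    have h2 : ⟪c, deriv γ t⟫ ≤ ‖c‖ * ‖deriv γ t‖ := real_inner_le_norm _ _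
    have h3 : ‖c‖ * ‖deriv γ t‖ ≤ κ / 2 * ‖deriv γ t‖ ^ 2 + ‖c‖ ^ 2 / (2 * κ) := by
      have h4 : κ / 2 * ‖deriv γ t‖ ^ 2 + ‖c‖ ^ 2 / (2 * κ) - ‖c‖ * ‖deriv γ t‖ =
          (κ * ‖deriv γ t‖ - ‖c‖) ^ 2 / (2 * κ) := by
        field_simp
        ring
      have h5 : 0 ≤ (κ * ‖deriv γ t‖ - ‖c‖) ^ 2 / (2 * κ) := by positivity
      linarith
    simp only [hF, hC]
    linarith
  have hk : (0 : ℝ) ≤ k := Nat.cast_nonneg k
  have hi : IntervalIntegrable (fun t => ‖deriv γ t‖ ^ 2) volume 0 k := by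
    have hg : IntervalIntegrable (fun t => 2 / κ * (F t + C)) volume 0 k :=
      (h.int.add intervalIntegrable_const).const_mul _
    refine hg.mono_fun' ?_ ?_
    · exact ((aestronglyMeasurable_deriv γ _).norm.pow 2)
    · refine Filter.Eventually.of_forall ?_
      intro t
      have h1 := hlo t
      have h2 : ‖‖deriv γ t‖ ^ 2‖ = ‖deriv γ t‖ ^ 2 := by
        rw [Real.norm_eq_abs, abs_of_nonneg (by positivity)]
      simp only []
      rw [h2]
      have h3 : ‖deriv γ t‖ ^ 2 = 2 / κ * (κ / 2 * ‖deriv γ t‖ ^ 2) := by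
        field_simp
      rw [h3]
      apply mul_le_mul_of_nonneg_left _ (by positivity)
      linarith
  refine ⟨hi, ?_⟩
  rw [h.eq]
  have h1 : ∫ t in (0 : ℝ)..k, (κ / 2 * ‖deriv γ t‖ ^ 2 - C) =
      κ / 2 * (∫ t in (0 : ℝ)..k, ‖deriv γ t‖ ^ 2) - C * k := by
    rw [intervalIntegral.integral_sub (hi.const_mul _) intervalIntegrable_const,
      intervalIntegral.integral_const_mul, intervalIntegral.integral_const]
    simp [mul_comm]
  rw [← h1]
  apply intervalIntegral.integral_mono_on hk ((hi.const_mul _).sub intervalIntegrable_const) h.int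
  intro t _
  exact hlo t

theorem crv_jensen {γ : ℝ → E n} (h : AbsolutelyContinuousOnInterval γ 0 1)
    (hi : IntervalIntegrable (fun t => ‖deriv γ t‖ ^ 2) volume 0 1) :
    ‖γ 1 - γ 0‖ ^ 2 ≤ ∫ t in (0 : ℝ)..1, ‖deriv γ t‖ ^ 2 := by
  have hint := ac_int h
  have hftc := ac_ftc h
  set p : E n := γ 1 - γ 0 with hp
  have hin : IntervalIntegrable (fun t => ⟪p, deriv γ t⟫) volume 0 1 := by
    rw [intervalIntegrable_iff] at hint ⊢
    exact hint.const_inner p
  have h1 : ∫ t in (0 : ℝ)..1, ⟪p, deriv γ t⟫ = ‖p‖ ^ 2 := by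
    have h2 : ∫ t in (0 : ℝ)..1, ⟪p, deriv γ t⟫ = ⟪p, ∫ t in (0 : ℝ)..1, deriv γ t⟫ := by
      have h3 := (innerSL ℝ p).intervalIntegral_comp_comm hint
      simpa using h3
    rw [h2, hftc, real_inner_self_eq_norm_sq]
  have h4 : ∫ t in (0 : ℝ)..1, (2 * ⟪p, deriv γ t⟫ - ‖p‖ ^ 2) = ‖p‖ ^ 2 := by
    rw [intervalIntegral.integral_sub (hin.const_mul _) intervalIntegrable_const,
      intervalIntegral.integral_const_mul, intervalIntegral.integral_const, h1]
    simp
    ring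
  rw [← h4]
  apply intervalIntegral.integral_mono_on (by norm_num)
    ((hin.const_mul _).sub intervalIntegrable_const) hi
  intro t _
  have h5 : 0 ≤ ‖p - deriv γ t‖ ^ 2 := by positivity
  rw [norm_sub_sq_real] at h5
  linarith

end Pool.Agent.H68.HD
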