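import Pool.Agent.H68.HD.Defs

/-!
# Chains, curves: internal definitions of the project HD
-/

set_option autoImplicit false

open MeasureTheory Filter
open scoped RealInnerProductSpace

namespace Pool.Agent.H68.HD

open Pool.Agent.H33.AM (E Tor pr IsPeriodic)

variable {n : ℕ}

/-- The integer vector `z` as an element of `ℝⁿ`. -/
noncomputable def zv (z : Fin n → ℤ) : E n := WithLp.toLp 2 fun i => (z i : ℝ)

/-- `γ` is an absolutely continuous curve on `[0, k]`, with the action `r` with respect to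
`L - c · v + e`. -/
structure Crv (L : E n → E n → ℝ → ℝ) (c : E n) (e : ℝ) (k : ℕ) (γ : ℝ → E n) (r : ℝ) : Prop where
  ac : AbsolutelyContinuousOnInterval γ 0 k
  int : IntervalIntegrable (fun t => L (γ t) (deriv γ t) t - ⟪c, deriv γ t⟫ + e) volume 0 k
  eq : r = ∫ t in (0 : ℝ)..k, (L (γ t) (deriv γ t) t - ⟪c, deriv γ t⟫ + e)

/-- The actions of the curves on `[0, 1]` from `x` to `y` (in `ℝⁿ`). -/
def acts (L : E n → E n → ℝ → ℝ) (c : E n) (e : ℝ) (x y : E n) : Set ℝ :=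
  {r | ∃ γ, Crv L c e 1 γ r ∧ γ 0 = x ∧ γ 1 = y}

/-- The action potential of time one. -/
noncomputable def Sp (L : E n → E n → ℝ → ℝ) (c : E n) (e : ℝ) (x y : E n) : ℝ :=
  sInf (acts L c e x y)

/-- The properties of the action potential which are used. -/
structure Pot (S : E n → E n → ℝ) (a b κ K : ℝ) : Prop where
  pos : 0 < κ
  ha : 0 ≤ a
  hb : 0 ≤ b
  hK : 0 ≤ K
  per : ∀ x y z, S (x + zv z) (y + zv z) = S x y
  lb : ∀ x y, κ * ‖y - x‖ ^ 2 - K ≤ S x y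
  ub : ∀ R : ℝ, ∃ M : ℝ, ∀ x y, ‖y - x‖ ≤ R → S x y ≤ M
  scl : ∀ x y ξ, ‖ξ‖ ≤ 1 → S (x + ξ) y + S (x - ξ) y - 2 * S x y ≤ (a + b * S x y) * ‖ξ‖ ^ 2
  scr : ∀ x y ξ, ‖ξ‖ ≤ 1 → S x (y + ξ) + S x (y - ξ) - 2 * S x y ≤ (a + b * S x y) * ‖ξ‖ ^ 2

/-- The cost of the chain `f 0, ..., f k`. -/
noncomputable def cost (S : E n → E n → ℝ) (f : ℕ → E n) (k : ℕ) : ℝ :=
  ∑ i ∈ Finset.range k, S (f i) (f (i + 1))

/-- `f 0, ..., f k` is closed modulo the integer vector `z`. -/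
def Cl (f : ℕ → E n) (k : ℕ) (z : Fin n → ℤ) : Prop := 0 < k ∧ f k = f 0 + zv z

/-- Closed chains have nonnegative costs. -/
def N1 (S : E n → E n → ℝ) : Prop := ∀ f k z, Cl f k z → 0 ≤ cost S f k

/-- The infimum of the mean costs of closed chains is not positive. -/
def N2 (S : E n → E n → ℝ) : Prop := ∀ ε : ℝ, 0 < ε → ∃ f k z, Cl f k z ∧ cost S f k ≤ ε * k

/-- Aubry points (in `ℝⁿ`). -/
def Aub (S : E n → E n → ℝ) (x : E n) : Prop :=
  ∀ ε : ℝ, 0 < ε → ∃ f k z, Cl f k z ∧ f 0 = x ∧ cost S f k ≤ ε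

/-- Bounded periodic Lipschitz subsolutions. -/
structure Sub (S : E n → E n → ℝ) (u : E n → ℝ) (M Λ : ℝ) : Prop where
  bd : ∀ x, |u x| ≤ M
  per : ∀ x z, u (x + zv z) = u x
  lip : ∀ x e, ‖e‖ ≤ 1 → |u (x + e) - u x| ≤ Λ * ‖e‖
  sub : ∀ x y, u y - u x ≤ S x y

theorem zv_add (z w : Fin n → ℤ) : zv (z + w) = zv z + zv w := by
  ext i; simp [zv]

theorem zv_zero : zv (0 : Fin n → ℤ) = 0 := by
  ext i; simp [zv]

theorem zv_neg (z : Fin n → ℤ) : zv (-z) = -zv z := by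
  ext i; simp [zv]

theorem zv_smul (k : ℕ) (z : Fin n → ℤ) : zv ((k : ℤ) • z) = (k : ℝ) • zv z := by
  ext i; simp [zv]

theorem pr_eq_pr {x y : E n} : pr x = pr y ↔ ∃ z : Fin n → ℤ, y = x + zv z := by
  constructor
  · intro h
    have h1 : ∀ i, ∃ m : ℤ, y i = x i + m := by
      intro i
      have h2 : ((x i : ℝ) : UnitAddCircle) = ((y i : ℝ) : UnitAddCircle) := congrFun h i
      rw [eq_comm, ← sub_eq_zero, ← AddCircle.coe_sub, AddCircle.coe_eq_zero_iff] at h2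
      obtain ⟨m, hm⟩ := h2
      refine ⟨m, ?_⟩
      simp at hm
      linarith
    choose m hm using h1
    refine ⟨m, ?_⟩
    ext i
    simp [zv, hm i]
  · rintro ⟨z, rfl⟩
    funext i
    have h2 : (((x + zv z) i : ℝ) : UnitAddCircle) = ((x i : ℝ) : UnitAddCircle) := by
      rw [← sub_eq_zero, ← AddCircle.coe_sub, AddCircle.coe_eq_zero_iff]
      exact ⟨z i, by simp [zv]⟩
    exact h2.symm

theorem exists_near (x : E n) : ∃ z : Fin n → ℤ, ‖x + zv z‖ ≤ Real.sqrt n ∧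
    ∀ i, 0 ≤ (x + zv z) i ∧ (x + zv z) i < 1 := by
  refine ⟨fun i => -⌊x i⌋, ?_, ?_⟩
  · rw [EuclideanSpace.norm_eq]
    apply Real.sqrt_le_sqrt
    calc ∑ i, ‖(x + zv (fun i => -⌊x i⌋)) i‖ ^ 2 ≤ ∑ _i : Fin n, (1 : ℝ) := by
          apply Finset.sum_le_sum
          intro i _
          have h1 : (x + zv (fun i => -⌊x i⌋)) i = x i - ⌊x i⌋ := by
            simp [zv, sub_eq_add_neg]
          rw [h1, Real.norm_eq_abs, sq_abs]
          have h2 := Int.floor_le (x i)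
          have h3 := Int.lt_floor_add_one (x i)
          nlinarith
      _ = n := by simp
  · intro i
    have h1 : (x + zv (fun i => -⌊x i⌋)) i = x i - ⌊x i⌋ := by
      simp [zv, sub_eq_add_neg]
    rw [h1]
    exact ⟨sub_nonneg.2 (Int.floor_le _), by linarith [Int.lt_floor_add_one (x i)]⟩

end Pool.Agent.H68.HD
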