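import Pool.Agent.H68.HD.Base

/-!
# Module Clo: closing costs `O(|e|²)`
`e = y i + zv z - y j`, `F e = S (y (j-1)) (y j + e)`, `G e = S (y j + e) (y (j+1))`. For all `e`:
`F e + G e ≥ (u (y j + e) - u (y (j-1))) + (u (y (j+1)) - u (y j + e)) = F 0 + G 0`. `hS.scr` for `F`, `hS.scl` for `G` at `e`, together with
`F (-e) + G (-e) ≥ F 0 + G 0`, give `F e - F 0 + G e - G 0 ≤ (2 a + b (F 0 + G 0)) ‖e‖²`, and `F 0, G 0 ≤ 2 M`.
`G e ≥ u (y (j+1)) - u (y i)` (`hu.sub`, `hu.per`), `G 0 = u (y (j+1)) - u (y j)`. The chain `g l = y (i + l)` for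
`l < j - i`, `g (j - i) = y i + zv z` has the cost `u (y (j-1)) - u (y i) + F e = u (y j) - u (y i) + F e - F 0`.
-/

set_option autoImplicit false

open MeasureTheory Filter
open scoped RealInnerProductSpace

namespace Pool.Agent.H68.HD

open Pool.Agent.H33.AM (E Tor pr IsPeriodic)

variable {n : ℕ}

private theorem cl_cost {S : E n → E n → ℝ} {u : E n → ℝ} {y : ℕ → E n}
    (hy : ∀ i, S (y i) (y (i + 1)) = u (y (i + 1)) - u (y i)) (i k : ℕ) (w : E n) :
    cost S (fun l => if l < k + 1 then y (i + l) else w) (k + 1) =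
      u (y (i + k)) - u (y i) + S (y (i + k)) w := by
  unfold cost
  rw [Finset.sum_range_succ]
  have h1 : ∑ l ∈ Finset.range k, S ((fun l => if l < k + 1 then y (i + l) else w) l)
      ((fun l => if l < k + 1 then y (i + l) else w) (l + 1)) =
      ∑ l ∈ Finset.range k, (u (y (i + (l + 1))) - u (y (i + l))) := by
    refine Finset.sum_congr rfl fun l hl => ?_
    have hl' := Finset.mem_range.1 hl
    have e1 : l < k + 1 := by omega
    have e2 : l + 1 < k + 1 := by omega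
    simp only [e1, e2, if_true]
    exact hy (i + l)
  rw [h1, Finset.sum_range_sub (fun l => u (y (i + l)))]
  simp

theorem closing {S : E n → E n → ℝ} {a b κ K : ℝ} (hS : Pot S a b κ K) {u : E n → ℝ} {M Λ : ℝ}
    (hu : Sub S u M Λ) {y : ℕ → E n} (hy : ∀ i, S (y i) (y (i + 1)) = u (y (i + 1)) - u (y i))
    (i j : ℕ) (z : Fin n → ℤ) (hij : i < j) (h : ‖y i + zv z - y j‖ ≤ 1) :
    ∃ g, Cl g (j - i) z ∧ cost S g (j - i) ≤ (2 * a + 4 * b * M) * ‖y i + zv z - y j‖ ^ 2 := by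
  obtain ⟨k, rfl⟩ : ∃ k, j = i + k + 1 := ⟨j - i - 1, by omega⟩
  have hk : i + k + 1 - i = k + 1 := by omega
  rw [hk]
  refine ⟨fun l => if l < k + 1 then y (i + l) else y i + zv z, ⟨Nat.succ_pos k, by simp⟩, ?_⟩
  rw [cl_cost hy]
  set e := y i + zv z - y (i + k + 1) with he
  have hye : y (i + k + 1) + e = y i + zv z := by rw [he]; abel
  have hM : 0 ≤ M := le_trans (abs_nonneg _) (hu.bd 0)
  have s1 := hS.scr (y (i + k)) (y (i + k + 1)) e h
  have s2 := hS.scl (y (i + k + 1)) (y (i + k + 1 + 1)) e h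
  rw [hye] at s1 s2
  have m1 := hu.sub (y (i + k)) (y (i + k + 1) - e)
  have m2 := hu.sub (y (i + k + 1) - e) (y (i + k + 1 + 1))
  have m3 := hu.sub (y i + zv z) (y (i + k + 1 + 1))
  rw [hu.per] at m3
  have q1 := hy (i + k)
  have q2 := hy (i + k + 1)
  rw [q1] at s1
  rw [q2] at s2
  have b1 := abs_le.1 (hu.bd (y (i + k)))
  have b2 := abs_le.1 (hu.bd (y (i + k + 1 + 1)))
  have hn : 0 ≤ ‖e‖ ^ 2 := by positivity
  have hb := hS.hb
  have c1 : b * (u (y (i + k + 1 + 1)) - u (y (i + k))) * ‖e‖ ^ 2 ≤ 4 * b * M * ‖e‖ ^ 2 := by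
    apply mul_le_mul_of_nonneg_right _ hn
    have : u (y (i + k + 1 + 1)) - u (y (i + k)) ≤ 2 * M := by linarith [b1.1, b2.2]
    calc b * (u (y (i + k + 1 + 1)) - u (y (i + k))) ≤ b * (2 * M) :=
          mul_le_mul_of_nonneg_left this hb
      _ ≤ 4 * b * M := by nlinarith [mul_nonneg hb hM]
  nlinarith [c1, s1, s2, m1, m2, m3]

end Pool.Agent.H68.HD
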