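import Pool.Agent.H68.HD.Base

/-!
# Module Cov: return times bound the Hausdorff measure from below
`visits`: if `pr (y i) ∈ U`, `pr (y j) ∈ U`, `i < j`, all distances in `U` are `≤ d`, `√n d ≤ 1`, then for the nearest `z`
(coordinatewise `round`, `AddCircle.norm_eq`/`UnitAddCircle.norm_eq`) `‖y i + zv z - y j‖ ≤ √n d`, so `j - i ≥ c₁/(√n d)^s`.
Hence among the indices `< N` at most `1 + N (√n d)^s/c₁` visit `U`. `finite_cover`: if `range` is covered by finitely many such `U_j` then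
`N ≤ ∑_j (1 + N (√n d_j)^s/c₁)` for all `N`, so `c₁ ≤ ∑_j (√n d_j)^s` (let `N → ∞`).
-/

set_option autoImplicit false

open MeasureTheory Filter
open scoped RealInnerProductSpace

namespace Pool.Agent.H68.HD

open Pool.Agent.H33.AM (E Tor pr IsPeriodic)

variable {n : ℕ}

/-- Indices whose differences are bounded below are few. -/
private theorem sep_card {ρ c : ℝ} (hρ : 0 ≤ ρ) (hc : 0 < c) (V : Finset ℕ) :
    (∀ i ∈ V, ∀ j ∈ V, i < j → c ≤ ((j - i : ℕ) : ℝ) * ρ) →
    ∀ b : ℕ, (∀ i ∈ V, i ≤ b) → ((V.card : ℝ) - 1) * c ≤ b * ρ := by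
  induction V using Finset.induction_on_max with
  | empty =>
    intro _ b _
    have : (0 : ℝ) ≤ b * ρ := by positivity
    simp only [Finset.card_empty, Nat.cast_zero]
    linarith
  | insert a V hmax ih =>
    intro hsep b hb
    have hab : a ≤ b := hb a (Finset.mem_insert_self _ _)
    have hab' : (a : ℝ) * ρ ≤ b * ρ := mul_le_mul_of_nonneg_right (by exact_mod_cast hab) hρ
    have ha : a ∉ V := fun h => lt_irrefl _ (hmax a h)
    rw [Finset.card_insert_of_notMem ha]
    push_cast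
    rcases V.eq_empty_or_nonempty with rfl | hne
    · have : (0 : ℝ) ≤ b * ρ := by positivity
      simp only [Finset.card_empty, Nat.cast_zero]
      linarith
    · have hm := V.max'_mem hne
      have h1 := ih (fun i hi j hj => hsep i (Finset.mem_insert_of_mem hi) j
        (Finset.mem_insert_of_mem hj)) (V.max' hne) (fun i hi => V.le_max' i hi)
      have hlt := hmax _ hm
      have h2 := hsep _ (Finset.mem_insert_of_mem hm) a (Finset.mem_insert_self _ _) hlt
      rw [Nat.cast_sub hlt.le] at h2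
      linarith

/-- The nearest representative. -/
private theorem exists_close {x y : E n} {d : ℝ} (hd : 0 ≤ d) (h : dist (pr x) (pr y) ≤ d) :
    ∃ z : Fin n → ℤ, ‖x + zv z - y‖ ≤ Real.sqrt n * d := by
  refine ⟨fun i => -round (x i - y i), ?_⟩
  have h1 : ∀ i, |(x + zv (fun i => -round (x i - y i)) - y) i| ≤ d := by
    intro i
    have h2 : dist (pr x i) (pr y i) ≤ d := (dist_le_pi_dist (pr x) (pr y) i).trans h
    have h3 : pr x i - pr y i = (((x i - y i : ℝ)) : UnitAddCircle) := by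
      simp [pr]
    rw [dist_eq_norm, h3, UnitAddCircle.norm_eq] at h2
    have h4 : (x + zv (fun i => -round (x i - y i)) - y) i = x i - y i - round (x i - y i) := by
      simp [zv]
      ring
    rw [h4]
    exact h2
  rw [EuclideanSpace.norm_eq]
  have h5 : ∑ i, ‖(x + zv (fun i => -round (x i - y i)) - y) i‖ ^ 2 ≤ n * d ^ 2 := by
    calc ∑ i, ‖(x + zv (fun i => -round (x i - y i)) - y) i‖ ^ 2 ≤ ∑ _i : Fin n, d ^ 2 := by
          apply Finset.sum_le_sum
          intro i _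
          rw [Real.norm_eq_abs]
          exact pow_le_pow_left₀ (abs_nonneg _) (h1 i) 2
      _ = n * d ^ 2 := by simp
  calc Real.sqrt (∑ i, ‖(x + zv (fun i => -round (x i - y i)) - y) i‖ ^ 2)
      ≤ Real.sqrt (n * d ^ 2) := Real.sqrt_le_sqrt h5
    _ = Real.sqrt n * d := by
      rw [Real.sqrt_mul (Nat.cast_nonneg n), Real.sqrt_sq hd]

theorem visits {y : ℕ → E n} {s c₁ d : ℝ} (hs : 0 < s) (hc : 0 < c₁) (hd : 0 < d)
    (hd1 : Real.sqrt n * d ≤ 1)
    (h : ∀ i j z, i < j → ‖y i + zv z - y j‖ ≤ 1 →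
      c₁ ≤ ((j - i : ℕ) : ℝ) * ‖y i + zv z - y j‖ ^ s) (U : Set (Tor n))
    (hU : ∀ p ∈ U, ∀ q ∈ U, dist p q ≤ d) (N : ℕ) :
    ((Set.ncard {i | i < N ∧ pr (y i) ∈ U} : ℕ) : ℝ) ≤ 1 + N * (Real.sqrt n * d) ^ s / c₁ := by
  classical
  have hρ0 : 0 ≤ Real.sqrt n * d := by positivity
  have hρ : 0 ≤ (Real.sqrt n * d) ^ s := Real.rpow_nonneg hρ0 s
  have hset : {i | i < N ∧ pr (y i) ∈ U}
      = (((Finset.range N).filter (fun i => pr (y i) ∈ U) : Finset ℕ) : Set ℕ) := by
    ext i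
    simp
  rw [hset, Set.ncard_coe_finset]
  have key := sep_card (c := c₁) hρ hc ((Finset.range N).filter (fun i => pr (y i) ∈ U)) (by
    intro i hi j hj hij
    have hi' := (Finset.mem_filter.1 hi).2
    have hj' := (Finset.mem_filter.1 hj).2
    obtain ⟨z, hz⟩ := exists_close hd.le (hU _ hi' _ hj')
    refine (h i j z hij (hz.trans hd1)).trans ?_
    apply mul_le_mul_of_nonneg_left _ (Nat.cast_nonneg _)
    exact Real.rpow_le_rpow (norm_nonneg _) hz hs.le) N (by
    intro i hi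
    exact (Finset.mem_range.1 (Finset.mem_filter.1 hi).1).le)
  rw [← sub_le_iff_le_add', le_div_iff₀ hc]
  exact key

theorem finite_cover {y : ℕ → E n} {s c₁ : ℝ} (hs : 0 < s) (hc : 0 < c₁)
    (h : ∀ i j z, i < j → ‖y i + zv z - y j‖ ≤ 1 →
      c₁ ≤ ((j - i : ℕ) : ℝ) * ‖y i + zv z - y j‖ ^ s) {ι : Type*} (J : Finset ι)
    (U : ι → Set (Tor n)) (d : ι → ℝ) (hd : ∀ j ∈ J, 0 < d j ∧ Real.sqrt n * d j ≤ 1)
    (hU : ∀ j ∈ J, ∀ p ∈ U j, ∀ q ∈ U j, dist p q ≤ d j)
    (hcov : ∀ i, ∃ j ∈ J, pr (y i) ∈ U j) : c₁ ≤ ∑ j ∈ J, (Real.sqrt n * d j) ^ s := by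
  classical
  set ρ := ∑ j ∈ J, (Real.sqrt n * d j) ^ s with hρ
  have key : ∀ N : ℕ, (N : ℝ) ≤ J.card + N * ρ / c₁ := by
    intro N
    have h1 : (Finset.range N).card
        ≤ ∑ j ∈ J, ((Finset.range N).filter (fun i => pr (y i) ∈ U j)).card := by
      refine le_trans (Finset.card_le_card ?_) Finset.card_biUnion_le
      intro i hi
      obtain ⟨j, hj, hij⟩ := hcov i
      exact Finset.mem_biUnion.2 ⟨j, hj, Finset.mem_filter.2 ⟨hi, hij⟩⟩
    rw [Finset.card_range] at h1
    have h2 : (N : ℝ) ≤ ∑ j ∈ J, (((Finset.range N).filter (fun i => pr (y i) ∈ U j)).card : ℝ) := by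
      exact_mod_cast h1
    refine h2.trans ?_
    calc ∑ j ∈ J, (((Finset.range N).filter (fun i => pr (y i) ∈ U j)).card : ℝ)
        ≤ ∑ j ∈ J, (1 + N * (Real.sqrt n * d j) ^ s / c₁) := by
          apply Finset.sum_le_sum
          intro j hj
          have h3 := visits hs hc (hd j hj).1 (hd j hj).2 h (U j) (hU j hj) N
          have hset : {i | i < N ∧ pr (y i) ∈ U j}
              = (((Finset.range N).filter (fun i => pr (y i) ∈ U j) : Finset ℕ) : Set ℕ) := by
            ext i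
            simp
          rw [hset, Set.ncard_coe_finset] at h3
          exact h3
      _ = J.card + N * ρ / c₁ := by
          rw [Finset.sum_add_distrib, hρ, Finset.mul_sum, Finset.sum_div]
          simp
  by_contra hcon
  push Not at hcon
  obtain ⟨N, hN⟩ := exists_nat_gt (J.card * c₁ / (c₁ - ρ))
  have h1 := key N
  rw [div_lt_iff₀ (by linarith)] at hN
  have h2 : (N : ℝ) * c₁ ≤ J.card * c₁ + N * ρ := by
    calc (N : ℝ) * c₁ ≤ (J.card + N * ρ / c₁) * c₁ := mul_le_mul_of_nonneg_right h1 hc.le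
      _ = J.card * c₁ + N * ρ := by field_simp
  linarith

end Pool.Agent.H68.HD
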