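import Pool.Agent.H68.HD.Base

/-!
# Module Lip: the potential is Lipschitz in each variable
Fix `R`, `M` = the upper bound (`hS.ub`) for `R + 3`, so `-K ≤ S ≤ M` at all points used. Second differences of size `‖ξ‖`
at such points are `≤ C ‖ξ‖²`, `C = a + b * max M 0`. For `0 < ‖ξ‖ ≤ 1` let `N = ⌊1/‖ξ‖⌋₊ ≥ 1`, `f i = S (x' + i • ξ) y`,
`i ≤ N`, `‖x' - x‖ ≤ 1`: `f (i+2) - 2 f (i+1) + f i ≤ C ‖ξ‖²`, so `f 1 - f 0 ≥ (f N - f 0)/N - C N ‖ξ‖²/2 ≥ -(2(M + K) + C/2) ‖ξ‖`.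
The upper bound of `S (x+ξ) y - S x y` is the lower bound with `x' = x + ξ` and `-ξ`. Second variable: apply the same real
lemma to `fun x => S y x` (please prove a lemma for a function `g : E n → ℝ` of one variable).
-/

set_option autoImplicit false

open MeasureTheory Filter
open scoped RealInnerProductSpace

namespace Pool.Agent.H68.HD

open Pool.Agent.H33.AM (E Tor pr IsPeriodic)

variable {n : ℕ}

/-- the lower bound of a difference -/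
private lemma lip_low {g : E n → ℝ} {x₀ : E n} {M K C : ℝ} (hMK : 0 ≤ M + K) (hC : 0 ≤ C)
    (hlo : ∀ x, ‖x - x₀‖ ≤ 3 → -K ≤ g x) (hup : ∀ x, ‖x - x₀‖ ≤ 3 → g x ≤ M)
    (hsc : ∀ x ξ, ‖x - x₀‖ ≤ 3 → ‖ξ‖ ≤ 1 → g (x + ξ) + g (x - ξ) - 2 * g x ≤ C * ‖ξ‖ ^ 2)
    {x' ξ : E n} (hx' : ‖x' - x₀‖ ≤ 1) (hξ : ‖ξ‖ ≤ 1) :
    -((2 * (M + K) + C) * ‖ξ‖) ≤ g (x' + ξ) - g x' := by
  rcases eq_or_ne ξ 0 with h0 | h0
  · rw [h0]; simp
  have hpos : 0 < ‖ξ‖ := norm_pos_iff.mpr h0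
  set N : ℕ := ⌊1 / ‖ξ‖⌋₊ with hN
  have h1le : (1 : ℝ) ≤ 1 / ‖ξ‖ := by
    rw [le_div_iff₀ hpos]; linarith
  have hN1 : 1 ≤ N := (Nat.one_le_floor_iff _).mpr h1le
  have hN1' : (1 : ℝ) ≤ N := by exact_mod_cast hN1
  have hNle : (N : ℝ) * ‖ξ‖ ≤ 1 := by
    have h := Nat.floor_le (show (0 : ℝ) ≤ 1 / ‖ξ‖ by positivity)
    rw [← hN, le_div_iff₀ hpos] at h
    exact h
  have hNge : 1 < ((N : ℝ) + 1) * ‖ξ‖ := by
    have h := Nat.lt_floor_add_one (1 / ‖ξ‖)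
    rw [← hN, div_lt_iff₀ hpos] at h
    exact h
  have hnear : ∀ i : ℕ, i ≤ N → ‖x' + (i : ℝ) • ξ - x₀‖ ≤ 3 := by
    intro i hi
    have hi' : (i : ℝ) ≤ N := by exact_mod_cast hi
    have e1 : x' + (i : ℝ) • ξ - x₀ = (x' - x₀) + (i : ℝ) • ξ := by abel
    rw [e1]
    refine (norm_add_le _ _).trans ?_
    rw [norm_smul, Real.norm_eq_abs, abs_of_nonneg (Nat.cast_nonneg i)]
    have := mul_le_mul_of_nonneg_right hi' hpos.le
    linarith
  set f : ℕ → ℝ := fun i => g (x' + (i : ℝ) • ξ) with hf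
  set s : ℝ := C * ‖ξ‖ ^ 2 with hs
  have hs0 : 0 ≤ s := by positivity
  have hsec : ∀ i : ℕ, i + 1 ≤ N → f (i + 2) + f i - 2 * f (i + 1) ≤ s := by
    intro i hi
    have h := hsc (x' + ((i + 1 : ℕ) : ℝ) • ξ) ξ (hnear (i + 1) hi) hξ
    have e1 : x' + ((i + 1 : ℕ) : ℝ) • ξ + ξ = x' + ((i + 2 : ℕ) : ℝ) • ξ := by
      push_cast
      module
    have e2 : x' + ((i + 1 : ℕ) : ℝ) • ξ - ξ = x' + (i : ℝ) • ξ := by
      push_cast
      module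
    rw [e1, e2] at h
    exact h
  have hd : ∀ i : ℕ, i ≤ N → f (i + 1) - f i ≤ f 1 - f 0 + i * s := by
    intro i
    induction i with
    | zero => intro _; simp
    | succ i ih =>
      intro hi
      have h1 := ih (by omega)
      have h2 := hsec i hi
      push_cast
      have e : i + 1 + 1 = i + 2 := rfl
      rw [e]
      linarith
  have hsum : ∀ i : ℕ, i ≤ N → f i - f 0 ≤ i * (f 1 - f 0) + i ^ 2 / 2 * s := by
    intro i
    induction i with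
    | zero => intro _; simp
    | succ i ih =>
      intro hi
      have h1 := ih (by omega)
      have h2 := hd i (by omega)
      push_cast
      have h3 : (((i : ℝ) + 1) ^ 2 / 2) * s = i ^ 2 / 2 * s + i * s + s / 2 := by ring
      rw [h3]
      linarith
  have h1 := hsum N le_rfl
  have e1 : f 1 = g (x' + ξ) := by
    simp [hf]
  have e0 : f 0 = g x' := by
    simp [hf]
  have h2 : f N ≥ -K := hlo _ (hnear N le_rfl)
  have h3 : f 0 ≤ M := hup _ (hnear 0 (Nat.zero_le _))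
  rw [e1, e0] at h1
  rw [e0] at h3
  have h4 : (N : ℝ) ^ 2 / 2 * s ≤ C / 2 := by
    have h5 : ((N : ℝ) * ‖ξ‖) ^ 2 ≤ 1 := by
      have : 0 ≤ (N : ℝ) * ‖ξ‖ := by positivity
      nlinarith
    have h6 : (N : ℝ) ^ 2 / 2 * s = C / 2 * ((N : ℝ) * ‖ξ‖) ^ 2 := by
      rw [hs]; ring
    rw [h6]
    nlinarith
  by_contra hcon
  push Not at hcon
  -- `N d < - N Λ |ξ| ≤ - Λ / 2`
  have h7 : (N : ℝ) * (g (x' + ξ) - g x') < N * -((2 * (M + K) + C) * ‖ξ‖) :=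
    mul_lt_mul_of_pos_left hcon (by linarith)
  have h8 : 1 ≤ 2 * ((N : ℝ) * ‖ξ‖) := by
    have : ‖ξ‖ ≤ (N : ℝ) * ‖ξ‖ := by
      have := mul_le_mul_of_nonneg_right hN1' hpos.le
      linarith
    linarith
  have h9 : (2 * (M + K) + C) * 1 ≤ (2 * (M + K) + C) * (2 * ((N : ℝ) * ‖ξ‖)) :=
    mul_le_mul_of_nonneg_left h8 (by linarith)
  have h10 : (N : ℝ) * -((2 * (M + K) + C) * ‖ξ‖)
      = -((2 * (M + K) + C) * (2 * ((N : ℝ) * ‖ξ‖))) / 2 := by ring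
  linarith

/-- a function of one variable with bounded second differences -/
private lemma lip_one {g : E n → ℝ} {x₀ : E n} {M K C : ℝ} (hMK : 0 ≤ M + K) (hC : 0 ≤ C)
    (hlo : ∀ x, ‖x - x₀‖ ≤ 3 → -K ≤ g x) (hup : ∀ x, ‖x - x₀‖ ≤ 3 → g x ≤ M)
    (hsc : ∀ x ξ, ‖x - x₀‖ ≤ 3 → ‖ξ‖ ≤ 1 → g (x + ξ) + g (x - ξ) - 2 * g x ≤ C * ‖ξ‖ ^ 2)
    {ξ : E n} (hξ : ‖ξ‖ ≤ 1) :
    |g (x₀ + ξ) - g x₀| ≤ (2 * (M + K) + C) * ‖ξ‖ := by
  rw [abs_le]
  constructor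
  · exact lip_low hMK hC hlo hup hsc (by simp) hξ
  · have h := lip_low hMK hC hlo hup hsc (x' := x₀ + ξ) (ξ := -ξ) (by simpa using hξ)
      (by simpa using hξ)
    rw [norm_neg] at h
    have e : x₀ + ξ + -ξ = x₀ := by abel
    rw [e] at h
    linarith

theorem lip {S : E n → E n → ℝ} {a b κ K : ℝ} (hS : Pot S a b κ K) (R : ℝ) :
    ∃ Λ : ℝ, 0 ≤ Λ ∧ ∀ x y ξ : E n, ‖y - x‖ ≤ R → ‖ξ‖ ≤ 1 →
      |S (x + ξ) y - S x y| ≤ Λ * ‖ξ‖ ∧ |S x (y + ξ) - S x y| ≤ Λ * ‖ξ‖ := by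
  obtain ⟨M, hM⟩ := hS.ub (R + 3)
  have ha := hS.ha
  have hb := hS.hb
  have hK := hS.hK
  set M' : ℝ := max M 0 with hM'
  have hM0 : 0 ≤ M' := le_max_right _ _
  have hMM : M ≤ M' := le_max_left _ _
  have hC : 0 ≤ a + b * M' := add_nonneg ha (mul_nonneg hb hM0)
  have hlow : ∀ x y, -K ≤ S x y := by
    intro x y
    have h1 := hS.lb x y
    have h2 : 0 ≤ κ * ‖y - x‖ ^ 2 := mul_nonneg hS.pos.le (by positivity)
    linarith
  have hCS : ∀ x y : E n, ‖y - x‖ ≤ R + 3 → ∀ t : ℝ, 0 ≤ t →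
      (a + b * S x y) * t ≤ (a + b * M') * t := by
    intro x y hxy t ht
    apply mul_le_mul_of_nonneg_right _ ht
    have := mul_le_mul_of_nonneg_left ((hM x y hxy).trans hMM) hb
    linarith
  refine ⟨2 * (M' + K) + (a + b * M'), by linarith, ?_⟩
  intro x y ξ hxy hξ
  have hn1 : ∀ x', ‖x' - x‖ ≤ 3 → ‖y - x'‖ ≤ R + 3 := by
    intro x' hx'
    have e : y - x' = (y - x) - (x' - x) := by abel
    rw [e]
    exact (norm_sub_le _ _).trans (add_le_add hxy hx')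
  have hn2 : ∀ y', ‖y' - y‖ ≤ 3 → ‖y' - x‖ ≤ R + 3 := by
    intro y' hy'
    have e : y' - x = (y - x) + (y' - y) := by abel
    rw [e]
    exact (norm_add_le _ _).trans (add_le_add hxy hy')
  constructor
  · exact lip_one (g := fun x' => S x' y) (x₀ := x) (M := M') (K := K) (by linarith) hC
      (fun x' _ => hlow x' y) (fun x' hx' => (hM x' y (hn1 x' hx')).trans hMM)
      (fun x' ζ hx' hζ => (hS.scl x' y ζ hζ).trans (hCS x' y (hn1 x' hx') _ (by positivity))) hξ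
  · exact lip_one (g := fun y' => S x y') (x₀ := y) (M := M') (K := K) (by linarith) hC
      (fun y' _ => hlow x y') (fun y' hy' => (hM x y' (hn2 y' hy')).trans hMM)
      (fun y' ζ hy' hζ => (hS.scr x y' ζ hζ).trans (hCS x y' (hn2 y' hy') _ (by positivity))) hξ

end Pool.Agent.H68.HD
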