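import Pool.Agent.H68.HD.Base
import Pool.Agent.H68.HD.Lip

/-!
# Module D0: bounded steps, moving the base point, pigeonhole
`step_bound`: `S x y ≤ 1 + 2 M`, `hS.lb`. For a closed chain `cost S f k = ∑ (S (f i) (f (i+1)) - u (f (i+1)) + u (f i))` (telescoping,
`hu.per`), all summands are `≥ 0`. `move`: all the steps of `f` are `≤ R`; let `e = x - f 0`; `g 0 = x`, `g i = f i`
(`0 < i < k`), `g k = x + zv z`; only the first and the last step change (`lip` with `R + 1`; if `k = 1` the step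
`S (f 0) (f 0 + zv z)` becomes `S x (x + zv z)`: two applications). `pigeon`: cover `[0,1]ⁿ` by finitely many sets of diameter `≤ η`
(compactness), reduce the `f i` to `[0,1)ⁿ` by `exists_near`.
-/

set_option autoImplicit false

open MeasureTheory Filter
open scoped RealInnerProductSpace

namespace Pool.Agent.H68.HD

open Pool.Agent.H33.AM (E Tor pr IsPeriodic)

variable {n : ℕ}

theorem closed_cost {S : E n → E n → ℝ} {u : E n → ℝ} {M Λ : ℝ} (hu : Sub S u M Λ) {f : ℕ → E n}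
    {k : ℕ} {z : Fin n → ℤ} (hf : Cl f k z) :
    cost S f k = ∑ i ∈ Finset.range k, (S (f i) (f (i + 1)) - u (f (i + 1)) + u (f i)) := by
  have h1 : ∑ i ∈ Finset.range k, (S (f i) (f (i + 1)) - u (f (i + 1)) + u (f i))
      = cost S f k - ∑ i ∈ Finset.range k, (u (f (i + 1)) - u (f i)) := by
    rw [cost, ← Finset.sum_sub_distrib]
    apply Finset.sum_congr rfl
    intro i _
    ring
  rw [h1, Finset.sum_range_sub (fun i => u (f i)) k, hf.2, hu.per]
  ring

theorem step_bound {S : E n → E n → ℝ} {a b κ K : ℝ} (hS : Pot S a b κ K) {u : E n → ℝ} {M Λ : ℝ}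
    (hu : Sub S u M Λ) : ∃ R : ℝ, 0 ≤ R ∧ ∀ x y, S x y - u y + u x ≤ 1 → ‖y - x‖ ≤ R := by
  refine ⟨Real.sqrt ((1 + 2 * M + K) / κ), Real.sqrt_nonneg _, fun x y h => ?_⟩
  apply Real.le_sqrt_of_sq_le
  rw [le_div_iff₀ hS.pos]
  have h1 := hS.lb x y
  have h2 := abs_le.1 (hu.bd x)
  have h3 := abs_le.1 (hu.bd y)
  nlinarith [h2.1, h2.2, h3.1, h3.2]

theorem move {S : E n → E n → ℝ} {a b κ K : ℝ} (hS : Pot S a b κ K) {u : E n → ℝ} {M Λ : ℝ}
    (hu : Sub S u M Λ) : ∃ C : ℝ, 0 ≤ C ∧ ∀ f k z (x : E n), Cl f k z → cost S f k ≤ 1 →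
      ‖x - f 0‖ ≤ 1 → ∃ g, Cl g k z ∧ g 0 = x ∧ cost S g k ≤ cost S f k + C * ‖x - f 0‖ := by
  obtain ⟨R, hR0, hR⟩ := step_bound hS hu
  obtain ⟨Λ₁, hΛ0, hΛ⟩ := lip hS (R + 1)
  refine ⟨2 * Λ₁, by linarith, fun f k z x hf hc hx => ?_⟩
  -- all the steps are bounded
  have hstep : ∀ i, i < k → ‖f (i + 1) - f i‖ ≤ R := by
    intro i hi
    apply hR
    have h1 : S (f i) (f (i + 1)) - u (f (i + 1)) + u (f i) ≤
        ∑ i ∈ Finset.range k, (S (f i) (f (i + 1)) - u (f (i + 1)) + u (f i)) := by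
      apply Finset.single_le_sum
        (f := fun i => S (f i) (f (i + 1)) - u (f (i + 1)) + u (f i)) _ (Finset.mem_range.2 hi)
      intro j _
      have := hu.sub (f j) (f (j + 1))
      linarith
    rw [← closed_cost hu hf] at h1
    linarith
  set e : E n := x - f 0 with he
  set d : ℕ → E n := fun i => if i = 0 ∨ i = k then e else 0 with hd
  have hdn : ∀ i, ‖d i‖ ≤ 1 := by
    intro i
    by_cases h : i = 0 ∨ i = k
    · simp only [hd, if_pos h]; exact hx
    · simp only [hd, if_neg h]; simp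
  have hk := hf.1
  have hg0 : f 0 + d 0 = x := by
    simp [hd, he]
  have hgk : f k + d k = x + zv z := by
    have h1 : d k = e := by simp [hd]
    rw [h1, hf.2, he]
    abel
  refine ⟨fun i => f i + d i, ⟨hk, ?_⟩, hg0, ?_⟩
  · show f k + d k = f 0 + d 0 + zv z
    rw [hg0, hgk]
  have hone : ∀ i, i < k → S (f i + d i) (f (i + 1) + d (i + 1)) ≤
      S (f i) (f (i + 1)) + (Λ₁ * ‖d i‖ + Λ₁ * ‖d (i + 1)‖) := by
    intro i hi
    have h0 := hstep i hi
    have h1 := (hΛ (f i) (f (i + 1)) (d i) (h0.trans (by linarith)) (hdn i)).1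
    have h2 : ‖f (i + 1) - (f i + d i)‖ ≤ R + 1 := by
      have e1 : f (i + 1) - (f i + d i) = (f (i + 1) - f i) - d i := by abel
      rw [e1]
      exact (norm_sub_le _ _).trans (add_le_add h0 (hdn i))
    have h3 := (hΛ (f i + d i) (f (i + 1)) (d (i + 1)) h2 (hdn (i + 1))).2
    have h4 := (abs_le.1 h1).2
    have h5 := (abs_le.1 h3).2
    linarith
  have hd1 : ∀ i ∈ Finset.range k, ‖d i‖ = if i = 0 then ‖e‖ else 0 := by
    intro i hi
    have hi' := Finset.mem_range.1 hi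
    by_cases h : i = 0
    · simp [hd, h]
    · have h2 : ¬(i = 0 ∨ i = k) := by omega
      simp only [hd, if_neg h2, if_neg h, norm_zero]
  have hd2 : ∀ i ∈ Finset.range k, ‖d (i + 1)‖ = if i = k - 1 then ‖e‖ else 0 := by
    intro i hi
    have hi' := Finset.mem_range.1 hi
    by_cases h : i = k - 1
    · have h2 : i + 1 = 0 ∨ i + 1 = k := by omega
      simp only [hd, if_pos h2, if_pos h]
    · have h2 : ¬(i + 1 = 0 ∨ i + 1 = k) := by omega
      simp only [hd, if_neg h2, if_neg h, norm_zero]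
  have hs1 : ∑ i ∈ Finset.range k, ‖d i‖ = ‖e‖ := by
    rw [Finset.sum_congr rfl hd1, Finset.sum_ite_eq' (Finset.range k) 0 (fun _ => ‖e‖),
      if_pos (Finset.mem_range.2 hk)]
  have hs2 : ∑ i ∈ Finset.range k, ‖d (i + 1)‖ = ‖e‖ := by
    rw [Finset.sum_congr rfl hd2, Finset.sum_ite_eq' (Finset.range k) (k - 1) (fun _ => ‖e‖),
      if_pos (Finset.mem_range.2 (by omega))]
  calc cost S (fun i => f i + d i) k
      = ∑ i ∈ Finset.range k, S (f i + d i) (f (i + 1) + d (i + 1)) := rfl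
    _ ≤ ∑ i ∈ Finset.range k, (S (f i) (f (i + 1)) + (Λ₁ * ‖d i‖ + Λ₁ * ‖d (i + 1)‖)) :=
        Finset.sum_le_sum fun i hi => hone i (Finset.mem_range.1 hi)
    _ = cost S f k + 2 * Λ₁ * ‖e‖ := by
        rw [Finset.sum_add_distrib, Finset.sum_add_distrib, ← Finset.mul_sum, ← Finset.mul_sum,
          hs1, hs2, cost]
        ring

theorem pigeon (η : ℝ) (hη : 0 < η) : ∃ N : ℕ, 0 < N ∧ ∀ f : ℕ → E n,
    ∃ p q : ℕ, p < q ∧ q ≤ N ∧ ∃ z : Fin n → ℤ, ‖f p + zv z - f q‖ ≤ η := by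
  have hcpt : IsCompact (Metric.closedBall (0 : E n) (Real.sqrt n)) := isCompact_closedBall _ _
  obtain ⟨t, -, htf, htc⟩ := hcpt.finite_cover_balls (half_pos hη)
  refine ⟨htf.toFinset.card + 1, Nat.succ_pos _, fun f => ?_⟩
  choose z hz1 hz2 using fun i => exists_near (f i)
  have hc : ∀ i, ∃ c, c ∈ t ∧ dist (f i + zv (z i)) c < η / 2 := by
    intro i
    have h1 : f i + zv (z i) ∈ Metric.closedBall (0 : E n) (Real.sqrt n) := by
      rw [mem_closedBall_zero_iff]
      exact hz1 i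
    obtain ⟨c, hc1, hc2⟩ := Set.mem_iUnion₂.1 (htc h1)
    exact ⟨c, hc1, hc2⟩
  choose c hc1 hc2 using hc
  obtain ⟨i, hi, j, hj, hij, he⟩ := Finset.exists_ne_map_eq_of_card_lt_of_maps_to
    (s := Finset.range (htf.toFinset.card + 1)) (t := htf.toFinset) (f := c)
    (by rw [Finset.card_range]; omega)
    (fun i _ => by simpa using hc1 i)
  have key : ∀ p q : ℕ, c p = c q → ∃ w : Fin n → ℤ, ‖f p + zv w - f q‖ ≤ η := by
    intro p q hpq
    refine ⟨z p - z q, ?_⟩
    have h1 := hc2 p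
    have h2 := hc2 q
    rw [← hpq] at h2
    have h3 : dist (f p + zv (z p)) (f q + zv (z q)) ≤ η := by
      have := dist_triangle_right (f p + zv (z p)) (f q + zv (z q)) (c p)
      linarith
    rw [dist_eq_norm] at h3
    have e1 : f p + zv (z p - z q) - f q = f p + zv (z p) - (f q + zv (z q)) := by
      rw [sub_eq_add_neg (z p) (z q), zv_add, zv_neg]
      abel
    rw [e1]
    exact h3
  have hi' := Finset.mem_range.1 hi
  have hj' := Finset.mem_range.1 hj
  rcases lt_or_gt_of_ne hij with h | h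
  · exact ⟨i, j, h, by omega, key i j he⟩
  · exact ⟨j, i, h, by omega, key j i he.symm⟩

end Pool.Agent.H68.HD
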