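import Pool.Agent.H68.HD.Base
import Pool.Agent.H68.HD.D0

/-!
# Module D1: closed chains of small cost
`η ≤ 1` with `(Λ₁ + |Λ|) η ≤ ε/2` (`Λ₁` from `lip` for `R` of `step_bound`), `N` from `pigeon`, `δ` with `4 N δ ≤ min ε 1`; a closed
chain `f` of length `k` with cost `≤ δ k` (`N2`). If `k < N`: cost `≤ δ N ≤ ε`. If `k ≥ N`: with `q = k / N ≥ 1` the windows
`[j N, (j+1) N)`, `j < q`, have the total `∑ D ≤ δ k ≤ 2 δ N q` (`D ≥ 0`, `closed_cost`), so one of them has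
`∑ D ≤ 2 δ N` (`Finset.exists_le_of_sum_le`). `pigeon` for `fun i => f (j N + i)` gives `p < q' ≤ N`; let `A = j N + p`,
`B = j N + q'`; the chain `g i = f (A + i)` for `i < B - A`, `g (B - A) = f A + zv z` is closed, its cost is (`closed_cost`) the sum of `D` along `g`,
which differs from the sum of `D` along `f` on `[A, B)` only in the last step, by at most `(Λ₁ + Λ) η` (`lip`, `hu.lip`,
`hu.per`).
-/

set_option autoImplicit false

open MeasureTheory Filter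
open scoped RealInnerProductSpace

namespace Pool.Agent.H68.HD

open Pool.Agent.H33.AM (E Tor pr IsPeriodic)

variable {n : ℕ}

private theorem window (d : ℕ → ℝ) (hd : ∀ i, 0 ≤ d i) (k N : ℕ) (hN : 0 < N) (hk : N ≤ k) (δ : ℝ)
    (hδ : 0 ≤ δ) (h : ∑ i ∈ Finset.range k, d i ≤ δ * k) :
    ∃ j : ℕ, ∑ i ∈ Finset.range N, d (j * N + i) ≤ 2 * δ * N := by
  obtain ⟨q, hq⟩ : ∃ q : ℕ, q = k / N := ⟨_, rfl⟩
  have hq1 : 1 ≤ q := by
    rw [hq]
    exact (Nat.one_le_div_iff hN).2 hk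
  have hqk : q * N ≤ k := by
    rw [hq]
    exact Nat.div_mul_le_self k N
  have hkq : k < (q + 1) * N := by
    have h1 := Nat.div_add_mod k N
    have h2 := Nat.mod_lt k hN
    rw [hq]
    calc k = N * (k / N) + k % N := h1.symm
      _ < N * (k / N) + N := Nat.add_lt_add_left h2 _
      _ = (k / N + 1) * N := by ring
  have hsum : ∀ r : ℕ, ∑ j ∈ Finset.range r, ∑ i ∈ Finset.range N, d (j * N + i) =
      ∑ i ∈ Finset.range (r * N), d i := by
    intro r
    induction r with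
    | zero => simp
    | succ r ih =>
      rw [Finset.sum_range_succ, ih, Nat.succ_mul, Finset.sum_range_add]
  have h1 : ∑ j ∈ Finset.range q, ∑ i ∈ Finset.range N, d (j * N + i) ≤
      ∑ _j ∈ Finset.range q, 2 * δ * N := by
    rw [hsum q, Finset.sum_const, Finset.card_range, nsmul_eq_mul]
    calc ∑ i ∈ Finset.range (q * N), d i ≤ ∑ i ∈ Finset.range k, d i :=
          Finset.sum_le_sum_of_subset_of_nonneg (Finset.range_mono hqk) fun i _ _ => hd i
      _ ≤ δ * k := h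
      _ ≤ δ * (2 * q * N) := by
          refine mul_le_mul_of_nonneg_left ?_ hδ
          have h2 : (k : ℝ) ≤ (q + 1) * N := by exact_mod_cast hkq.le
          have h3 : (1 : ℝ) ≤ q := by exact_mod_cast hq1
          have h4 : (0 : ℝ) ≤ N := Nat.cast_nonneg _
          nlinarith
      _ = q * (2 * δ * N) := by ring
  obtain ⟨j, _, hj⟩ := Finset.exists_le_of_sum_le (Finset.nonempty_range_iff.2 (by omega)) h1
  exact ⟨j, hj⟩

theorem small {S : E n → E n → ℝ} {a b κ K : ℝ} (hS : Pot S a b κ K) {u : E n → ℝ} {M Λ : ℝ}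
    (hu : Sub S u M Λ) (h2 : N2 S) (ε : ℝ) (hε : 0 < ε) : ∃ f k z, Cl f k z ∧ cost S f k ≤ ε := by
  obtain ⟨R, hR0, hR⟩ := step_bound hS hu
  obtain ⟨Λ₁, hΛ0, hL⟩ := lip hS R
  obtain ⟨c, hc⟩ : ∃ c : ℝ, c = Λ₁ + |Λ| := ⟨_, rfl⟩
  have hc0 : 0 ≤ c := by
    rw [hc]
    positivity
  obtain ⟨η, hη⟩ : ∃ η : ℝ, η = min 1 (ε / (2 * (c + 1))) := ⟨_, rfl⟩
  have hη0 : 0 < η := by
    rw [hη]
    positivity
  have hη1 : η ≤ 1 := by
    rw [hη]
    exact min_le_left _ _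
  have hη2 : c * η ≤ ε / 2 := by
    have h1 : η ≤ ε / (2 * (c + 1)) := by
      rw [hη]
      exact min_le_right _ _
    have h3 : (c + 1) * η ≤ ε / 2 := by
      calc (c + 1) * η ≤ (c + 1) * (ε / (2 * (c + 1))) := mul_le_mul_of_nonneg_left h1 (by linarith)
        _ = ε / 2 := by
          field_simp
    nlinarith
  obtain ⟨N, hN, hpig⟩ := pigeon (n := n) η hη0
  have hN0 : (0 : ℝ) < N := by exact_mod_cast hN
  obtain ⟨δ, hδ⟩ : ∃ δ : ℝ, δ = min ε 1 / (4 * N) := ⟨_, rfl⟩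
  have hm0 : 0 < min ε 1 := lt_min hε one_pos
  have hδ0 : 0 < δ := by
    rw [hδ]
    positivity
  have hδN : 4 * (δ * N) = min ε 1 := by
    rw [hδ]
    field_simp
  have hδ1 : 4 * (δ * N) ≤ ε := hδN.le.trans (min_le_left _ _)
  have hδ2 : 4 * (δ * N) ≤ 1 := hδN.le.trans (min_le_right _ _)
  obtain ⟨f, k, z, hf, hfc⟩ := h2 δ hδ0
  by_cases hk : k < N
  · refine ⟨f, k, z, hf, hfc.trans ?_⟩
    have h1 : (k : ℝ) ≤ N := by exact_mod_cast hk.le
    have h3 : δ * k ≤ δ * N := mul_le_mul_of_nonneg_left h1 hδ0.le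
    have h4 : 0 ≤ δ * N := by positivity
    linarith
  have hk1 : N ≤ k := not_lt.1 hk
  obtain ⟨d, hd⟩ : ∃ d : ℕ → ℝ, ∀ i, d i = S (f i) (f (i + 1)) - u (f (i + 1)) + u (f i) :=
    ⟨_, fun _ => rfl⟩
  have hd0 : ∀ i, 0 ≤ d i := by
    intro i
    have := hu.sub (f i) (f (i + 1))
    rw [hd]
    linarith
  have hsum : ∑ i ∈ Finset.range k, d i ≤ δ * k := by
    have h1 := closed_cost hu hf
    have h3 : ∑ i ∈ Finset.range k, d i = cost S f k := by
      rw [h1]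
      exact Finset.sum_congr rfl fun i _ => hd i
    rw [h3]
    exact hfc
  obtain ⟨j, hj⟩ := window d hd0 k N hN hk1 δ hδ0.le hsum
  obtain ⟨p, q, hpq, hqN, z', hz'⟩ := hpig fun i => f (j * N + i)
  have hz1 : ‖f (j * N + p) + zv z' - f (j * N + q)‖ ≤ η := hz'
  obtain ⟨m, hm⟩ : ∃ m : ℕ, q = p + (m + 1) := ⟨q - p - 1, by omega⟩
  obtain ⟨A, hA⟩ : ∃ A : ℕ, A = j * N + p := ⟨_, rfl⟩
  have hAq : j * N + q = A + m + 1 := by omega
  rw [hAq, ← hA] at hz1
  -- the window sum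
  have hwin : ∑ i ∈ Finset.range (m + 1), d (A + i) ≤ 2 * δ * N := by
    refine le_trans ?_ hj
    have h1 : ∑ i ∈ Finset.range (m + 1), d (A + i) =
        ∑ i ∈ Finset.Ico p (p + (m + 1)), d (j * N + i) := by
      rw [Finset.sum_Ico_eq_sum_range]
      rw [Nat.add_sub_cancel_left]
      refine Finset.sum_congr rfl fun i _ => ?_
      rw [hA, Nat.add_assoc]
    rw [h1]
    refine Finset.sum_le_sum_of_subset_of_nonneg (fun i hi => ?_) (fun i _ _ => hd0 _)
    rw [Finset.mem_Ico] at hi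
    rw [Finset.mem_range]
    omega
  have hlast : d (A + m) ≤ 2 * δ * N := by
    refine le_trans ?_ hwin
    exact Finset.single_le_sum (f := fun i => d (A + i)) (fun i _ => hd0 _)
      (Finset.mem_range.2 (Nat.lt_succ_self m))
  obtain ⟨g, hg⟩ : ∃ g : ℕ → E n, ∀ i, g i = if i < m + 1 then f (A + i) else f A + zv z' :=
    ⟨_, fun _ => rfl⟩
  have hg1 : ∀ i, i < m + 1 → g i = f (A + i) := fun i hi => by rw [hg, if_pos hi]
  have hg2 : g (m + 1) = f A + zv z' := by rw [hg, if_neg (lt_irrefl _)]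
  have hgc : Cl g (m + 1) z' := by
    refine ⟨Nat.succ_pos m, ?_⟩
    rw [hg2, hg1 0 (Nat.succ_pos m), Nat.add_zero]
  refine ⟨g, m + 1, z', hgc, ?_⟩
  rw [closed_cost hu hgc, Finset.sum_range_succ]
  have h5 : ∑ i ∈ Finset.range m, (S (g i) (g (i + 1)) - u (g (i + 1)) + u (g i)) =
      ∑ i ∈ Finset.range m, d (A + i) := by
    refine Finset.sum_congr rfl fun i hi => ?_
    rw [Finset.mem_range] at hi
    rw [hg1 i (by omega), hg1 (i + 1) (by omega), hd, Nat.add_assoc]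
  have h6 : S (g m) (g (m + 1)) - u (g (m + 1)) + u (g m) ≤ d (A + m) + c * η := by
    obtain ⟨x, hx⟩ : ∃ x : E n, x = f (A + m) := ⟨_, rfl⟩
    obtain ⟨y, hy⟩ : ∃ y : E n, y = f (A + m + 1) := ⟨_, rfl⟩
    obtain ⟨e, he⟩ : ∃ e : E n, e = f A + zv z' - y := ⟨_, rfl⟩
    have he1 : ‖e‖ ≤ η := by
      rw [he, hy]
      exact hz1
    have he2 : f A + zv z' = y + e := by
      rw [he]
      abel
    have hdxy : d (A + m) = S x y - u y + u x := by rw [hd, hx, hy]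
    have hxy : ‖y - x‖ ≤ R := by
      apply hR
      rw [← hdxy]
      linarith
    have h7 := (hL x y e hxy (he1.trans hη1)).2
    have h8 := hu.lip y e (he1.trans hη1)
    have h9 : Λ * ‖e‖ ≤ |Λ| * η := by
      calc Λ * ‖e‖ ≤ |Λ| * ‖e‖ := mul_le_mul_of_nonneg_right (le_abs_self Λ) (norm_nonneg e)
        _ ≤ |Λ| * η := mul_le_mul_of_nonneg_left he1 (abs_nonneg Λ)
    have h10 : Λ₁ * ‖e‖ ≤ Λ₁ * η := mul_le_mul_of_nonneg_left he1 hΛ0
    rw [hg1 m (Nat.lt_succ_self m), hg2, he2, ← hx, hdxy, hc]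
    have h11 := (abs_le.1 h7).2
    have h12 := (abs_le.1 h8).1
    linarith
  rw [h5]
  have h13 : ∑ i ∈ Finset.range (m + 1), d (A + i) = ∑ i ∈ Finset.range m, d (A + i) + d (A + m) :=
    Finset.sum_range_succ _ _
  linarith

end Pool.Agent.H68.HD
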