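import Pool.Agent.H68.HD.Base
import Pool.Agent.H68.HD.D1

/-!
# Module D2: Aubry points exist, the set of Aubry points is closed and periodic
`exists_aub`: closed chains `f_j` of cost `≤ 1/(j+1)` (`small`), translate so that `f_j 0 ∈ [0,1)ⁿ` (`exists_near`, `hS.per`), a
subsequence of `f_j 0` converges to `x`; `move`. `aub_closed`: `isClosed_of_closure_subset`/sequences and `move`.
-/

set_option autoImplicit false

open MeasureTheory Filter
open scoped RealInnerProductSpace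

namespace Pool.Agent.H68.HD

open Pool.Agent.H33.AM (E Tor pr IsPeriodic)

variable {n : ℕ}

private theorem d2_tr {S : E n → E n → ℝ} {a b κ K : ℝ} (hS : Pot S a b κ K) {f : ℕ → E n}
    {k : ℕ} {w : Fin n → ℤ} (hf : Cl f k w) (z : Fin n → ℤ) :
    Cl (fun i => f i + zv z) k w ∧ cost S (fun i => f i + zv z) k = cost S f k := by
  refine ⟨⟨hf.1, ?_⟩, ?_⟩
  · show f k + zv z = f 0 + zv z + zv w
    rw [hf.2]
    abel
  · unfold cost
    exact Finset.sum_congr rfl (fun i _ => hS.per _ _ _)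

private theorem d2_key {S : E n → E n → ℝ} {a b κ K : ℝ} (hS : Pot S a b κ K) {u : E n → ℝ}
    {M Λ : ℝ} (hu : Sub S u M Λ) {x : E n}
    (h : ∀ δ : ℝ, 0 < δ → ∃ f k z, Cl f k z ∧ ‖x - f 0‖ ≤ δ ∧ cost S f k ≤ δ) : Aub S x := by
  obtain ⟨C, hC, hm⟩ := move hS hu
  intro ε hε
  have hC1 : 0 < 1 + C := by linarith
  obtain ⟨f, k, z, hf, h0, hc⟩ := h (min 1 (ε / (1 + C))) (lt_min one_pos (div_pos hε hC1))
  have h1 := h0.trans (min_le_left _ _)
  have h2 := hc.trans (min_le_left _ _)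
  have h3 := h0.trans (min_le_right _ _)
  have h4 := hc.trans (min_le_right _ _)
  obtain ⟨g, hg, hg0, hgc⟩ := hm f k z x hf h2 h1
  refine ⟨g, k, z, hg, hg0, hgc.trans ?_⟩
  have h5 : C * ‖x - f 0‖ ≤ C * (ε / (1 + C)) := mul_le_mul_of_nonneg_left h3 hC
  have h6 : ε / (1 + C) + C * (ε / (1 + C)) = ε := by
    field_simp
  linarith

theorem aub_add {S : E n → E n → ℝ} {a b κ K : ℝ} (hS : Pot S a b κ K) {x : E n} (hx : Aub S x)
    (z : Fin n → ℤ) : Aub S (x + zv z) := by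
  intro ε hε
  obtain ⟨f, k, w, hf, h0, hc⟩ := hx ε hε
  obtain ⟨h1, h2⟩ := d2_tr hS hf z
  exact ⟨fun i => f i + zv z, k, w, h1, congrArg (fun v => v + zv z) h0, by rw [h2]; exact hc⟩

theorem exists_aub {S : E n → E n → ℝ} {a b κ K : ℝ} (hS : Pot S a b κ K) {u : E n → ℝ} {M Λ : ℝ}
    (hu : Sub S u M Λ) (h2 : N2 S) : ∃ x, Aub S x := by
  have hex : ∀ j : ℕ, ∃ f k z, Cl (n := n) f k z ∧ f 0 ∈ Metric.closedBall (0 : E n) (Real.sqrt n) ∧
      cost S f k ≤ 1 / ((j : ℝ) + 1) := by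
    intro j
    obtain ⟨f, k, w, hf, hc⟩ := small hS hu h2 (1 / ((j : ℝ) + 1)) (by positivity)
    obtain ⟨z, hz, -⟩ := exists_near (f 0)
    obtain ⟨h3, h4⟩ := d2_tr hS hf z
    refine ⟨fun i => f i + zv z, k, w, h3, ?_, by rw [h4]; exact hc⟩
    rw [mem_closedBall_zero_iff]
    exact hz
  choose f k z hf hb hc using hex
  obtain ⟨x, -, φ, hφ, hlim⟩ := (isCompact_closedBall (0 : E n) (Real.sqrt n)).tendsto_subseq hb
  refine ⟨x, d2_key hS hu (fun δ hδ => ?_)⟩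
  have e1 : ∀ᶠ j in atTop, dist ((fun j => f j 0) (φ j)) x < δ := by
    have := Metric.tendsto_nhds.1 hlim δ hδ
    exact this
  have e2 : ∀ᶠ j : ℕ in atTop, 1 / ((j : ℝ) + 1) < δ := by
    have := (tendsto_one_div_add_atTop_nhds_zero_nat (𝕜 := ℝ)).eventually (gt_mem_nhds hδ)
    exact this
  obtain ⟨j, hj1, hj2⟩ := (e1.and (hφ.tendsto_atTop.eventually e2)).exists
  refine ⟨f (φ j), k (φ j), z (φ j), hf _, ?_, (hc _).trans hj2.le⟩
  rw [← dist_eq_norm, dist_comm]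
  exact hj1.le

theorem aub_closed {S : E n → E n → ℝ} {a b κ K : ℝ} (hS : Pot S a b κ K) {u : E n → ℝ} {M Λ : ℝ}
    (hu : Sub S u M Λ) : IsClosed {x | Aub S x} := by
  refine isClosed_of_closure_subset (fun x hx => ?_)
  refine d2_key hS hu (fun δ hδ => ?_)
  obtain ⟨y, hy, hxy⟩ := Metric.mem_closure_iff.1 hx δ hδ
  obtain ⟨f, k, z, hf, h0, hc⟩ := hy δ hδ
  refine ⟨f, k, z, hf, ?_, hc⟩
  rw [h0, ← dist_eq_norm]
  exact hxy.le

end Pool.Agent.H68.HD
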