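import Pool.Agent.H33.AM.Defs

/-!
# Mather's alpha function in Mañé's form, Peierls barrier and Aubry sets of time-periodic Lagrangians
-/

set_option autoImplicit false

open MeasureTheory Filter
open scoped RealInnerProductSpace

namespace Pool.Agent.H68.HD

open Pool.Agent.H33.AM (E Tor pr IsPeriodic)

variable {n : ℕ}

/-- The means `(1/k) ∫_0^k (L(γ, γ', t) - c · γ') dt`, `k ≥ 1`, over the absolutely continuous curves
`γ` on `[0, k]` which are closed in `𝕋ⁿ`. -/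
def loopMeans (L : E n → E n → ℝ → ℝ) (c : E n) : Set ℝ :=
  {a | ∃ (k : ℕ) (γ : ℝ → E n), 0 < k ∧ AbsolutelyContinuousOnInterval γ 0 k ∧
    pr (γ 0) = pr (γ k) ∧
    IntervalIntegrable (fun t => L (γ t) (deriv γ t) t - ⟪c, deriv γ t⟫) volume 0 k ∧
    a = (∫ t in (0 : ℝ)..k, (L (γ t) (deriv γ t) t - ⟪c, deriv γ t⟫)) / k}

/-- Mather's alpha function in Mañé's form: `α(c)` is minus the infimum of these means. -/
noncomputable def alpha (L : E n → E n → ℝ → ℝ) (c : E n) : ℝ := -sInf (loopMeans L c)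

/-- The actions `∫_0^k L_c(γ, γ', t) dt`, `L_c = L - c · v + α(c)`, of the absolutely continuous
curves `γ` on `[0, k]` from `x` to `y` in `𝕋ⁿ`. -/
def curveActions (L : E n → E n → ℝ → ℝ) (c : E n) (k : ℕ) (x y : Tor n) : Set ℝ :=
  {a | ∃ γ : ℝ → E n, AbsolutelyContinuousOnInterval γ 0 k ∧ pr (γ 0) = x ∧ pr (γ k) = y ∧
    IntervalIntegrable (fun t => L (γ t) (deriv γ t) t - ⟪c, deriv γ t⟫ + alpha L c) volume 0 k ∧
    a = ∫ t in (0 : ℝ)..k, (L (γ t) (deriv γ t) t - ⟪c, deriv γ t⟫ + alpha L c)}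

/-- The Peierls barrier `h_c(x, y) = liminf_{k → ∞} h_c^k(x, y)`, where `h_c^k(x, y)` is the infimum
of the actions. -/
noncomputable def peierls (L : E n → E n → ℝ → ℝ) (c : E n) (x y : Tor n) : ℝ :=
  liminf (fun k : ℕ => sInf (curveActions L c k x y)) atTop

/-- The projected Aubry set. -/
def aubry (L : E n → E n → ℝ → ℝ) (c : E n) : Set (Tor n) := {x | peierls L c x x = 0}

/-- Time-periodic Lagrangians of quadratic growth on the torus. -/
structure Growth (L : E n → E n → ℝ → ℝ) (κ K : ℝ) : Prop where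
  per : IsPeriodic L
  cont : Continuous fun z : E n × E n × ℝ => L z.1 z.2.1 z.2.2
  pos : 0 < κ
  lo : ∀ x v t, κ * ‖v‖ ^ 2 - K ≤ L x v t
  sc : ∀ x v t ξ η, ‖ξ‖ ≤ 1 → ‖η‖ ≤ 1 → L (x + ξ) (v + η) t + L (x - ξ) (v - η) t - 2 * L x v t ≤
    K * (1 + ‖v‖ ^ 2) * (‖ξ‖ ^ 2 + ‖η‖ ^ 2)

end Pool.Agent.H68.HD
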