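import Pool.Agent.H68.HD.Base

/-!
# Module Dio: almost every vector is Diophantine
For `R : ℕ`, in the ball `‖h‖ ≤ R`: `W_k = {h | ‖h‖ ≤ R ∧ ∃ z, ‖zv z - k • h‖ < k^(-τ)}` has volume
`≤ #{z : ‖zv z‖ ≤ k R + 1} · vol(ball 0 (k^(-τ-1))) ≤ C_R k^n k^(-n(τ+1)) = C_R k^(-nτ)`, summable since `n τ > 1`;
`measure_limsup_atTop_eq_zero` (Borel-Cantelli), so a.e. `h` is in finitely many `W_k`. Also a.e. `h` satisfies `k • h ≠ zv z` for all
`k > 0`, `z` (countable set). For the finitely many remaining `k` the distance of `k • h` to the integer vectors is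
positive (finitely many integer vectors at distance `≤ 1`). Take the minimum `γ`.
-/

set_option autoImplicit false

open MeasureTheory Filter
open scoped RealInnerProductSpace

namespace Pool.Agent.H68.HD

open Pool.Agent.H33.AM (E Tor pr IsPeriodic)

variable {n : ℕ}

/-- A coordinate of an integer vector near `v`. -/
private theorem mem_box {v : E n} {r : ℝ} {B : ℕ} (hB : ‖v‖ + r ≤ B) {z : Fin n → ℤ}
    (hz : ‖zv z - v‖ ≤ r) : z ∈ Fintype.piFinset fun _ : Fin n => Finset.Icc (-(B : ℤ)) (B : ℤ) := by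
  rw [Fintype.mem_piFinset]
  intro i
  have h1 : ‖zv z‖ ≤ B := by
    have h2 : zv z = (zv z - v) + v := by abel
    rw [h2]
    exact (norm_add_le _ _).trans (by linarith)
  have h3 : ‖(zv z) i‖ ≤ ‖zv z‖ := PiLp.norm_apply_le (zv z) i
  have h4 : |(z i : ℝ)| ≤ B := by
    have h5 : (zv z) i = (z i : ℝ) := rfl
    rw [h5, Real.norm_eq_abs] at h3
    exact h3.trans h1
  rw [abs_le] at h4
  rw [Finset.mem_Icc]
  exact ⟨by exact_mod_cast h4.1, by exact_mod_cast h4.2⟩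

/-- Positive lower bound on a finite set. -/
private theorem exists_pos_le {ι : Type*} (s : Finset ι) (f : ι → ℝ) (hf : ∀ i ∈ s, 0 < f i) :
    ∃ c : ℝ, 0 < c ∧ c ≤ 1 ∧ ∀ i ∈ s, c ≤ f i := by
  classical
  induction s using Finset.induction_on with
  | empty => exact ⟨1, one_pos, le_refl _, by simp⟩
  | insert a s ha ih =>
    obtain ⟨c, hc, hc1, h⟩ := ih fun i hi => hf i (Finset.mem_insert_of_mem hi)
    refine ⟨min c (f a), lt_min hc (hf a (Finset.mem_insert_self _ _)), (min_le_left _ _).trans hc1, ?_⟩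
    intro i hi
    rcases Finset.mem_insert.1 hi with rfl | hi
    · exact min_le_right _ _
    · exact (min_le_left _ _).trans (h i hi)

/-- One `k`. -/
private theorem one_k (v : E n) (hv : ∀ z : Fin n → ℤ, zv z ≠ v) :
    ∃ c : ℝ, 0 < c ∧ c ≤ 1 ∧ ∀ z : Fin n → ℤ, c ≤ ‖zv z - v‖ := by
  obtain ⟨B, hB⟩ := exists_nat_ge (‖v‖ + 1)
  obtain ⟨c, hc, hc1, h⟩ := exists_pos_le (Fintype.piFinset fun _ : Fin n => Finset.Icc (-(B : ℤ)) (B : ℤ))
    (fun z => ‖zv z - v‖) (fun z _ => norm_pos_iff.2 (sub_ne_zero.2 (hv z)))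
  refine ⟨c, hc, hc1, fun z => ?_⟩
  by_cases hz : ‖zv z - v‖ ≤ 1
  · exact h z (mem_box hB hz)
  · exact hc1.trans (not_le.1 hz).le

/-- The exceptional sets. -/
private def W (τ : ℝ) (R k : ℕ) : Set (E n) :=
  {h | 0 < k ∧ ‖h‖ ≤ R ∧ ∃ z : Fin n → ℤ, ‖zv z - (k : ℝ) • h‖ < (k : ℝ) ^ (-τ)}

private theorem vol_W (hn : 0 < n) {τ : ℝ} (hτ : 0 < τ) (R k : ℕ) :
    volume (W (n := n) τ R k) ≤
      ENNReal.ofReal ((2 * (R : ℝ) + 3) ^ n * (k : ℝ) ^ (-((n : ℝ) * τ))) * volume (Metric.ball (0 : E n) 1) := by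
  have hne : Nonempty (Fin n) := ⟨⟨0, hn⟩⟩
  rcases Nat.eq_zero_or_pos k with hk | hk
  · have : W (n := n) τ R k = ∅ := by
      ext h
      simp [W, hk]
    rw [this, measure_empty]
    exact bot_le
  have hk1 : (1 : ℝ) ≤ (k : ℝ) := by exact_mod_cast hk
  have hk0 : (0 : ℝ) < (k : ℝ) := by linarith
  set r : ℝ := (k : ℝ) ^ (-τ) / k with hr
  have hr0 : 0 ≤ r := by positivity
  set S : Finset (Fin n → ℤ) := Fintype.piFinset fun _ : Fin n => Finset.Icc (-((k * R + 1 : ℕ) : ℤ)) ((k * R + 1 : ℕ) : ℤ) with hS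
  have hsub : W (n := n) τ R k ⊆ ⋃ z ∈ S, Metric.ball ((k : ℝ)⁻¹ • zv z) r := by
    rintro h ⟨-, hR, z, hz⟩
    have hp : (k : ℝ) ^ (-τ) ≤ 1 := by
      rw [Real.rpow_neg hk0.le]
      exact inv_le_one_of_one_le₀ (Real.one_le_rpow hk1 hτ.le)
    have hmem : z ∈ S := by
      refine mem_box (v := (k : ℝ) • h) (r := 1) ?_ (hz.le.trans hp)
      rw [norm_smul, Real.norm_of_nonneg hk0.le]
      push_cast
      have := mul_le_mul_of_nonneg_left hR hk0.le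
      linarith
    refine Set.mem_biUnion hmem ?_
    rw [Metric.mem_ball, dist_eq_norm]
    have e : h - (k : ℝ)⁻¹ • zv z = -((k : ℝ)⁻¹ • (zv z - (k : ℝ) • h)) := by
      rw [smul_sub, smul_smul, inv_mul_cancel₀ hk0.ne', one_smul]
      abel
    rw [e, norm_neg, norm_smul, norm_inv, Real.norm_of_nonneg hk0.le, hr, div_eq_inv_mul]
    exact mul_lt_mul_of_pos_left hz (inv_pos.2 hk0)
  refine (measure_mono hsub).trans ((measure_biUnion_finset_le _ _).trans ?_)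
  have hball : ∀ z : Fin n → ℤ, volume (Metric.ball ((k : ℝ)⁻¹ • zv z) r) =
      ENNReal.ofReal (r ^ n) * volume (Metric.ball (0 : E n) 1) := by
    intro z
    rw [Measure.addHaar_ball _ _ hr0, finrank_euclideanSpace_fin]
  rw [Finset.sum_congr rfl fun z _ => hball z, Finset.sum_const, nsmul_eq_mul, ← mul_assoc]
  refine mul_le_mul' ?_ (le_refl _)
  have hcard : (S.card : ℝ) ≤ ((2 * (R : ℝ) + 3) * k) ^ n := by
    rw [hS, Fintype.card_piFinset_const, Int.card_Icc]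
    push_cast
    refine pow_le_pow_left₀ (by positivity) ?_ n
    have h1 : ((((k * R + 1 : ℕ) : ℤ) + 1 - -((k * R + 1 : ℕ) : ℤ)).toNat : ℝ) = 2 * (k * R + 1) + 1 := by
      have h2 : (((k * R + 1 : ℕ) : ℤ) + 1 - -((k * R + 1 : ℕ) : ℤ)).toNat = 2 * (k * R + 1) + 1 := by omega
      rw [h2]
      push_cast
      ring
    push_cast at h1
    rw [h1]
    nlinarith
  rw [← ENNReal.ofReal_natCast, ← ENNReal.ofReal_mul (by positivity)]
  refine ENNReal.ofReal_le_ofReal ?_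
  have hrn : r ^ n = ((k : ℝ) ^ n)⁻¹ * (k : ℝ) ^ (-((n : ℝ) * τ)) := by
    rw [hr, div_pow, div_eq_inv_mul]
    congr 1
    rw [← Real.rpow_natCast, ← Real.rpow_mul hk0.le]
    congr 1
    ring
  rw [hrn]
  calc (S.card : ℝ) * (((k : ℝ) ^ n)⁻¹ * (k : ℝ) ^ (-((n : ℝ) * τ)))
      ≤ ((2 * (R : ℝ) + 3) * k) ^ n * (((k : ℝ) ^ n)⁻¹ * (k : ℝ) ^ (-((n : ℝ) * τ))) :=
        mul_le_mul_of_nonneg_right hcard (by positivity)
    _ = (2 * (R : ℝ) + 3) ^ n * (k : ℝ) ^ (-((n : ℝ) * τ)) := by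
        rw [mul_pow]
        have : (k : ℝ) ^ n ≠ 0 := by positivity
        field_simp

theorem ae_dioph (hn : 0 < n) {τ : ℝ} (hτ : 1 / (n : ℝ) < τ) :
    ∀ᵐ h : E n, ∃ γ : ℝ, 0 < γ ∧ ∀ k : ℕ, 0 < k → ∀ z : Fin n → ℤ,
      γ * (k : ℝ) ^ (-τ) ≤ ‖zv z - (k : ℝ) • h‖ := by
  have hnr : (0 : ℝ) < (n : ℝ) := by exact_mod_cast hn
  have hτ0 : 0 < τ := lt_trans (by positivity) hτ
  have hnτ : 1 < (n : ℝ) * τ := by
    rw [div_lt_iff₀ hnr] at hτ
    linarith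
  -- Borel-Cantelli
  have h1 : ∀ R : ℕ, ∀ᵐ h : E n, ∀ᶠ k : ℕ in atTop, h ∉ W (n := n) τ R k := by
    intro R
    refine ae_eventually_notMem ?_
    have hs : Summable fun k : ℕ => (2 * (R : ℝ) + 3) ^ n * (k : ℝ) ^ (-((n : ℝ) * τ)) :=
      (Real.summable_nat_rpow.2 (by linarith)).mul_left _
    have h2 : ∑' k : ℕ, ENNReal.ofReal ((2 * (R : ℝ) + 3) ^ n * (k : ℝ) ^ (-((n : ℝ) * τ))) *
        volume (Metric.ball (0 : E n) 1) ≠ ⊤ := by
      rw [ENNReal.tsum_mul_right]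
      exact ENNReal.mul_ne_top hs.tsum_ofReal_ne_top measure_ball_lt_top.ne
    exact ne_top_of_le_ne_top h2 (ENNReal.tsum_le_tsum fun k => vol_W hn hτ0 R k)
  -- no integer vector is a multiple
  have h2 : ∀ᵐ h : E n, ∀ k : ℕ, 0 < k → ∀ z : Fin n → ℤ, zv z ≠ (k : ℝ) • h := by
    have hne : Nonempty (Fin n) := ⟨⟨0, hn⟩⟩
    have hnt : Nontrivial (E n) := inferInstance
    rw [ae_all_iff]
    intro k
    by_cases hk : 0 < k
    · have hk0 : (k : ℝ) ≠ 0 := by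
        have : k ≠ 0 := by omega
        exact_mod_cast this
      have h3 : ∀ᵐ h : E n, ∀ z : Fin n → ℤ, zv z ≠ (k : ℝ) • h := by
        rw [ae_all_iff]
        intro z
        have h4 : ∀ᵐ h : E n, h ≠ (k : ℝ)⁻¹ • zv z := by
          rw [ae_iff]
          have : {a : E n | ¬a ≠ (k : ℝ)⁻¹ • zv z} = {(k : ℝ)⁻¹ • zv z} := by
            ext a
            simp
          rw [this]
          exact measure_singleton _
        filter_upwards [h4] with h hh he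
        apply hh
        rw [he, smul_smul, inv_mul_cancel₀ hk0, one_smul]
      filter_upwards [h3] with h hh _
      exact hh
    · filter_upwards with h hh
      exact absurd hh hk
  filter_upwards [ae_all_iff.2 h1, h2] with h hW hne
  obtain ⟨R, hR⟩ := exists_nat_ge ‖h‖
  obtain ⟨K, hK⟩ := eventually_atTop.1 (hW R)
  -- the finitely many remaining `k`
  have h3 : ∀ k : ℕ, ∃ c : ℝ, 0 < c ∧ c ≤ 1 ∧ (0 < k → ∀ z : Fin n → ℤ, c ≤ ‖zv z - (k : ℝ) • h‖) := by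
    intro k
    by_cases hk : 0 < k
    · obtain ⟨c, hc, hc1, hh⟩ := one_k ((k : ℝ) • h) (hne k hk)
      exact ⟨c, hc, hc1, fun _ => hh⟩
    · exact ⟨1, one_pos, le_refl _, fun hh => absurd hh hk⟩
  choose c hc hc1 hcz using h3
  obtain ⟨γ, hγ, hγ1, hγc⟩ := exists_pos_le (Finset.range K) c (fun i _ => hc i)
  refine ⟨γ, hγ, fun k hk z => ?_⟩
  have hk1 : (1 : ℝ) ≤ (k : ℝ) := by exact_mod_cast hk
  have hk0 : (0 : ℝ) < (k : ℝ) := by linarith
  have hp : (k : ℝ) ^ (-τ) ≤ 1 := by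
    rw [Real.rpow_neg hk0.le]
    exact inv_le_one_of_one_le₀ (Real.one_le_rpow hk1 hτ0.le)
  have hp0 : 0 ≤ (k : ℝ) ^ (-τ) := by positivity
  by_cases hkK : k < K
  · calc γ * (k : ℝ) ^ (-τ) ≤ γ * 1 := mul_le_mul_of_nonneg_left hp hγ.le
      _ = γ := mul_one γ
      _ ≤ c k := hγc k (Finset.mem_range.2 hkK)
      _ ≤ ‖zv z - (k : ℝ) • h‖ := hcz k hk z
  · have h4 := hK k (not_lt.1 hkK)
    have h5 : (k : ℝ) ^ (-τ) ≤ ‖zv z - (k : ℝ) • h‖ := by
      by_contra hcon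
      exact h4 ⟨hk, hR, z, not_le.1 hcon⟩
    calc γ * (k : ℝ) ^ (-τ) ≤ 1 * (k : ℝ) ^ (-τ) := mul_le_mul_of_nonneg_right hγ1 hp0
      _ = (k : ℝ) ^ (-τ) := one_mul _
      _ ≤ _ := h5

end Pool.Agent.H68.HD
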