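import Pool.Agent.H68.HD.Base

/-!
# Module Grd: the gradient of a strictly convex C² function
`quad_upper`: Taylor; `fderiv ℝ A` is `C¹`, its derivative is bounded on the compact ball `closedBall c 1`, so
`‖fderiv A (c + q) - fderiv A c‖ ≤ B ‖q‖` there and `A (c+p) - A c - fderiv A c p ≤ B ‖p‖²` (mean value inequality on the
convex ball for `q ↦ A (c + q) - fderiv A c q`). `gradient A c = (toDual).symm (fderiv ℝ A c)`, `⟪gradient A c, p⟫ = fderiv ℝ A c p`.
`ae_gradient`: `G = gradient A` is `C¹` with the derivative `D(c) = toDual.symm ∘L fderiv ℝ (fderiv ℝ A) c`, `⟪D(c) p, p⟫ > 0` for `p ≠ 0`, so `det D(c) ≠ 0`;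
`G` is injective (`t ↦ ⟪G (x + t (y - x)), y - x⟫` is strictly increasing). For a measurable null set `N`, `s = G ⁻¹' N` is measurable and
`∫⁻ s |det D| = volume (G '' s) ≤ volume N = 0` (`MeasureTheory.lintegral_abs_det_fderiv_eq_addHaar_image`), so `volume s = 0`.
-/

set_option autoImplicit false

open MeasureTheory Filter
open scoped RealInnerProductSpace

namespace Pool.Agent.H68.HD

open Pool.Agent.H33.AM (E Tor pr IsPeriodic)

variable {n : ℕ}

private theorem inner_gradient (A : E n → ℝ) (c p : E n) : ⟪gradient A c, p⟫ = fderiv ℝ A c p := by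
  unfold gradient
  exact InnerProductSpace.toDual_symm_apply

/-- `fderiv ℝ A` is Lipschitz near `c`. -/
private theorem fderiv_lip {A : E n → ℝ} (hA : ContDiff ℝ 2 A) (c : E n) :
    ∃ B : ℝ, 0 < B ∧ ∀ y ∈ Metric.closedBall c 1, ‖fderiv ℝ A y - fderiv ℝ A c‖ ≤ B * ‖y - c‖ := by
  have h1 : ContDiff ℝ 1 (fderiv ℝ A) := hA.fderiv_right (by norm_num)
  have h2 : Continuous (fderiv ℝ (fderiv ℝ A)) := h1.continuous_fderiv one_ne_zero
  have h3 : Continuous fun x => ‖fderiv ℝ (fderiv ℝ A) x‖ :=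
    (continuous_norm (E := E n →L[ℝ] E n →L[ℝ] ℝ)).comp h2
  obtain ⟨B, hB'⟩ := (isCompact_closedBall c 1).bddAbove_image h3.continuousOn
  have hB : ∀ x ∈ Metric.closedBall c 1, ‖fderiv ℝ (fderiv ℝ A) x‖ ≤ B :=
    fun x hx => hB' (Set.mem_image_of_mem _ hx)
  refine ⟨max B 1, lt_max_of_lt_right one_pos, fun y hy => ?_⟩
  exact (convex_closedBall c 1).norm_image_sub_le_of_norm_fderiv_le (𝕜 := ℝ)
    (fun x _ => (h1.differentiable one_ne_zero).differentiableAt)
    (fun x hx => (hB x hx).trans (le_max_left _ _)) (Metric.mem_closedBall_self zero_le_one) hy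

theorem quad_upper {A : E n → ℝ} (hA : ContDiff ℝ 2 A) (c : E n) :
    ∃ K' : ℝ, 0 < K' ∧ ∀ p : E n, ‖p‖ ≤ 1 → A (c + p) - A c ≤ ⟪gradient A c, p⟫ + K' * ‖p‖ ^ 2 := by
  obtain ⟨B, hB0, hB⟩ := fderiv_lip hA c
  refine ⟨B, hB0, fun p hp => ?_⟩
  have hsub : Metric.closedBall c ‖p‖ ⊆ Metric.closedBall c 1 := Metric.closedBall_subset_closedBall hp
  have hd : Differentiable ℝ A := hA.differentiable two_ne_zero
  have h := (convex_closedBall c ‖p‖).norm_image_sub_le_of_norm_fderiv_le' (𝕜 := ℝ) (f := A)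
    (φ := fderiv ℝ A c) (C := B * ‖p‖) (x := c) (y := c + p)
    (fun x _ => hd.differentiableAt)
    (fun x hx => by
      refine (hB x (hsub hx)).trans (mul_le_mul_of_nonneg_left ?_ hB0.le)
      rw [Metric.mem_closedBall, dist_eq_norm] at hx
      exact hx)
    (Metric.mem_closedBall_self (norm_nonneg p))
    (by rw [Metric.mem_closedBall, dist_eq_norm, add_sub_cancel_left])
  rw [add_sub_cancel_left, Real.norm_eq_abs] at h
  have h2 := (abs_le.1 h).2
  rw [inner_gradient]
  nlinarith

/-- The inverse Riesz map as a continuous real linear map. -/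
private noncomputable def J (n : ℕ) : StrongDual ℝ (E n) →L[ℝ] E n :=
  LinearMap.mkContinuous
    { toFun := fun φ => (InnerProductSpace.toDual ℝ (E n)).symm φ
      map_add' := fun φ ψ => map_add _ φ ψ
      map_smul' := fun r φ => by
        rw [map_smulₛₗ]
        rfl } 1 (fun φ => by
    rw [one_mul]
    exact (LinearIsometryEquiv.norm_map _ φ).le)

private theorem J_apply (φ : StrongDual ℝ (E n)) : J n φ = (InnerProductSpace.toDual ℝ (E n)).symm φ :=
  rfl

private theorem inner_J (φ : StrongDual ℝ (E n)) (p : E n) : ⟪J n φ, p⟫ = φ p := by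
  rw [J_apply]
  exact InnerProductSpace.toDual_symm_apply

private theorem hasFDerivAt_gradient {A : E n → ℝ} (hA : ContDiff ℝ 2 A) (c : E n) :
    HasFDerivAt (gradient A) ((J n).comp (fderiv ℝ (fderiv ℝ A) c)) c := by
  have h1 : ContDiff ℝ 1 (fderiv ℝ A) := hA.fderiv_right (by norm_num)
  have h2 : HasFDerivAt (fderiv ℝ A) (fderiv ℝ (fderiv ℝ A) c) c :=
    ((h1.differentiable one_ne_zero).differentiableAt).hasFDerivAt
  exact (J n).hasFDerivAt.comp c h2

private theorem gradient_injective {A : E n → ℝ} (hA : ContDiff ℝ 2 A)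
    (hpos : ∀ c p, p ≠ 0 → 0 < fderiv ℝ (fderiv ℝ A) c p p) : Function.Injective (gradient A) := by
  intro x y hxy
  by_contra hne
  set v : E n := y - x with hv
  have hv0 : v ≠ 0 := sub_ne_zero.2 (Ne.symm hne)
  have h1 : ContDiff ℝ 1 (fderiv ℝ A) := hA.fderiv_right (by norm_num)
  have hder : ∀ t : ℝ, HasDerivAt (fun t : ℝ => fderiv ℝ A (x + t • v) v)
      (fderiv ℝ (fderiv ℝ A) (x + t • v) v v) t := by
    intro t
    have h2 : HasFDerivAt (fderiv ℝ A) (fderiv ℝ (fderiv ℝ A) (x + t • v)) (x + t • v) :=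
      ((h1.differentiable one_ne_zero).differentiableAt).hasFDerivAt
    have h3 : HasDerivAt (fun t : ℝ => x + t • v) v t := by
      have h4 := ((hasDerivAt_id t).smul_const v).const_add x
      rw [one_smul] at h4
      exact h4
    have h5 := h2.comp_hasDerivAt t h3
    have h6 := h5.clm_apply (hasDerivAt_const t v)
    rw [map_zero, add_zero] at h6
    exact h6
  have hmono : StrictMono (fun t : ℝ => fderiv ℝ A (x + t • v) v) :=
    strictMono_of_deriv_pos fun t => by
      rw [(hder t).deriv]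
      exact hpos _ _ hv0
  have h7 := hmono (zero_lt_one' ℝ)
  have h8 : x + (0 : ℝ) • v = x := by rw [zero_smul, add_zero]
  have h9 : x + (1 : ℝ) • v = y := by rw [one_smul, hv, add_sub_cancel]
  have h10 : fderiv ℝ A (x + (0 : ℝ) • v) v < fderiv ℝ A (x + (1 : ℝ) • v) v := h7
  rw [h8, h9, ← inner_gradient, ← inner_gradient, hxy] at h10
  exact lt_irrefl _ h10

theorem ae_gradient {A : E n → ℝ} (hA : ContDiff ℝ 2 A)
    (hpos : ∀ c p, p ≠ 0 → 0 < fderiv ℝ (fderiv ℝ A) c p p) {P : E n → Prop}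
    (hP : ∀ᵐ h : E n, P h) : ∀ᵐ c : E n, P (gradient A c) := by
  have hcont : Continuous (gradient A) :=
    continuous_iff_continuousAt.2 fun c => (hasFDerivAt_gradient hA c).continuousAt
  set N : Set (E n) := toMeasurable volume {h | ¬ P h} with hN
  have hN0 : volume N = 0 := by
    rw [hN, measure_toMeasurable]
    exact ae_iff.1 hP
  have hNm : MeasurableSet N := measurableSet_toMeasurable _ _
  set s : Set (E n) := gradient A ⁻¹' N with hs
  have hsm : MeasurableSet s := hcont.measurable hNm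
  have h1 := lintegral_abs_det_fderiv_eq_addHaar_image (volume : Measure (E n)) hsm
    (f' := fun c => (J n).comp (fderiv ℝ (fderiv ℝ A) c))
    (fun x _ => (hasFDerivAt_gradient hA x).hasFDerivWithinAt)
    ((gradient_injective hA hpos).injOn)
  have h2 : volume (gradient A '' s) = 0 :=
    measure_mono_null (Set.image_preimage_subset _ _) hN0
  rw [h2] at h1
  have hdet : ∀ c, ((J n).comp (fderiv ℝ (fderiv ℝ A) c)).det ≠ 0 := by
    intro c h0
    have h3 : LinearMap.det (((J n).comp (fderiv ℝ (fderiv ℝ A) c) : E n →L[ℝ] E n) : E n →ₗ[ℝ] E n) = 0 := h0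
    have h4 := LinearMap.bot_lt_ker_of_det_eq_zero h3
    obtain ⟨p, hp, hp0⟩ := (Submodule.ne_bot_iff _).1 h4.ne'
    rw [LinearMap.mem_ker] at hp
    have h5 : ((J n).comp (fderiv ℝ (fderiv ℝ A) c)) p = 0 := hp
    have h6 := hpos c p hp0
    rw [← inner_J (fderiv ℝ (fderiv ℝ A) c p) p] at h6
    have h7 : J n (fderiv ℝ (fderiv ℝ A) c p) = 0 := h5
    rw [h7, inner_zero_left] at h6
    exact lt_irrefl _ h6
  have hDc : Continuous fun c => ((J n).comp (fderiv ℝ (fderiv ℝ A) c)).det := by
    have h3 : ContDiff ℝ 1 (fderiv ℝ A) := hA.fderiv_right (by norm_num)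
    have h4 : Continuous (fderiv ℝ (fderiv ℝ A)) := h3.continuous_fderiv one_ne_zero
    exact ContinuousLinearMap.continuous_det.comp (continuous_const.clm_comp h4)
  have hmeas : Measurable fun c => ENNReal.ofReal |((J n).comp (fderiv ℝ (fderiv ℝ A) c)).det| :=
    (continuous_abs.comp hDc).measurable.ennreal_ofReal
  rw [lintegral_eq_zero_iff hmeas] at h1
  have hs0 : volume s = 0 := by
    have h3 : ∀ᵐ c ∂(volume.restrict s), False := by
      filter_upwards [h1] with c hc
      have h4 : ENNReal.ofReal |((J n).comp (fderiv ℝ (fderiv ℝ A) c)).det| = 0 := hc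
      rw [ENNReal.ofReal_eq_zero] at h4
      exact (abs_pos.2 (hdet c)).not_ge h4
    have h5 : volume.restrict s = 0 := by
      rw [← Measure.measure_univ_eq_zero]
      have h6 := ae_iff.1 h3
      simpa using h6
    exact Measure.restrict_eq_zero.1 h5
  rw [ae_iff]
  refine measure_mono_null ?_ hs0
  intro c hc
  exact subset_toMeasurable _ _ hc

end Pool.Agent.H68.HD
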