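import Pool.Agent.H68.HD.Base
import Pool.Agent.H68.HD.Cov

/-!
# Module Hau: the Hausdorff dimension
`Y = closure (range fun i => pr (y i))` is compact. Show `μH[s] Y ≠ 0` with `hausdorffMeasure_apply` (for the radius `r = r₀` small, e.g.
`√n (3 r₀) ≤ 1`): for a countable cover `t m` of `Y` with diameters `≤ r₀` and any `δ > 0` replace the nonempty `t m` by the open
thickenings `U m` with `d m = (diam (t m)).toReal + δ_m`, `0 < δ_m`, `(√n d m)^s ≤ (√n diam)^s + δ 2^(-m)` (continuity of `x^s`),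
a finite subcover by compactness and `finite_cover` give `c₁ ≤ (√n)^s ∑ diam^s + 2 δ` (if the sum is finite). So the infimum is
`≥ c₁/(√n)^s > 0` (`n = 0` cannot occur: then `‖y i + zv z - y j‖ = 0` and `h` fails for `i = 0`, `j = 1`, `z = 0`).
Then `le_dimH_of_hausdorffMeasure_ne_zero`.
-/

set_option autoImplicit false

open MeasureTheory Filter
open scoped RealInnerProductSpace

namespace Pool.Agent.H68.HD

open Pool.Agent.H33.AM (E Tor pr IsPeriodic)

variable {n : ℕ}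

/-- A small enlargement of the diameter changes its power only a little. -/
private theorem exists_eps {A D s r δ : ℝ} (hs : 0 < s) (hr : 0 < r) (hδ : 0 < δ) :
    ∃ ε : ℝ, 0 < ε ∧ ε ≤ r ∧ (A * (D + ε)) ^ s ≤ (A * D) ^ s + δ := by
  have h1 : Continuous fun x : ℝ => (A * (D + x)) ^ s :=
    Continuous.rpow_const (continuous_const.mul (continuous_const.add continuous_id))
      fun _ => Or.inr hs.le
  have h2 : Tendsto (fun x : ℝ => (A * (D + x)) ^ s) (nhds 0) (nhds ((A * (D + 0)) ^ s)) :=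
    h1.tendsto 0
  rw [add_zero] at h2
  have h3 : ∀ᶠ x in nhds (0 : ℝ), (A * (D + x)) ^ s < (A * D) ^ s + δ :=
    h2.eventually (gt_mem_nhds (by linarith))
  obtain ⟨η, hη, h4⟩ := Metric.eventually_nhds_iff.1 h3
  refine ⟨min (η / 2) r, lt_min (by linarith) hr, min_le_right _ _, ?_⟩
  have h5 : 0 < min (η / 2) r := lt_min (by linarith) hr
  have h6 : min (η / 2) r ≤ η / 2 := min_le_left _ _
  refine (h4 ?_).le
  rw [Real.dist_eq, sub_zero, abs_of_pos h5]
  linarith

private theorem cover_sum {y : ℕ → E n} {s c₁ : ℝ} (hs : 0 < s) (hc : 0 < c₁)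
    (h : ∀ i j z, i < j → ‖y i + zv z - y j‖ ≤ 1 →
      c₁ ≤ ((j - i : ℕ) : ℝ) * ‖y i + zv z - y j‖ ^ s) {r₀ : ℝ} (hr : 0 < r₀)
    (hr1 : Real.sqrt n * (2 * r₀) ≤ 1) (t : ℕ → Set (Tor n))
    (ht : closure (Set.range fun i => pr (y i)) ⊆ ⋃ m, t m)
    (hd : ∀ m, Metric.ediam (t m) ≤ ENNReal.ofReal r₀)
    (hfin : (∑' m, ⨆ _ : (t m).Nonempty, Metric.ediam (t m) ^ s) ≠ ⊤) {δ : ℝ} (hδ : 0 < δ) :
    c₁ ≤ Real.sqrt n ^ s * (∑' m, ⨆ _ : (t m).Nonempty, Metric.ediam (t m) ^ s).toReal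
      + 2 * δ := by
  classical
  have hA : 0 ≤ Real.sqrt n := Real.sqrt_nonneg _
  have hnt : ∀ m, Metric.ediam (t m) ≠ ⊤ := fun m =>
    ne_top_of_le_ne_top ENNReal.ofReal_ne_top (hd m)
  have hD0 : ∀ m, 0 ≤ (Metric.ediam (t m)).toReal := fun m => ENNReal.toReal_nonneg
  have hDr : ∀ m, (Metric.ediam (t m)).toReal ≤ r₀ := fun m =>
    ENNReal.toReal_le_of_le_ofReal hr.le (hd m)
  have hex : ∀ m : ℕ, ∃ ε : ℝ, 0 < ε ∧ ε ≤ r₀ ∧
      (Real.sqrt n * ((Metric.ediam (t m)).toReal + ε)) ^ s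
        ≤ (Real.sqrt n * (Metric.ediam (t m)).toReal) ^ s + δ * (1 / 2) ^ m := fun m =>
    exists_eps hs hr (by positivity)
  choose ε hε0 hεr hεs using hex
  have hcomp : IsCompact (closure (Set.range fun i => pr (y i))) := isClosed_closure.isCompact
  have hcov : closure (Set.range fun i => pr (y i))
      ⊆ ⋃ m, Metric.thickening (ε m / 2) (t m) :=
    ht.trans (Set.iUnion_mono fun m => Metric.self_subset_thickening (half_pos (hε0 m)) _)
  obtain ⟨J₀, hJ₀⟩ := hcomp.elim_finite_subcover (fun m => Metric.thickening (ε m / 2) (t m))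
    (fun m => Metric.isOpen_thickening) hcov
  have h1 : c₁ ≤ ∑ j ∈ J₀.filter (fun m => (t m).Nonempty),
      (Real.sqrt n * ((Metric.ediam (t j)).toReal + ε j)) ^ s := by
    refine finite_cover hs hc h (J₀.filter (fun m => (t m).Nonempty))
      (fun m => Metric.thickening (ε m / 2) (t m))
      (fun j => (Metric.ediam (t j)).toReal + ε j) ?_ ?_ ?_
    · intro j _
      refine ⟨add_pos_of_nonneg_of_pos (hD0 j) (hε0 j), ?_⟩
      refine le_trans (mul_le_mul_of_nonneg_left ?_ hA) hr1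
      linarith [hDr j, hεr j]
    · intro j _ p hp q hq
      obtain ⟨p', hp', h2⟩ := Metric.mem_thickening_iff.1 hp
      obtain ⟨q', hq', h3⟩ := Metric.mem_thickening_iff.1 hq
      have h4 : dist p' q' ≤ (Metric.ediam (t j)).toReal := by
        rw [dist_edist]
        exact ENNReal.toReal_mono (hnt j) (Metric.edist_le_ediam_of_mem hp' hq')
      have h5 : dist p q ≤ dist p p' + dist p' q' + dist q' q := dist_triangle4 _ _ _ _
      rw [dist_comm q' q] at h5
      linarith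
    · intro i
      have h2 : pr (y i) ∈ ⋃ m ∈ J₀, Metric.thickening (ε m / 2) (t m) :=
        hJ₀ (subset_closure ⟨i, rfl⟩)
      simp only [Set.mem_iUnion] at h2
      obtain ⟨m, hm, h3⟩ := h2
      obtain ⟨p, hp, _⟩ := Metric.mem_thickening_iff.1 h3
      exact ⟨m, Finset.mem_filter.2 ⟨hm, ⟨p, hp⟩⟩, h3⟩
  have h2 : ∑ j ∈ J₀.filter (fun m => (t m).Nonempty),
      (Real.sqrt n * ((Metric.ediam (t j)).toReal + ε j)) ^ s
      ≤ ∑ j ∈ J₀.filter (fun m => (t m).Nonempty),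
        (Real.sqrt n ^ s * (Metric.ediam (t j)).toReal ^ s + δ * (1 / 2) ^ j) := by
    refine Finset.sum_le_sum fun j _ => ?_
    rw [← Real.mul_rpow hA (hD0 j)]
    exact hεs j
  have h3 : ∑ j ∈ J₀.filter (fun m => (t m).Nonempty), δ * (1 / 2 : ℝ) ^ j ≤ 2 * δ := by
    rw [← Finset.mul_sum]
    have h4 : ∑ j ∈ J₀.filter (fun m => (t m).Nonempty), (1 / 2 : ℝ) ^ j ≤ 2 :=
      (Summable.sum_le_tsum _ (fun i _ => by positivity) summable_geometric_two).trans_eq
        tsum_geometric_two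
    nlinarith
  have h4 : ∑ j ∈ J₀.filter (fun m => (t m).Nonempty), (Metric.ediam (t j)).toReal ^ s
      ≤ (∑' m, ⨆ _ : (t m).Nonempty, Metric.ediam (t m) ^ s).toReal := by
    rw [← ENNReal.ofReal_le_iff_le_toReal hfin,
      ENNReal.ofReal_sum_of_nonneg fun j _ => Real.rpow_nonneg (hD0 j) s]
    calc ∑ j ∈ J₀.filter (fun m => (t m).Nonempty),
          ENNReal.ofReal ((Metric.ediam (t j)).toReal ^ s)
        = ∑ j ∈ J₀.filter (fun m => (t m).Nonempty),
          ⨆ _ : (t j).Nonempty, Metric.ediam (t j) ^ s := by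
          refine Finset.sum_congr rfl fun j hj => ?_
          rw [iSup_pos (Finset.mem_filter.1 hj).2,
            ← ENNReal.ofReal_rpow_of_nonneg (hD0 j) hs.le, ENNReal.ofReal_toReal (hnt j)]
      _ ≤ ∑' m, ⨆ _ : (t m).Nonempty, Metric.ediam (t m) ^ s := ENNReal.sum_le_tsum _
  rw [Finset.sum_add_distrib, ← Finset.mul_sum] at h2
  have h5 : 0 ≤ Real.sqrt n ^ s := Real.rpow_nonneg hA s
  have h6 := mul_le_mul_of_nonneg_left h4 h5
  linarith

theorem dimH_ge {y : ℕ → E n} {s c₁ : ℝ} (hs : 0 < s) (hc : 0 < c₁)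
    (h : ∀ i j z, i < j → ‖y i + zv z - y j‖ ≤ 1 →
      c₁ ≤ ((j - i : ℕ) : ℝ) * ‖y i + zv z - y j‖ ^ s) :
    ENNReal.ofReal s ≤ dimH (closure (Set.range fun i => pr (y i))) := by
  have hn : n ≠ 0 := by
    rintro rfl
    have h1 := h 0 1 0 (by norm_num)
    have h2 : y 0 + zv 0 - y 1 = 0 := Subsingleton.elim _ _
    rw [h2, norm_zero, Real.zero_rpow hs.ne', mul_zero] at h1
    exact absurd (h1 zero_le_one) (not_le.2 hc)
  have hA : 0 < Real.sqrt n := Real.sqrt_pos.2 (by exact_mod_cast Nat.pos_of_ne_zero hn)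
  have hr : 0 < 1 / (2 * Real.sqrt n) := by positivity
  have hr1 : Real.sqrt n * (2 * (1 / (2 * Real.sqrt n))) ≤ 1 := by
    have h1 : Real.sqrt n * (2 * (1 / (2 * Real.sqrt n))) = 1 := by
      field_simp
    rw [h1]
  have hAs : 0 < Real.sqrt n ^ s := Real.rpow_pos_of_pos hA s
  have hmain : ENNReal.ofReal (c₁ / Real.sqrt n ^ s)
      ≤ μH[s] (closure (Set.range fun i => pr (y i))) := by
    rw [Measure.hausdorffMeasure_apply]
    refine le_iSup₂_of_le (ENNReal.ofReal (1 / (2 * Real.sqrt n))) (ENNReal.ofReal_pos.2 hr) ?_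
    refine le_iInf fun t => le_iInf fun ht => le_iInf fun hd => ?_
    by_cases hfin : (∑' m, ⨆ _ : (t m).Nonempty, Metric.ediam (t m) ^ s) = ⊤
    · rw [hfin]
      exact le_top
    · rw [ENNReal.ofReal_le_iff_le_toReal hfin, div_le_iff₀' hAs]
      refine le_of_forall_pos_le_add fun δ hδ => ?_
      have h1 := cover_sum hs hc h hr hr1 t ht hd hfin (half_pos hδ)
      linarith
  have h2 : μH[((s.toNNReal : NNReal) : ℝ)] (closure (Set.range fun i => pr (y i))) ≠ 0 := by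
    rw [Real.coe_toNNReal s hs.le]
    exact ne_of_gt (lt_of_lt_of_le (ENNReal.ofReal_pos.2 (div_pos hc hAs)) hmain)
  exact le_dimH_of_hausdorffMeasure_ne_zero h2

end Pool.Agent.H68.HD
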