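import Pool.Agent.H68.HD.Base

/-!
# Module Rot: the rotation defect and the return time
Let `w = zv z - k • h`. For `‖p‖ ≤ p₀`: `⟪p, w⟫ ≤ C e² + k K' ‖p‖²`. If `‖w‖ ≤ 2 K' k p₀` take `p = w/(2 K' k)`:
`‖w‖² ≤ 4 C K' k e²`. Otherwise `p = (p₀/‖w‖) w`: `p₀ ‖w‖ ≤ C e² + k K' p₀²` and `‖w‖ > 2 K' k p₀` give `K' p₀² ≤ k K' p₀² < C e²`,
so `e ≥ e₀ := p₀ √(K'/C)` (`C > 0` here) and `k e^s ≥ e₀^s`. In the first case, with `γ k^(-τ) ≤ ‖w‖`: `γ ≤ 2 √(C K') k^(τ + 1/2) e`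
(so `C > 0`, `e > 0`), hence `(γ/(2√(CK')))^s ≤ k e^s`, `s = 2/(1 + 2τ)`, `(τ + 1/2) s = 1`.
-/

set_option autoImplicit false

open MeasureTheory Filter
open scoped RealInnerProductSpace

namespace Pool.Agent.H68.HD

open Pool.Agent.H33.AM (E Tor pr IsPeriodic)

variable {n : ℕ}

theorem return_time {C K' p₀ γ τ : ℝ} (hC : 0 ≤ C) (hp : 0 < p₀) (hK : 0 < K') (hγ : 0 < γ)
    (hτ : 0 ≤ τ) {q : E n → ℝ} {h : E n}
    (hq : ∀ p, ‖p‖ ≤ p₀ → q p ≤ ⟪h, p⟫ + K' * ‖p‖ ^ 2)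
    (hd : ∀ k : ℕ, 0 < k → ∀ z : Fin n → ℤ, γ * (k : ℝ) ^ (-τ) ≤ ‖zv z - (k : ℝ) • h‖) :
    ∃ c₁ : ℝ, 0 < c₁ ∧ ∀ (k : ℕ) (z : Fin n → ℤ) (e : ℝ), 0 < k → 0 ≤ e →
      (∀ p, ⟪p, zv z⟫ - k * q p ≤ C * e ^ 2) → c₁ ≤ k * e ^ (2 / (1 + 2 * τ)) := by
  have hD : 0 < C + 1 := by linarith
  set m : ℝ := min (γ ^ 2 / (4 * K' * (C + 1))) (K' * p₀ ^ 2 / (C + 1)) with hm
  have hm0 : 0 < m := by
    rw [hm]
    exact lt_min (by positivity) (by positivity)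
  have ha : 0 < 1 + 2 * τ := by linarith
  have key : ∀ (k : ℕ) (z : Fin n → ℤ) (e : ℝ), 0 < k → 0 ≤ e →
      (∀ p, ⟪p, zv z⟫ - k * q p ≤ C * e ^ 2) → m ≤ (k : ℝ) ^ (1 + 2 * τ) * e ^ 2 := by
    intro k z e hk he hpe
    have hk0 : (0 : ℝ) < k := by exact_mod_cast hk
    have hk1 : (1 : ℝ) ≤ k := by exact_mod_cast hk
    set w : E n := zv z - (k : ℝ) • h with hw
    have h1 : ∀ p : E n, ‖p‖ ≤ p₀ → ⟪p, w⟫ ≤ (C + 1) * e ^ 2 + k * K' * ‖p‖ ^ 2 := by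
      intro p hpp
      have h2 := hpe p
      have h3 := mul_le_mul_of_nonneg_left (hq p hpp) hk0.le
      have h4 : ⟪p, w⟫ = ⟪p, zv z⟫ - k * ⟪h, p⟫ := by
        rw [hw, inner_sub_right, inner_smul_right, real_inner_comm p h]
      rw [h4]
      nlinarith [sq_nonneg e]
    by_cases hcase : ‖w‖ ≤ 2 * K' * k * p₀
    · have hpos : 0 < 2 * K' * k := by positivity
      have h2 : ‖(1 / (2 * K' * k)) • w‖ = ‖w‖ / (2 * K' * k) := by
        rw [norm_smul, Real.norm_of_nonneg (by positivity)]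
        ring
      have h3 := h1 ((1 / (2 * K' * k)) • w) (by
        rw [h2, div_le_iff₀ hpos]
        linarith)
      rw [h2, real_inner_smul_left, real_inner_self_eq_norm_sq] at h3
      have h4 : ‖w‖ ^ 2 ≤ 4 * K' * k * (C + 1) * e ^ 2 := by
        have h5 : 1 / (2 * K' * k) * ‖w‖ ^ 2 = 2 * (‖w‖ ^ 2 / (4 * K' * k)) := by
          field_simp
          ring
        have h6 : k * K' * (‖w‖ / (2 * K' * k)) ^ 2 = ‖w‖ ^ 2 / (4 * K' * k) := by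
          field_simp
          ring
        rw [h5, h6] at h3
        have h7 : ‖w‖ ^ 2 / (4 * K' * k) ≤ (C + 1) * e ^ 2 := by linarith
        rw [div_le_iff₀ (by positivity)] at h7
        linarith
      have h5 := hd k hk z
      rw [← hw] at h5
      have h6 : (k : ℝ) ^ (-τ) * (k : ℝ) ^ τ = 1 := by
        rw [← Real.rpow_add hk0, neg_add_cancel, Real.rpow_zero]
      have h7 : (0 : ℝ) < (k : ℝ) ^ τ := Real.rpow_pos_of_pos hk0 _
      have h8 : γ ≤ ‖w‖ * (k : ℝ) ^ τ := by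
        have h9 := mul_le_mul_of_nonneg_right h5 h7.le
        rw [mul_assoc, h6, mul_one] at h9
        exact h9
      have h10 : γ ^ 2 ≤ (‖w‖ * (k : ℝ) ^ τ) ^ 2 := pow_le_pow_left₀ hγ.le h8 2
      have h11 : (k : ℝ) ^ (1 + 2 * τ) = k * ((k : ℝ) ^ τ) ^ 2 := by
        rw [Real.rpow_add hk0, Real.rpow_one, mul_comm 2 τ, Real.rpow_mul hk0.le]
        norm_num
      refine (min_le_left _ _).trans ?_
      rw [div_le_iff₀ (by positivity), h11]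
      have h12 : (‖w‖ * (k : ℝ) ^ τ) ^ 2 ≤ 4 * K' * k * (C + 1) * e ^ 2 * ((k : ℝ) ^ τ) ^ 2 := by
        rw [mul_pow]
        exact mul_le_mul_of_nonneg_right h4 (by positivity)
      nlinarith [h10, h12]
    · push Not at hcase
      have hwpos : 0 < ‖w‖ := lt_of_le_of_lt (by positivity) hcase
      have h2 : ‖(p₀ / ‖w‖) • w‖ = p₀ := by
        rw [norm_smul, Real.norm_of_nonneg (by positivity), div_mul_cancel₀ _ hwpos.ne']
      have h3 := h1 ((p₀ / ‖w‖) • w) (le_of_eq h2)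
      rw [h2, real_inner_smul_left, real_inner_self_eq_norm_sq] at h3
      have h4 : p₀ / ‖w‖ * ‖w‖ ^ 2 = p₀ * ‖w‖ := by
        field_simp
      rw [h4] at h3
      have h5 : p₀ * (2 * K' * k * p₀) < p₀ * ‖w‖ := mul_lt_mul_of_pos_left hcase hp
      have h6 : k * K' * p₀ ^ 2 < (C + 1) * e ^ 2 := by nlinarith
      have h7 : K' * p₀ ^ 2 ≤ k * K' * p₀ ^ 2 := by
        have : 0 ≤ K' * p₀ ^ 2 := by positivity
        nlinarith
      refine (min_le_right _ _).trans ?_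
      have h8 : K' * p₀ ^ 2 / (C + 1) ≤ e ^ 2 := by
        rw [div_le_iff₀ hD]
        linarith
      have h9 : 1 ≤ (k : ℝ) ^ (1 + 2 * τ) := Real.one_le_rpow hk1 ha.le
      refine h8.trans ?_
      nlinarith [sq_nonneg e]
  refine ⟨m ^ (1 / (1 + 2 * τ)), Real.rpow_pos_of_pos hm0 _, ?_⟩
  intro k z e hk he hpe
  have hk0 : (0 : ℝ) ≤ k := Nat.cast_nonneg k
  have h1 := Real.rpow_le_rpow hm0.le (key k z e hk he hpe) (show 0 ≤ 1 / (1 + 2 * τ) by positivity)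
  have h2 : ((k : ℝ) ^ (1 + 2 * τ) * e ^ 2) ^ (1 / (1 + 2 * τ)) = k * e ^ (2 / (1 + 2 * τ)) := by
    rw [Real.mul_rpow (Real.rpow_nonneg hk0 _) (sq_nonneg e), ← Real.rpow_mul hk0,
      mul_one_div_cancel ha.ne', Real.rpow_one, ← Real.rpow_natCast e 2, ← Real.rpow_mul he]
    congr 2
    push_cast
    ring
  rw [h2] at h1
  exact h1

end Pool.Agent.H68.HD
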