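import Pool.Agent.H68.HD.Base
import Pool.Agent.H68.HD.AC2

/-!
# Module S1: periodicity, lower and upper bound of the action potential
`acts_nonempty`, `Sp_ub`: the segment `γ t = x + t (y - x)` has a bounded continuous integrand; `L` is
bounded on `E × closedBall 0 R × ℝ` by continuity and periodicity (`exists_near` for `x`, `Int.fract` for `t`,
compactness). `acts_bdd`, `Sp_lb`: `crv_lb`, `crv_jensen`. `Sp_per`: translate the curves by `zv z`
(the two sets `acts` are equal).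
-/

set_option autoImplicit false

open MeasureTheory Filter
open scoped RealInnerProductSpace

namespace Pool.Agent.H68.HD

open Pool.Agent.H33.AM (E Tor pr IsPeriodic)

variable {n : ℕ}

private theorem seg_deriv (x y : E n) (t : ℝ) :
    deriv (fun t : ℝ => x + t • (y - x)) t = y - x := by
  have h : HasDerivAt (fun t : ℝ => x + t • (y - x)) ((1 : ℝ) • (y - x)) t :=
    ((hasDerivAt_id t).smul_const (y - x)).const_add x
  rw [h.deriv, one_smul]

private theorem seg_ac (x y : E n) (a b : ℝ) :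
    AbsolutelyContinuousOnInterval (fun t : ℝ => x + t • (y - x)) a b := by
  have h : LipschitzWith ‖y - x‖₊ (fun t : ℝ => x + t • (y - x)) := by
    apply LipschitzWith.of_dist_le_mul
    intro s t
    rw [dist_eq_norm, dist_eq_norm]
    have h1 : x + s • (y - x) - (x + t • (y - x)) = (s - t) • (y - x) := by
      rw [sub_smul]; abel
    rw [h1, norm_smul, coe_nnnorm, mul_comm]
  exact (h.lipschitzOnWith (s := Set.uIcc a b)).absolutelyContinuousOnInterval

private theorem seg_cont {L : E n → E n → ℝ → ℝ} {κ K : ℝ} (hL : Growth L κ K) (c : E n) (e : ℝ)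
    (x y : E n) : Continuous fun t : ℝ => L (x + t • (y - x)) (y - x) t - ⟪c, y - x⟫ + e := by
  have h1 : Continuous fun t : ℝ => ((x + t • (y - x), y - x, t) : E n × E n × ℝ) := by
    fun_prop
  have h2 := hL.cont.comp h1
  exact (h2.sub continuous_const).add continuous_const

private theorem seg_crv {L : E n → E n → ℝ → ℝ} {κ K : ℝ} (hL : Growth L κ K) (c : E n) (e : ℝ)
    (x y : E n) : Crv L c e 1 (fun t : ℝ => x + t • (y - x))
      (∫ t in (0 : ℝ)..1, (L (x + t • (y - x)) (y - x) t - ⟪c, y - x⟫ + e)) := by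
  refine ⟨seg_ac x y _ _, ?_, ?_⟩
  · simp only [seg_deriv]
    exact (seg_cont hL c e x y).intervalIntegrable _ _
  · simp only [seg_deriv, Nat.cast_one]

private theorem seg_mem {L : E n → E n → ℝ → ℝ} {κ K : ℝ} (hL : Growth L κ K) (c : E n) (e : ℝ)
    (x y : E n) :
      (∫ t in (0 : ℝ)..1, (L (x + t • (y - x)) (y - x) t - ⟪c, y - x⟫ + e)) ∈ acts L c e x y :=
  ⟨_, seg_crv hL c e x y, by simp, by simp⟩

theorem acts_nonempty {L : E n → E n → ℝ → ℝ} {κ K : ℝ} (hL : Growth L κ K) (c : E n) (e : ℝ)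
    (x y : E n) : (acts L c e x y).Nonempty :=
  ⟨_, seg_mem hL c e x y⟩

theorem acts_ge {L : E n → E n → ℝ → ℝ} {κ K : ℝ} (hL : Growth L κ K) (c : E n) (e : ℝ)
    (x y : E n) {r : ℝ} (hr : r ∈ acts L c e x y) :
    κ / 2 * ‖y - x‖ ^ 2 - (K + ‖c‖ ^ 2 / (2 * κ) - e) ≤ r := by
  obtain ⟨γ, hγ, h0, h1⟩ := hr
  obtain ⟨hi, hle⟩ := crv_lb hL hγ
  have hac := hγ.ac
  rw [Nat.cast_one] at hi hle hac
  have hj := crv_jensen hac hi
  rw [h0, h1] at hj
  have hk : 0 ≤ κ / 2 := by linarith [hL.pos]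
  have := mul_le_mul_of_nonneg_left hj hk
  linarith

private theorem acts_bdd {L : E n → E n → ℝ → ℝ} {κ K : ℝ} (hL : Growth L κ K) (c : E n) (e : ℝ)
    (x y : E n) : BddBelow (acts L c e x y) :=
  ⟨_, fun _ hr => acts_ge hL c e x y hr⟩

theorem Sp_lb {L : E n → E n → ℝ → ℝ} {κ K : ℝ} (hL : Growth L κ K) (c : E n) (e : ℝ)
    (x y : E n) : κ / 2 * ‖y - x‖ ^ 2 - (K + ‖c‖ ^ 2 / (2 * κ) - e) ≤ Sp L c e x y :=
  le_csInf (acts_nonempty hL c e x y) fun _ hr => acts_ge hL c e x y hr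

theorem Sp_ub {L : E n → E n → ℝ → ℝ} {κ K : ℝ} (hL : Growth L κ K) (c : E n) (e : ℝ) (R : ℝ) :
    ∃ M : ℝ, ∀ x y, ‖y - x‖ ≤ R → Sp L c e x y ≤ M := by
  have hcpt : IsCompact (Metric.closedBall (0 : E n) (Real.sqrt n) ×ˢ
      (Metric.closedBall (0 : E n) R ×ˢ Set.Icc (0 : ℝ) 1)) :=
    (isCompact_closedBall _ _).prod ((isCompact_closedBall _ _).prod isCompact_Icc)
  obtain ⟨M, hM⟩ := hcpt.bddAbove_image hL.cont.continuousOn
  refine ⟨M + ‖c‖ * R + e, fun x y hxy => ?_⟩
  refine (csInf_le (acts_bdd hL c e x y) (seg_mem hL c e x y)).trans ?_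
  have h1 : ∀ t ∈ Set.Icc (0 : ℝ) 1,
      L (x + t • (y - x)) (y - x) t - ⟪c, y - x⟫ + e ≤ M + ‖c‖ * R + e := by
    intro t ht
    obtain ⟨z, hz, -⟩ := exists_near (x + t • (y - x))
    have h2 : L (x + t • (y - x)) (y - x) t = L (x + t • (y - x) + zv z) (y - x) t :=
      hL.per _ _ _ _ _ (pr_eq_pr.2 ⟨z, rfl⟩) rfl
    have h3 : L (x + t • (y - x) + zv z) (y - x) t ≤ M := by
      apply hM
      exact ⟨(x + t • (y - x) + zv z, y - x, t), ⟨by simpa using hz, by simpa using hxy, ht⟩, rfl⟩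
    have h4 : -(‖c‖ * R) ≤ ⟪c, y - x⟫ := by
      have h5 := (abs_le.1 (abs_real_inner_le_norm c (y - x))).1
      have h6 := mul_le_mul_of_nonneg_left hxy (norm_nonneg c)
      linarith
    rw [h2]
    linarith
  have h2 := intervalIntegral.integral_mono_on (a := (0 : ℝ)) (b := 1) (μ := volume) zero_le_one
    ((seg_cont hL c e x y).intervalIntegrable _ _)
    (continuous_const.intervalIntegrable _ _ : IntervalIntegrable
      (fun _ : ℝ => M + ‖c‖ * R + e) volume 0 1) h1
  simpa using h2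

private theorem crv_shift {L : E n → E n → ℝ → ℝ} (hper : IsPeriodic L) (c : E n) (e : ℝ) {k : ℕ}
    {γ : ℝ → E n} {r : ℝ} (z : Fin n → ℤ) (h : Crv L c e k γ r) :
    Crv L c e k (fun t => γ t + zv z) r := by
  have hd : ∀ t, deriv (fun t => γ t + zv z) t = deriv γ t := fun t => deriv_add_const _
  have hL : ∀ t, L (γ t + zv z) (deriv γ t) t = L (γ t) (deriv γ t) t := fun t =>
    (hper _ _ _ _ _ (pr_eq_pr.2 ⟨z, rfl⟩) rfl).symm
  refine ⟨?_, ?_, ?_⟩
  · rw [absolutelyContinuousOnInterval_iff]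
    have := (absolutelyContinuousOnInterval_iff _ _ _).1 h.ac
    simpa only [dist_add_right] using this
  · simp only [hd, hL]
    exact h.int
  · simp only [hd, hL]
    exact h.eq

private theorem acts_shift {L : E n → E n → ℝ → ℝ} (hper : IsPeriodic L) (c : E n) (e : ℝ)
    (x y : E n) (z : Fin n → ℤ) : acts L c e x y ⊆ acts L c e (x + zv z) (y + zv z) := by
  rintro r ⟨γ, hγ, h0, h1⟩
  exact ⟨_, crv_shift hper c e z hγ, by simp [h0], by simp [h1]⟩

theorem Sp_per {L : E n → E n → ℝ → ℝ} (hper : IsPeriodic L) (c : E n) (e : ℝ) (x y : E n)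
    (z : Fin n → ℤ) : Sp L c e (x + zv z) (y + zv z) = Sp L c e x y := by
  unfold Sp
  congr 1
  apply Set.Subset.antisymm
  · have h := acts_shift hper c e (x + zv z) (y + zv z) (-z)
    rw [zv_neg, add_neg_cancel_right, add_neg_cancel_right] at h
    exact h
  · exact acts_shift hper c e x y z

end Pool.Agent.H68.HD
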