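import Pool.Agent.H68.HD.Base
import Pool.Agent.H68.HD.S1

/-!
# Module S2: semiconcavity of the action potential in the first variable
Let `r ∈ acts L c e x y`, with the curve `γ`, and `δ t = (1 - t) • ξ`, `‖ξ‖ ≤ 1`. `γ ± δ` are curves from `x ± ξ` to `y`,
with the derivative `deriv γ t ∓ ξ` a.e. (`ac_diff`). By `hL.sc` (with `ξ := δ t`, `η := -ξ`)
`L(γ+δ, γ'+δ', t) + L(γ-δ, γ'-δ', t) ≤ 2 L(γ,γ',t) + 2 K ‖ξ‖² (1 + ‖γ'‖²)` (`K ≥ 0` is NOT assumed: replace `K` by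
`|K|` where needed); both summands are bounded below by `-K`, so both are integrable (measurability:
`ContinuousOn.aestronglyMeasurable`, `measurable_deriv`, `hL.cont`). Integrate, use
`∫ ‖γ'‖² ≤ (2/κ)(r + K + ‖c‖²/(2κ) - e)` (`crv_lb`), and take `r → Sp` (`exists_lt_of_csInf_lt`).
The constants: `a = 2|K|(1 + (2/κ)|K + ‖c‖²/(2κ) - e|)`, `b = 4|K|/κ`. The second variable (module S2r) is the same
with `δ t = t • ξ`; please write the lemma for `δ t = ξ₀ + t • ξ₁` with `‖ξ₀‖, ‖ξ₀ + ξ₁‖, ‖ξ₁‖ ≤ ρ`, `ρ ≤ 1`: see `semi`.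
-/

set_option autoImplicit false

open MeasureTheory Filter
open scoped RealInnerProductSpace

namespace Pool.Agent.H68.HD

open Pool.Agent.H33.AM (E Tor pr IsPeriodic)

variable {n : ℕ}

private theorem s2_low {L : E n → E n → ℝ → ℝ} {κ K : ℝ} (hL : Growth L κ K) (c : E n) (e : ℝ)
    (x v : E n) (t : ℝ) :
    -(K + ‖c‖ ^ 2 / (2 * κ) - e) ≤ L x v t - ⟪c, v⟫ + e := by
  have h1 := hL.lo x v t
  have h2 : ⟪c, v⟫ ≤ ‖c‖ * ‖v‖ := real_inner_le_norm c v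
  have hk := hL.pos
  have h3 : ‖c‖ * ‖v‖ ≤ κ / 2 * ‖v‖ ^ 2 + ‖c‖ ^ 2 / (2 * κ) := by
    have h4 : κ / 2 * ‖v‖ ^ 2 + ‖c‖ ^ 2 / (2 * κ) - ‖c‖ * ‖v‖ =
        (κ * ‖v‖ - ‖c‖) ^ 2 / (2 * κ) := by
      field_simp
      ring
    have h5 : 0 ≤ (κ * ‖v‖ - ‖c‖) ^ 2 / (2 * κ) := by positivity
    linarith
  have h6 : 0 ≤ κ / 2 * ‖v‖ ^ 2 := by positivity
  linarith

private theorem s2_meas {L : E n → E n → ℝ → ℝ} {κ K : ℝ} (hL : Growth L κ K) (c : E n) (e : ℝ)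
    {γ : ℝ → E n} (h : AbsolutelyContinuousOnInterval γ 0 1) :
    AEStronglyMeasurable (fun t => L (γ t) (deriv γ t) t - ⟪c, deriv γ t⟫ + e)
      (volume.restrict (Set.Ioc (0 : ℝ) 1)) := by
  have h1 : AEStronglyMeasurable γ (volume.restrict (Set.Ioc (0 : ℝ) 1)) := by
    have h2 : ContinuousOn γ (Set.uIcc 0 1) := h.continuousOn
    rw [Set.uIcc_of_le zero_le_one] at h2
    exact (h2.mono Set.Ioc_subset_Icc_self).aestronglyMeasurable measurableSet_Ioc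
  have h3 : AEStronglyMeasurable (deriv γ) (volume.restrict (Set.Ioc (0 : ℝ) 1)) :=
    (stronglyMeasurable_deriv γ).aestronglyMeasurable
  have h4 : AEStronglyMeasurable (fun t => L (γ t) (deriv γ t) t)
      (volume.restrict (Set.Ioc (0 : ℝ) 1)) :=
    hL.cont.comp_aestronglyMeasurable (h1.prodMk (h3.prodMk aestronglyMeasurable_id))
  exact (h4.sub (aestronglyMeasurable_const.inner h3)).add aestronglyMeasurable_const

/-- The two shifted curves. -/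
private theorem s2_step {L : E n → E n → ℝ → ℝ} {κ K : ℝ} (hL : Growth L κ K) (c : E n) (e : ℝ)
    (x y ξ η : E n) (ρ : ℝ) (hρ : ρ ≤ 1) (h0 : ‖ξ‖ ≤ ρ) (h1 : ‖η‖ ≤ ρ) (h2 : ‖η - ξ‖ ≤ ρ)
    {r : ℝ} (hr : r ∈ acts L c e x y) :
    ∃ p ∈ acts L c e (x + ξ) (y + η), ∃ m ∈ acts L c e (x - ξ) (y - η),
      p + m ≤ 2 * r + 2 * |K| * ρ ^ 2 *
        (1 + 2 / κ * (r + (K + ‖c‖ ^ 2 / (2 * κ) - e))) := by
  obtain ⟨γ, hγ, hx, hy⟩ := hr
  have hk := hL.pos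
  have hρ0 : 0 ≤ ρ := (norm_nonneg _).trans h0
  obtain ⟨δ, hδd⟩ : ∃ δ : ℝ → E n, δ = fun t => ξ + t • (η - ξ) := ⟨_, rfl⟩
  have hδ : ∀ t, HasDerivAt δ (η - ξ) t := by
    intro t
    have h3 := ((hasDerivAt_id t).smul_const (η - ξ)).const_add ξ
    rw [hδd]
    simpa using h3
  have hδn : ∀ t ∈ Set.Icc (0 : ℝ) 1, ‖δ t‖ ≤ ρ := by
    intro t ht
    have h3 : δ t = (1 - t) • ξ + t • η := by
      rw [hδd]
      module
    have h4 := ht.1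
    have h5 := ht.2
    rw [h3]
    calc ‖(1 - t) • ξ + t • η‖ ≤ ‖(1 - t) • ξ‖ + ‖t • η‖ := norm_add_le _ _
      _ = (1 - t) * ‖ξ‖ + t * ‖η‖ := by
        rw [norm_smul, norm_smul, Real.norm_of_nonneg (by linarith), Real.norm_of_nonneg h4]
      _ ≤ (1 - t) * ρ + t * ρ := by
        have h6 : 0 ≤ 1 - t := by linarith
        gcongr
      _ = ρ := by ring
  have hδac : AbsolutelyContinuousOnInterval δ 0 1 := by
    have h3 : ContDiff ℝ 1 δ := by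
      rw [hδd]
      fun_prop
    exact h3.contDiffOn.absolutelyContinuousOnInterval
  have hγac : AbsolutelyContinuousOnInterval γ 0 1 := by simpa using hγ.ac
  have hpac : AbsolutelyContinuousOnInterval (fun t => γ t + δ t) 0 1 := hγac.add hδac
  have hmac : AbsolutelyContinuousOnInterval (fun t => γ t - δ t) 0 1 := hγac.sub hδac
  have hI : Integrable (fun t => L (γ t) (deriv γ t) t - ⟪c, deriv γ t⟫ + e)
      (volume.restrict (Set.Ioc (0 : ℝ) 1)) := by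
    have h3 := hγ.int
    rw [Nat.cast_one, intervalIntegrable_iff_integrableOn_Ioc_of_le zero_le_one] at h3
    exact h3
  obtain ⟨hV0, hV1⟩ := crv_lb hL hγ
  rw [Nat.cast_one] at hV0 hV1
  have hV : Integrable (fun t => ‖deriv γ t‖ ^ 2) (volume.restrict (Set.Ioc (0 : ℝ) 1)) := by
    rw [intervalIntegrable_iff_integrableOn_Ioc_of_le zero_le_one] at hV0
    exact hV0
  rw [intervalIntegral.integral_of_le zero_le_one] at hV1
  have hreq : r = ∫ t in Set.Ioc (0 : ℝ) 1, (L (γ t) (deriv γ t) t - ⟪c, deriv γ t⟫ + e) := by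
    have h3 := hγ.eq
    rw [Nat.cast_one, intervalIntegral.integral_of_le zero_le_one] at h3
    exact h3
  have hsum : ∀ᵐ t ∂(volume.restrict (Set.Ioc (0 : ℝ) 1)),
      (L (γ t + δ t) (deriv (fun t => γ t + δ t) t) t - ⟪c, deriv (fun t => γ t + δ t) t⟫ + e) +
        (L (γ t - δ t) (deriv (fun t => γ t - δ t) t) t - ⟪c, deriv (fun t => γ t - δ t) t⟫ + e) ≤
      2 * (L (γ t) (deriv γ t) t - ⟪c, deriv γ t⟫ + e) +
        2 * |K| * ρ ^ 2 * (1 + ‖deriv γ t‖ ^ 2) := by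
    rw [ae_restrict_iff' measurableSet_Ioc]
    filter_upwards [ac_diff hγac] with t ht hti
    have htI : t ∈ Set.Icc (0 : ℝ) 1 := Set.Ioc_subset_Icc_self hti
    have hd : DifferentiableAt ℝ γ t := ht (by rwa [Set.uIcc_of_le zero_le_one])
    have hp : deriv (fun t => γ t + δ t) t = deriv γ t + (η - ξ) :=
      (hd.hasDerivAt.add (hδ t)).deriv
    have hm : deriv (fun t => γ t - δ t) t = deriv γ t - (η - ξ) :=
      (hd.hasDerivAt.sub (hδ t)).deriv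
    rw [hp, hm]
    have h3 := hL.sc (γ t) (deriv γ t) t (δ t) (η - ξ) ((hδn t htI).trans hρ) (h2.trans hρ)
    have h4 : K * (1 + ‖deriv γ t‖ ^ 2) * (‖δ t‖ ^ 2 + ‖η - ξ‖ ^ 2) ≤
        2 * |K| * ρ ^ 2 * (1 + ‖deriv γ t‖ ^ 2) := by
      have h5 : ‖δ t‖ ^ 2 ≤ ρ ^ 2 := pow_le_pow_left₀ (norm_nonneg _) (hδn t htI) 2
      have h6 : ‖η - ξ‖ ^ 2 ≤ ρ ^ 2 := pow_le_pow_left₀ (norm_nonneg _) h2 2
      have h7 : K * (1 + ‖deriv γ t‖ ^ 2) * (‖δ t‖ ^ 2 + ‖η - ξ‖ ^ 2) ≤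
          |K| * (1 + ‖deriv γ t‖ ^ 2) * (‖δ t‖ ^ 2 + ‖η - ξ‖ ^ 2) := by
        gcongr
        exact le_abs_self K
      have h8 : |K| * (1 + ‖deriv γ t‖ ^ 2) * (‖δ t‖ ^ 2 + ‖η - ξ‖ ^ 2) ≤
          |K| * (1 + ‖deriv γ t‖ ^ 2) * (ρ ^ 2 + ρ ^ 2) := by
        gcongr
      calc _ ≤ _ := h7
        _ ≤ _ := h8
        _ = _ := by ring
    rw [inner_add_right, inner_sub_right (𝕜 := ℝ) c (deriv γ t) (η - ξ)]
    linarith
  have hlowp : ∀ t, -(K + ‖c‖ ^ 2 / (2 * κ) - e) ≤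
      L (γ t + δ t) (deriv (fun t => γ t + δ t) t) t -
        ⟪c, deriv (fun t => γ t + δ t) t⟫ + e := fun t => s2_low hL c e _ _ t
  have hlowm : ∀ t, -(K + ‖c‖ ^ 2 / (2 * κ) - e) ≤
      L (γ t - δ t) (deriv (fun t => γ t - δ t) t) t -
        ⟪c, deriv (fun t => γ t - δ t) t⟫ + e := fun t => s2_low hL c e _ _ t
  have hG : Integrable (fun t => 2 * |K| * ρ ^ 2 * (1 + ‖deriv γ t‖ ^ 2))
      (volume.restrict (Set.Ioc (0 : ℝ) 1)) := ((integrable_const 1).add hV).const_mul _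
  have hup : Integrable (fun t => 2 * (L (γ t) (deriv γ t) t - ⟪c, deriv γ t⟫ + e) +
      2 * |K| * ρ ^ 2 * (1 + ‖deriv γ t‖ ^ 2)) (volume.restrict (Set.Ioc (0 : ℝ) 1)) :=
    (hI.const_mul 2).add hG
  have hIp : Integrable (fun t => L (γ t + δ t) (deriv (fun t => γ t + δ t) t) t -
      ⟪c, deriv (fun t => γ t + δ t) t⟫ + e) (volume.restrict (Set.Ioc (0 : ℝ) 1)) := by
    refine integrable_of_le_of_le (g₁ := fun _ => -(K + ‖c‖ ^ 2 / (2 * κ) - e))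
      (g₂ := fun t => (2 * (L (γ t) (deriv γ t) t - ⟪c, deriv γ t⟫ + e) +
      2 * |K| * ρ ^ 2 * (1 + ‖deriv γ t‖ ^ 2)) + (K + ‖c‖ ^ 2 / (2 * κ) - e))
      (s2_meas hL c e hpac) ?_ ?_ (integrable_const _) (hup.add (integrable_const _))
    · exact Eventually.of_forall fun t => hlowp t
    · filter_upwards [hsum] with t ht
      have h3 := hlowm t
      linarith
  have hIm : Integrable (fun t => L (γ t - δ t) (deriv (fun t => γ t - δ t) t) t -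
      ⟪c, deriv (fun t => γ t - δ t) t⟫ + e) (volume.restrict (Set.Ioc (0 : ℝ) 1)) := by
    refine integrable_of_le_of_le (g₁ := fun _ => -(K + ‖c‖ ^ 2 / (2 * κ) - e))
      (g₂ := fun t => (2 * (L (γ t) (deriv γ t) t - ⟪c, deriv γ t⟫ + e) +
      2 * |K| * ρ ^ 2 * (1 + ‖deriv γ t‖ ^ 2)) + (K + ‖c‖ ^ 2 / (2 * κ) - e))
      (s2_meas hL c e hmac) ?_ ?_ (integrable_const _) (hup.add (integrable_const _))
    · exact Eventually.of_forall fun t => hlowm t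
    · filter_upwards [hsum] with t ht
      have h3 := hlowp t
      linarith
  refine ⟨∫ t in Set.Ioc (0 : ℝ) 1, (L (γ t + δ t) (deriv (fun t => γ t + δ t) t) t -
      ⟪c, deriv (fun t => γ t + δ t) t⟫ + e), ⟨fun t => γ t + δ t, ⟨?_, ?_, ?_⟩, ?_, ?_⟩,
    ∫ t in Set.Ioc (0 : ℝ) 1, (L (γ t - δ t) (deriv (fun t => γ t - δ t) t) t -
      ⟪c, deriv (fun t => γ t - δ t) t⟫ + e), ⟨fun t => γ t - δ t, ⟨?_, ?_, ?_⟩, ?_, ?_⟩, ?_⟩
  · rw [Nat.cast_one]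
    exact hpac
  · rw [Nat.cast_one, intervalIntegrable_iff_integrableOn_Ioc_of_le zero_le_one]
    exact hIp
  · rw [Nat.cast_one, intervalIntegral.integral_of_le zero_le_one]
  · simp [hδd, hx]
  · simp [hδd, hy]
  · rw [Nat.cast_one]
    exact hmac
  · rw [Nat.cast_one, intervalIntegrable_iff_integrableOn_Ioc_of_le zero_le_one]
    exact hIm
  · rw [Nat.cast_one, intervalIntegral.integral_of_le zero_le_one]
  · simp [hδd, hx]
  · simp [hδd, hy]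
  · have h3 := integral_mono_ae (hIp.add hIm) hup hsum
    rw [integral_add' hIp hIm, integral_add (hI.const_mul 2) hG, integral_const_mul,
      integral_const_mul, ← hreq] at h3
    have h4 : ∫ t in Set.Ioc (0 : ℝ) 1, (1 + ‖deriv γ t‖ ^ 2) =
        1 + ∫ t in Set.Ioc (0 : ℝ) 1, ‖deriv γ t‖ ^ 2 := by
      rw [integral_add (integrable_const 1) hV]
      simp
    rw [h4] at h3
    refine h3.trans ?_
    have h5 : ∫ t in Set.Ioc (0 : ℝ) 1, ‖deriv γ t‖ ^ 2 ≤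
        2 / κ * (r + (K + ‖c‖ ^ 2 / (2 * κ) - e)) := by
      rw [div_mul_eq_mul_div, le_div_iff₀ hk]
      linarith
    gcongr

/-- Second differences of the action potential in both variables. -/
theorem semi {L : E n → E n → ℝ → ℝ} {κ K : ℝ} (hL : Growth L κ K) (c : E n) (e : ℝ)
    (x y ξ η : E n) (ρ : ℝ) (hρ : ρ ≤ 1) (h0 : ‖ξ‖ ≤ ρ) (h1 : ‖η‖ ≤ ρ) (h2 : ‖η - ξ‖ ≤ ρ) :
    Sp L c e (x + ξ) (y + η) + Sp L c e (x - ξ) (y - η) - 2 * Sp L c e x y ≤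
      (2 * |K| * (1 + 2 / κ * |K + ‖c‖ ^ 2 / (2 * κ) - e|) + 4 * |K| / κ * Sp L c e x y) * ρ ^ 2 := by
  have hk := hL.pos
  have hbdd : ∀ x' y' : E n, BddBelow (acts L c e x' y') := fun x' y' =>
    ⟨κ / 2 * ‖y' - x'‖ ^ 2 - (K + ‖c‖ ^ 2 / (2 * κ) - e), fun r hr => acts_ge hL c e x' y' hr⟩
  obtain ⟨β, hβd⟩ : ∃ β : ℝ, β = 4 * |K| / κ * ρ ^ 2 := ⟨_, rfl⟩
  have hβ : 0 ≤ β := by
    rw [hβd]
    positivity
  obtain ⟨g, hg⟩ : ∃ g : ℝ, g = 2 * |K| * (1 + 2 / κ * |K + ‖c‖ ^ 2 / (2 * κ) - e|) * ρ ^ 2 :=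
    ⟨_, rfl⟩
  have h3 : (Sp L c e (x + ξ) (y + η) + Sp L c e (x - ξ) (y - η) - g) / (2 + β) ≤
      Sp L c e x y := by
    refine le_csInf (acts_nonempty hL c e x y) fun r hr => ?_
    obtain ⟨p, hp, m, hm, hpm⟩ := s2_step hL c e x y ξ η ρ hρ h0 h1 h2 hr
    have h4 : Sp L c e (x + ξ) (y + η) ≤ p := csInf_le (hbdd _ _) hp
    have h5 : Sp L c e (x - ξ) (y - η) ≤ m := csInf_le (hbdd _ _) hm
    have h6 : 2 * |K| * ρ ^ 2 * (1 + 2 / κ * (r + (K + ‖c‖ ^ 2 / (2 * κ) - e))) ≤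
        2 * |K| * ρ ^ 2 * (1 + 2 / κ * (r + |K + ‖c‖ ^ 2 / (2 * κ) - e|)) := by
      gcongr
      exact le_abs_self _
    have h7 : 2 * |K| * ρ ^ 2 * (1 + 2 / κ * (r + |K + ‖c‖ ^ 2 / (2 * κ) - e|)) =
        g + β * r := by
      rw [hg, hβd]
      ring
    rw [div_le_iff₀ (by linarith)]
    linarith
  rw [div_le_iff₀ (by linarith)] at h3
  have h8 : (2 * |K| * (1 + 2 / κ * |K + ‖c‖ ^ 2 / (2 * κ) - e|) +
      4 * |K| / κ * Sp L c e x y) * ρ ^ 2 = g + β * Sp L c e x y := by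
    rw [hg, hβd]
    ring
  rw [h8]
  linarith

theorem pot {L : E n → E n → ℝ → ℝ} {κ K : ℝ} (hL : Growth L κ K) (c : E n) (e : ℝ) :
    ∃ a b κ' K', Pot (Sp L c e) a b κ' K' := by
  have hk := hL.pos
  refine ⟨2 * |K| * (1 + 2 / κ * |K + ‖c‖ ^ 2 / (2 * κ) - e|), 4 * |K| / κ, κ / 2,
    |K + ‖c‖ ^ 2 / (2 * κ) - e|, ⟨by positivity, by positivity, by positivity, abs_nonneg _,
      fun x y z => Sp_per hL.per c e x y z, ?_, fun R => Sp_ub hL c e R, ?_, ?_⟩⟩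
  · intro x y
    have h1 := Sp_lb hL c e x y
    have h2 := le_abs_self (K + ‖c‖ ^ 2 / (2 * κ) - e)
    linarith
  · intro x y ξ hξ
    have h1 := semi hL c e x y ξ 0 ‖ξ‖ hξ le_rfl (by simp) (by simp)
    simpa using h1
  · intro x y ξ hξ
    have h1 := semi hL c e x y 0 ξ ‖ξ‖ hξ (by simp) le_rfl (by simp)
    simpa using h1

end Pool.Agent.H68.HD
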