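import Pool.Agent.H68.HD.Base
import Pool.Agent.H68.HD.AC1
import Pool.Agent.H68.HD.S1

/-!
# Module S3: closed chains and closed curves
`loop_nonneg`: from the definition of `alpha`: `loopMeans L c` is bounded below (`crv_lb` with `e = 0`), and the integrand
with `+ alpha L c` has the integral `k (mean + alpha)`. `n1`: given a closed chain and `ε > 0` choose curves with
`r i ≤ Sp + ε` (`acts_nonempty`, `exists_lt_of_csInf_lt`), concatenate (`crv_chain`), `pr_eq_pr`.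
`n2`: a loop with mean `< sInf + ε`, cut it (`crv_cut`), `csInf_le`, `pr_eq_pr`. `loopMeans` is nonempty (constant curve, k = 1).
-/

set_option autoImplicit false

open MeasureTheory Filter
open scoped RealInnerProductSpace

namespace Pool.Agent.H68.HD

open Pool.Agent.H33.AM (E Tor pr IsPeriodic)

variable {n : ℕ}

theorem loopMeans_bdd {L : E n → E n → ℝ → ℝ} {κ K : ℝ} (hL : Growth L κ K) (c : E n) :
    BddBelow (loopMeans L c) := by
  refine ⟨-(K + ‖c‖ ^ 2 / (2 * κ)), ?_⟩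
  rintro a ⟨k, γ, hk, hac, -, hint, rfl⟩
  have hk' : (0 : ℝ) < k := Nat.cast_pos.2 hk
  have h : Crv L c 0 k γ (∫ t in (0 : ℝ)..k, (L (γ t) (deriv γ t) t - ⟪c, deriv γ t⟫)) :=
    ⟨hac, by simpa only [add_zero] using hint, by simp only [add_zero]⟩
  obtain ⟨-, h1⟩ := crv_lb hL h
  rw [le_div_iff₀ hk']
  have h2 : 0 ≤ ∫ t in (0 : ℝ)..k, ‖deriv γ t‖ ^ 2 :=
    intervalIntegral.integral_nonneg hk'.le fun t _ => sq_nonneg _
  have h3 : 0 ≤ κ / 2 * ∫ t in (0 : ℝ)..k, ‖deriv γ t‖ ^ 2 :=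
    mul_nonneg (by linarith [hL.pos]) h2
  rw [sub_zero] at h1
  linarith

/-- The action with the additional constant. -/
private theorem int_add_const {F : ℝ → ℝ} {k : ℕ} (h : IntervalIntegrable F volume 0 k) (e : ℝ) :
    ∫ t in (0 : ℝ)..k, (F t + e) = (∫ t in (0 : ℝ)..k, F t) + e * k := by
  rw [intervalIntegral.integral_add h intervalIntegrable_const, intervalIntegral.integral_const]
  simp only [sub_zero, smul_eq_mul, mul_comm]

theorem loop_nonneg {L : E n → E n → ℝ → ℝ} {κ K : ℝ} (hL : Growth L κ K) (c : E n) {k : ℕ}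
    {γ : ℝ → E n} {r : ℝ} (h : Crv L c (alpha L c) k γ r) (hp : pr (γ 0) = pr (γ k)) : 0 ≤ r := by
  rcases Nat.eq_zero_or_pos k with rfl | hk
  · rw [h.eq]
    simp
  · have hk' : (0 : ℝ) < k := Nat.cast_pos.2 hk
    have hint : IntervalIntegrable (fun t => L (γ t) (deriv γ t) t - ⟪c, deriv γ t⟫)
        volume 0 k := by
      have h1 := h.int.sub (intervalIntegrable_const (c := alpha L c) (μ := volume) (a := (0 : ℝ))
        (b := (k : ℝ)))
      simpa only [add_sub_cancel_right] using h1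
    have hmem : (∫ t in (0 : ℝ)..k, (L (γ t) (deriv γ t) t - ⟪c, deriv γ t⟫)) / k ∈
        loopMeans L c := ⟨k, γ, hk, h.ac, hp, hint, rfl⟩
    have h1 := csInf_le (loopMeans_bdd hL c) hmem
    rw [le_div_iff₀ hk'] at h1
    rw [h.eq, int_add_const hint]
    unfold alpha
    linarith

theorem n1 {L : E n → E n → ℝ → ℝ} {κ K : ℝ} (hL : Growth L κ K) (c : E n) :
    N1 (Sp L c (alpha L c)) := by
  rintro f k z ⟨hk, hz⟩
  have hk' : (0 : ℝ) < k := Nat.cast_pos.2 hk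
  refine le_of_forall_pos_le_add fun ε hε => ?_
  have h1 : ∀ i, ∃ r, r ∈ acts L c (alpha L c) (f i) (f (i + 1)) ∧
      r < Sp L c (alpha L c) (f i) (f (i + 1)) + ε / k := fun i =>
    exists_lt_of_csInf_lt (acts_nonempty hL c (alpha L c) (f i) (f (i + 1)))
      (lt_add_of_pos_right _ (div_pos hε hk'))
  choose r hr hlt using h1
  choose γ hγ h0 h1 using hr
  obtain ⟨δ, hδ, hδ0, hδk⟩ := crv_chain hL.per k f γ r (fun i _ => hγ i) (fun i _ => h0 i)
    (fun i _ => h1 i)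
  have h2 := loop_nonneg hL c hδ (by rw [hδ0, hδk]; exact pr_eq_pr.2 ⟨z, hz⟩)
  have h3 : ∑ i ∈ Finset.range k, r i ≤ cost (Sp L c (alpha L c)) f k + ε := by
    have h4 : ∑ i ∈ Finset.range k, r i ≤
        ∑ i ∈ Finset.range k, (Sp L c (alpha L c) (f i) (f (i + 1)) + ε / k) :=
      Finset.sum_le_sum fun i _ => (hlt i).le
    rw [Finset.sum_add_distrib, Finset.sum_const, Finset.card_range, nsmul_eq_mul,
      mul_div_cancel₀ _ hk'.ne'] at h4
    exact h4
  exact h2.trans h3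

theorem n2 {L : E n → E n → ℝ → ℝ} {κ K : ℝ} (hL : Growth L κ K) (c : E n) :
    N2 (Sp L c (alpha L c)) := by
  intro ε hε
  have hne : (loopMeans L c).Nonempty := by
    obtain ⟨r, γ, hγ, h0, h1⟩ := acts_nonempty hL c 0 (0 : E n) 0
    refine ⟨_, 1, γ, one_pos, hγ.ac, ?_, ?_, rfl⟩
    · rw [Nat.cast_one, h0, h1]
    · simpa only [add_zero] using hγ.int
  obtain ⟨a, ⟨k, γ, hk, hac, hp, hint, ha⟩, hlt⟩ :=
    exists_lt_of_csInf_lt hne (lt_add_of_pos_right _ hε)
  have hk' : (0 : ℝ) < k := Nat.cast_pos.2 hk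
  have hcrv : Crv L c (alpha L c) k γ
      (∫ t in (0 : ℝ)..k, (L (γ t) (deriv γ t) t - ⟪c, deriv γ t⟫ + alpha L c)) :=
    ⟨hac, hint.add intervalIntegrable_const, rfl⟩
  obtain ⟨δ, s, hδ, hs⟩ := crv_cut hL.per hcrv
  obtain ⟨z, hz⟩ := pr_eq_pr.1 hp
  refine ⟨fun i => γ i, k, z, ⟨hk, by simpa only [Nat.cast_zero] using hz⟩, ?_⟩
  have h1 : cost (Sp L c (alpha L c)) (fun i => γ i) k ≤ ∑ i ∈ Finset.range k, s i := by
    apply Finset.sum_le_sum
    intro i hi
    obtain ⟨h2, h3, h4⟩ := hδ i (Finset.mem_range.1 hi)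
    exact csInf_le ⟨_, fun _ hr => acts_ge hL c _ _ _ hr⟩ ⟨δ i, h2, h3, h4⟩
  rw [← hs, int_add_const hint] at h1
  have h6 : (∫ t in (0 : ℝ)..k, (L (γ t) (deriv γ t) t - ⟪c, deriv γ t⟫)) = a * k := by
    rw [ha, div_mul_cancel₀ _ hk'.ne']
  rw [h6] at h1
  have h7 : a + alpha L c ≤ ε := by
    unfold alpha
    linarith
  have h8 := mul_le_mul_of_nonneg_right h7 hk'.le
  linarith

end Pool.Agent.H68.HD
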