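import Pool.Agent.H68.HD.Base
import Pool.Agent.H68.HD.AC1
import Pool.Agent.H68.HD.S1

/-!
# Module S3b: change of the cohomology class
`Crv L (c + p) e' 1 γ r' ↔ Crv L c e 1 γ r` with `r' = r - p · (γ 1 - γ 0) + (e' - e)` (`ac_int`, `ac_ftc`, `integral_inner`),
so the sets `acts` are translates of each other (`csInf` of a translate; `Real.sInf_...` or by `le_antisymm`
with `acts_nonempty`, `acts_ge`). `cost_shift` by summation (telescoping `Finset.sum_range_sub`).
-/

set_option autoImplicit false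

open MeasureTheory Filter
open scoped RealInnerProductSpace

namespace Pool.Agent.H68.HD

open Pool.Agent.H33.AM (E Tor pr IsPeriodic)

variable {n : ℕ}

private theorem crv_shift {L : E n → E n → ℝ → ℝ} {c : E n} {e : ℝ} {γ : ℝ → E n} {r : ℝ}
    (h : Crv L c e 1 γ r) (p : E n) (e' : ℝ) :
    Crv L (c + p) e' 1 γ (r - ⟪p, γ 1 - γ 0⟫ + (e' - e)) := by
  have h1 := ac_int h.ac
  have h2 := ac_ftc h.ac
  have h3 : IntervalIntegrable (fun t => ⟪p, deriv γ t⟫) volume 0 ((1 : ℕ) : ℝ) :=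
    ⟨(innerSL ℝ p).integrable_comp h1.1, (innerSL ℝ p).integrable_comp h1.2⟩
  have h4 : ∫ t in (0 : ℝ)..((1 : ℕ) : ℝ), ⟪p, deriv γ t⟫ = ⟪p, γ 1 - γ 0⟫ := by
    have h5 := (innerSL ℝ p).intervalIntegral_comp_comm h1
    rw [h2, Nat.cast_one] at h5
    rw [Nat.cast_one]
    exact h5
  have h6 : (fun t => L (γ t) (deriv γ t) t - ⟪c + p, deriv γ t⟫ + e') = fun t =>
      (L (γ t) (deriv γ t) t - ⟪c, deriv γ t⟫ + e) - ⟪p, deriv γ t⟫ + (e' - e) := by
    funext t
    rw [inner_add_left]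
    ring
  have h7 : IntervalIntegrable (fun _ : ℝ => e' - e) volume 0 ((1 : ℕ) : ℝ) :=
    intervalIntegrable_const
  refine ⟨h.ac, ?_, ?_⟩
  · rw [h6]
    exact (h.int.sub h3).add h7
  · rw [h6, intervalIntegral.integral_add (h.int.sub h3) h7,
      intervalIntegral.integral_sub h.int h3, h4, ← h.eq, intervalIntegral.integral_const]
    simp

private theorem acts_shift {L : E n → E n → ℝ → ℝ} {c : E n} {e : ℝ} {x y : E n} {r : ℝ}
    (h : r ∈ acts L c e x y) (p : E n) (e' : ℝ) :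
    r - ⟪p, y - x⟫ + (e' - e) ∈ acts L (c + p) e' x y := by
  obtain ⟨γ, h1, h2, h3⟩ := h
  refine ⟨γ, ?_, h2, h3⟩
  have h4 := crv_shift h1 p e'
  rwa [h2, h3] at h4

theorem Sp_shift {L : E n → E n → ℝ → ℝ} {κ K : ℝ} (hL : Growth L κ K) (c p : E n) (e e' : ℝ)
    (x y : E n) : Sp L (c + p) e' x y = Sp L c e x y - ⟪p, y - x⟫ + (e' - e) := by
  have hb : ∀ (c : E n) (e : ℝ), BddBelow (acts L c e x y) := fun c e =>
    ⟨_, fun r hr => acts_ge hL c e x y hr⟩
  unfold Sp
  apply le_antisymm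
  · have h1 : sInf (acts L (c + p) e' x y) + ⟪p, y - x⟫ - (e' - e) ≤ sInf (acts L c e x y) := by
      refine le_csInf (acts_nonempty hL c e x y) fun r hr => ?_
      have h2 := csInf_le (hb (c + p) e') (acts_shift hr p e')
      linarith
    linarith
  · refine le_csInf (acts_nonempty hL (c + p) e' x y) fun r hr => ?_
    have h2 := acts_shift hr (-p) e
    rw [add_neg_cancel_right, inner_neg_left] at h2
    have h3 := csInf_le (hb c e) h2
    linarith

theorem cost_shift {L : E n → E n → ℝ → ℝ} {κ K : ℝ} (hL : Growth L κ K) (c p : E n) (e e' : ℝ)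
    (f : ℕ → E n) (k : ℕ) : cost (Sp L (c + p) e') f k =
      cost (Sp L c e) f k - ⟪p, f k - f 0⟫ + k * (e' - e) := by
  induction k with
  | zero => simp [cost]
  | succ k ih =>
    unfold cost at ih ⊢
    rw [Finset.sum_range_succ, Finset.sum_range_succ, ih, Sp_shift hL c p e e']
    have h1 : f (k + 1) - f 0 = (f (k + 1) - f k) + (f k - f 0) := by abel
    rw [h1, inner_add_right]
    push_cast
    ring

end Pool.Agent.H68.HD
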