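import Pool.Agent.H68.HD.Base
import Pool.Agent.H68.HD.S3

/-!
# Module S4: Aubry points lie in the Aubry set
`curveActions L c k (pr x) (pr x)` is bounded below by 0 (`loop_nonneg`), and for an Aubry point `x`, `ε > 0` and `m : ℕ` there is
`k ≥ m` with an element `≤ 2 ε`: take a closed chain `f` at `x` of length `k₀` and displacement `z` with cost `≤ ε/(m+1)`,
curves with `r i ≤ Sp + small`, `crv_chain`, and repeat the closed curve `m + 1` times (`crv_cat`).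
Then the liminf is `0`.
-/

set_option autoImplicit false

open MeasureTheory Filter
open scoped RealInnerProductSpace

namespace Pool.Agent.H68.HD

open Pool.Agent.H33.AM (E Tor pr IsPeriodic)

variable {n : ℕ}

/-- Repetition of a closed curve. -/
private theorem S4_rep {L : E n → E n → ℝ → ℝ} (hper : IsPeriodic L) {c : E n} {e : ℝ} {l : ℕ}
    {δ : ℝ → E n} {s : ℝ} (h : Crv L c e l δ s) (z : Fin n → ℤ) (hz : δ l = δ 0 + zv z) (m : ℕ) :
    ∃ (ε : ℝ → E n) (w : Fin n → ℤ), Crv L c e ((m + 1) * l) ε (((m : ℝ) + 1) * s) ∧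
      ε 0 = δ 0 ∧ ε (((m + 1) * l : ℕ) : ℝ) = δ 0 + zv w := by
  induction m with
  | zero =>
    refine ⟨δ, z, ?_, rfl, ?_⟩
    · have e1 : (0 + 1) * l = l := by ring
      have e2 : (((0 : ℕ) : ℝ) + 1) * s = s := by push_cast; ring
      rw [e1, e2]
      exact h
    · have e1 : (0 + 1) * l = l := by ring
      rw [e1]
      exact hz
  | succ m ih =>
    obtain ⟨γ, w, h1, h2, h3⟩ := ih
    obtain ⟨ε, h4, h5, h6⟩ := crv_cat hper h1 h w h3
    have e1 : (m + 1 + 1) * l = (m + 1) * l + l := by ring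
    have e2 : (((m + 1 : ℕ) : ℝ) + 1) * s = ((m : ℝ) + 1) * s + s := by push_cast; ring
    refine ⟨ε, z + w, ?_, h5.trans h2, ?_⟩
    · rw [e1, e2]
      exact h4
    · rw [e1, h6, hz, zv_add, add_assoc]

private theorem S4_small {L : E n → E n → ℝ → ℝ} {κ K : ℝ} (hL : Growth L κ K) (c : E n) {x : E n}
    (hx : Aub (Sp L c (alpha L c)) x) {δ : ℝ} (hδ : 0 < δ) (m : ℕ) :
    ∃ k, m ≤ k ∧ ∃ a ∈ curveActions L c k (pr x) (pr x), a ≤ 2 * δ := by
  have hm : (0 : ℝ) < (m : ℝ) + 1 := by positivity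
  obtain ⟨f, k₀, z, ⟨hk, hz⟩, h0, hcost⟩ := hx (δ / ((m : ℝ) + 1)) (by positivity)
  have hk' : (0 : ℝ) < k₀ := by exact_mod_cast hk
  have hη : (0 : ℝ) < δ / (((m : ℝ) + 1) * k₀) := by positivity
  have hch : ∀ i : ℕ, ∃ r : ℝ, ∃ γ : ℝ → E n, (Crv L c (alpha L c) 1 γ r ∧ γ 0 = f i ∧
      γ 1 = f (i + 1)) ∧ r ≤ Sp L c (alpha L c) (f i) (f (i + 1)) + δ / (((m : ℝ) + 1) * k₀) := by
    intro i
    obtain ⟨r, ⟨γ, hγ⟩, hr⟩ := Real.lt_sInf_add_pos
      (acts_nonempty hL c (alpha L c) (f i) (f (i + 1))) hη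
    exact ⟨r, γ, hγ, hr.le⟩
  choose r γ hγ hr using hch
  obtain ⟨ε, hε, hε0, hεk⟩ := crv_chain hL.per k₀ f γ r (fun i _ => (hγ i).1)
    (fun i _ => (hγ i).2.1) (fun i _ => (hγ i).2.2)
  have hsum : ∑ i ∈ Finset.range k₀, r i ≤ 2 * δ / ((m : ℝ) + 1) := by
    calc ∑ i ∈ Finset.range k₀, r i
        ≤ ∑ i ∈ Finset.range k₀, (Sp L c (alpha L c) (f i) (f (i + 1)) +
            δ / (((m : ℝ) + 1) * k₀)) := Finset.sum_le_sum fun i _ => hr i
      _ = cost (Sp L c (alpha L c)) f k₀ + k₀ * (δ / (((m : ℝ) + 1) * k₀)) := by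
          rw [Finset.sum_add_distrib, Finset.sum_const, Finset.card_range, nsmul_eq_mul]
          rfl
      _ ≤ δ / ((m : ℝ) + 1) + k₀ * (δ / (((m : ℝ) + 1) * k₀)) := by linarith
      _ = 2 * δ / ((m : ℝ) + 1) := by field_simp; ring
  have hz' : ε k₀ = ε 0 + zv z := by rw [hεk, hε0, hz]
  obtain ⟨θ, w, h1, h2, h3⟩ := S4_rep hL.per hε z hz' m
  refine ⟨(m + 1) * k₀, ?_, ((m : ℝ) + 1) * ∑ i ∈ Finset.range k₀, r i, ?_, ?_⟩
  · calc m ≤ m + 1 := Nat.le_succ m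
      _ = (m + 1) * 1 := (mul_one _).symm
      _ ≤ (m + 1) * k₀ := Nat.mul_le_mul_left _ hk
  · refine ⟨θ, h1.ac, ?_, ?_, h1.int, h1.eq⟩
    · rw [h2, hε0, h0]
    · rw [h3, hε0, h0]
      exact (pr_eq_pr.2 ⟨w, rfl⟩).symm
  · calc ((m : ℝ) + 1) * ∑ i ∈ Finset.range k₀, r i
        ≤ ((m : ℝ) + 1) * (2 * δ / ((m : ℝ) + 1)) := mul_le_mul_of_nonneg_left hsum hm.le
      _ = 2 * δ := by field_simp

private theorem S4_nonneg {L : E n → E n → ℝ → ℝ} {κ K : ℝ} (hL : Growth L κ K) (c : E n) (x : E n)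
    (k : ℕ) : ∀ a ∈ curveActions L c k (pr x) (pr x), 0 ≤ a := by
  rintro a ⟨γ, h1, h2, h3, h4, h5⟩
  exact loop_nonneg hL c ⟨h1, h4, h5⟩ (h2.trans h3.symm)

theorem aubry_of_aub {L : E n → E n → ℝ → ℝ} {κ K : ℝ} (hL : Growth L κ K) (c : E n) {x : E n}
    (hx : Aub (Sp L c (alpha L c)) x) : pr x ∈ aubry L c := by
  have hpos : ∀ k, 0 ≤ sInf (curveActions L c k (pr x) (pr x)) := fun k =>
    Real.sInf_nonneg (S4_nonneg hL c x k)
  have hfreq : ∀ δ : ℝ, 0 < δ →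
      ∃ᶠ k in atTop, sInf (curveActions L c k (pr x) (pr x)) ≤ δ := by
    intro δ hδ
    rw [frequently_atTop]
    intro m
    obtain ⟨k, hk, a, ha, hle⟩ := S4_small hL c hx (half_pos hδ) m
    refine ⟨k, hk, (csInf_le ⟨0, fun b hb => S4_nonneg hL c x k b hb⟩ ha).trans ?_⟩
    linarith
  have hbdd : IsBoundedUnder (· ≥ ·) atTop
      (fun k : ℕ => sInf (curveActions L c k (pr x) (pr x))) :=
    isBoundedUnder_of ⟨0, fun k => hpos k⟩
  show liminf (fun k : ℕ => sInf (curveActions L c k (pr x) (pr x))) atTop = 0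
  apply le_antisymm
  · refine le_of_forall_pos_le_add fun δ hδ => ?_
    rw [zero_add]
    exact liminf_le_of_frequently_le (hfreq δ hδ) hbdd
  · exact le_liminf_of_le (IsCoboundedUnder.of_frequently_le (hfreq 1 one_pos))
      (Eventually.of_forall hpos)

end Pool.Agent.H68.HD
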