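import Pool.Agent.H68.HD.Base
import Pool.Agent.H68.HD.D0

/-!
# Module Suc: successors
`succ`: closed chains `f_j` at `x` with cost `≤ 1/(j+1)`; the first step has `D(x, f_j 1) ≤ 1/(j+1)` (`closed_cost`, all `D ≥ 0`), so
`‖f_j 1 - x‖ ≤ R` and a subsequence of `f_j 1` converges to `y`; `D(x, ·)` is continuous (`lip`, `hu.lip`), so `D(x,y) = 0`.
The rotated chain `g i = f_j (i+1)` (`i < k`), `g k = f_j 1 + zv z` is closed with the same cost (`hS.per`: the last step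
`S (f_j k) (f_j 1 + zv z) = S (f_j 0) (f_j 1)`); `move` it to `y`. `exists_chain`: iterate (`Nat.rec`, choose).
-/

set_option autoImplicit false

open MeasureTheory Filter
open scoped RealInnerProductSpace

namespace Pool.Agent.H68.HD

open Pool.Agent.H33.AM (E Tor pr IsPeriodic)

variable {n : ℕ}

/-- the rotated chain -/
private theorem Suc_rot {S : E n → E n → ℝ} {a b κ K : ℝ} (hS : Pot S a b κ K) {f : ℕ → E n}
    {k : ℕ} {z : Fin n → ℤ} (hf : Cl f k z) :
    ∃ g : ℕ → E n, Cl g k z ∧ g 0 = f 1 ∧ cost S g k = cost S f k := by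
  obtain ⟨hk, hz⟩ := hf
  obtain ⟨m, rfl⟩ : ∃ m, k = m + 1 := ⟨k - 1, by omega⟩
  refine ⟨fun i => if i < m + 1 then f (i + 1) else f 1 + zv z, ⟨hk, ?_⟩, ?_, ?_⟩
  · simp
  · simp
  · unfold cost
    rw [Finset.sum_range_succ, Finset.sum_range_succ' (fun i => S (f i) (f (i + 1)))]
    congr 1
    · refine Finset.sum_congr rfl fun i hi => ?_
      rw [Finset.mem_range] at hi
      beta_reduce
      rw [if_pos (by omega), if_pos (by omega)]
    · beta_reduce
      rw [if_pos (by omega), if_neg (by omega), hz, hS.per]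

theorem succ {S : E n → E n → ℝ} {a b κ K : ℝ} (hS : Pot S a b κ K) {u : E n → ℝ} {M Λ : ℝ}
    (hu : Sub S u M Λ) {x : E n} (hx : Aub S x) : ∃ y, Aub S y ∧ S x y = u y - u x := by
  obtain ⟨R, hR0, hR⟩ := step_bound hS hu
  obtain ⟨C, hC0, hC⟩ := move hS hu
  obtain ⟨Λ', hΛ0, hΛ⟩ := lip hS R
  choose f k z hcl hf0 hcost using fun j : ℕ => hx (1 / ((j : ℝ) + 1)) (by positivity)
  have hone : ∀ j : ℕ, 1 / ((j : ℝ) + 1) ≤ 1 := by
    intro j
    rw [div_le_one (by positivity)]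
    have : (0 : ℝ) ≤ j := Nat.cast_nonneg j
    linarith
  have hD : ∀ j : ℕ, S x (f j 1) - u (f j 1) + u x ≤ 1 / ((j : ℝ) + 1) := by
    intro j
    have h1 := closed_cost hu (hcl j)
    have h2 : S (f j 0) (f j (0 + 1)) - u (f j (0 + 1)) + u (f j 0) ≤
        ∑ i ∈ Finset.range (k j), (S (f j i) (f j (i + 1)) - u (f j (i + 1)) + u (f j i)) :=
      Finset.single_le_sum (f := fun i => S (f j i) (f j (i + 1)) - u (f j (i + 1)) + u (f j i))
        (fun i _ => by
          have := hu.sub (f j i) (f j (i + 1))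
          linarith) (Finset.mem_range.mpr (hcl j).1)
    rw [← h1, hf0 j, zero_add] at h2
    exact h2.trans (hcost j)
  have hball : ∀ j : ℕ, f j 1 ∈ Metric.closedBall x R := by
    intro j
    rw [mem_closedBall_iff_norm]
    exact hR x (f j 1) ((hD j).trans (hone j))
  obtain ⟨y, hy, φ, hφ, hlim⟩ := (isCompact_closedBall x R).tendsto_subseq hball
  have hclose : ∀ δ : ℝ, 0 < δ → ∃ j : ℕ, ‖y - f j 1‖ ≤ δ ∧ 1 / ((j : ℝ) + 1) ≤ δ := by
    intro δ hδ
    have h1 : ∀ᶠ i in atTop, dist ((fun j => f j 1) (φ i)) y < δ :=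
      (Metric.tendsto_nhds.mp hlim) δ hδ
    have h2 : ∀ᶠ i : ℕ in atTop, 1 / ((i : ℝ) + 1) < δ :=
      (tendsto_one_div_add_atTop_nhds_zero_nat (𝕜 := ℝ)).eventually (gt_mem_nhds hδ)
    obtain ⟨i, h3, h4⟩ := (h1.and h2).exists
    refine ⟨φ i, ?_, ?_⟩
    · rw [← dist_eq_norm, dist_comm]
      exact h3.le
    · have h5 : (i : ℝ) ≤ φ i := by exact_mod_cast hφ.id_le i
      refine le_trans ?_ h4.le
      exact one_div_le_one_div_of_le (by positivity) (by linarith)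
  refine ⟨y, ?_, ?_⟩
  · intro ε hε
    obtain ⟨j, h1, h2⟩ := hclose (min 1 (ε / (C + 1))) (lt_min one_pos (by positivity))
    obtain ⟨g, hg, hg0, hgc⟩ := Suc_rot hS (hcl j)
    have h3 : ‖y - f j 1‖ ≤ 1 := h1.trans (min_le_left _ _)
    have h4 : ‖y - f j 1‖ ≤ ε / (C + 1) := h1.trans (min_le_right _ _)
    have h5 : 1 / ((j : ℝ) + 1) ≤ ε / (C + 1) := h2.trans (min_le_right _ _)
    obtain ⟨g', hg', hg0', hgc'⟩ := hC g (k j) (z j) y hg
      (by rw [hgc]; exact (hcost j).trans (hone j)) (by rw [hg0]; exact h3)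
    refine ⟨g', k j, z j, hg', hg0', hgc'.trans ?_⟩
    rw [hgc, hg0]
    have h6 := mul_le_mul_of_nonneg_left h4 hC0
    have h7 := hcost j
    have h8 : ε / (C + 1) + C * (ε / (C + 1)) = ε := by field_simp; ring
    linarith
  · refine le_antisymm ?_ (hu.sub x y)
    by_contra hcon
    push Not at hcon
    obtain ⟨d, hd⟩ : ∃ d, d = S x y - (u y - u x) := ⟨_, rfl⟩
    have hd0 : 0 < d := by linarith
    obtain ⟨Q, hQ⟩ : ∃ Q, Q = 1 + Λ' + |Λ| := ⟨_, rfl⟩
    have hQ0 : 0 < Q := by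
      have := abs_nonneg Λ
      linarith
    obtain ⟨j, h1, h2⟩ := hclose (min 1 (d / (2 * Q))) (lt_min one_pos (by positivity))
    have h3 : ‖y - f j 1‖ ≤ 1 := h1.trans (min_le_left _ _)
    have h4 : ‖y - f j 1‖ ≤ d / (2 * Q) := h1.trans (min_le_right _ _)
    have h5 : 1 / ((j : ℝ) + 1) ≤ d / (2 * Q) := h2.trans (min_le_right _ _)
    have h6 := (hΛ x (f j 1) (y - f j 1) (by
      have := hball j
      rw [mem_closedBall_iff_norm] at this
      exact this) h3).2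
    have h7 := hu.lip (f j 1) (y - f j 1) h3
    rw [add_sub_cancel] at h6 h7
    have h8 := (abs_le.mp h6).2
    have h9 := (abs_le.mp h7).1
    have h10 := hD j
    have h11 := mul_le_mul_of_nonneg_left h4 hΛ0
    have h12 : Λ * ‖y - f j 1‖ ≤ |Λ| * (d / (2 * Q)) :=
      (mul_le_mul_of_nonneg_right (le_abs_self Λ) (norm_nonneg _)).trans
        (mul_le_mul_of_nonneg_left h4 (abs_nonneg Λ))
    have h13 : d / (2 * Q) + Λ' * (d / (2 * Q)) + |Λ| * (d / (2 * Q)) = d / 2 := by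
      have e : d / (2 * Q) + Λ' * (d / (2 * Q)) + |Λ| * (d / (2 * Q)) = Q * (d / (2 * Q)) := by
        rw [hQ]
        ring
      rw [e]
      field_simp
    linarith

theorem exists_chain {S : E n → E n → ℝ} {a b κ K : ℝ} (hS : Pot S a b κ K) {u : E n → ℝ}
    {M Λ : ℝ} (hu : Sub S u M Λ) {x : E n} (hx : Aub S x) :
    ∃ y : ℕ → E n, (∀ i, Aub S (y i)) ∧ ∀ i, S (y i) (y (i + 1)) = u (y (i + 1)) - u (y i) := by
  have h1 : ∀ x : {x : E n // Aub S x}, ∃ y : {y : E n // Aub S y},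
      S x.1 y.1 = u y.1 - u x.1 := by
    intro x
    obtain ⟨y, hy, hxy⟩ := succ hS hu x.2
    exact ⟨⟨y, hy⟩, hxy⟩
  choose g hg using h1
  refine ⟨fun i => (g^[i] ⟨x, hx⟩).1, fun i => (g^[i] ⟨x, hx⟩).2, fun i => ?_⟩
  simp only
  rw [Function.iterate_succ_apply']
  exact hg _

end Pool.Agent.H68.HD
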