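import Pool.Agent.H68.HD.Base
import Pool.Agent.H68.HD.Lip

/-!
# Module U: the subsolution
`u x = sInf {r | ∃ f k z, 0 < k ∧ f 0 = 0 ∧ f k = x + zv z ∧ r = cost S f k}`. Let `M` bound `S x y` for `‖y - x‖ ≤ √n` (`hS.ub`).
Nonempty and `u ≤ M`: `k = 1`, `exists_near`. Bounded below by `-M`: close the chain by a step from `x + zv z` to an integer vector
`zv z'` with `‖x + zv z - zv z'‖ ≤ √n` (`exists_near`), `N1`. Periodic: the sets are equal. `sub`: append the step
`x + zv z → y + zv z` (`hS.per`). Lipschitz: for a chain to `x` with cost `≤ u x + δ`, `δ ≤ 1`, the last step is `≤ 2 M + 1`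
(if `k ≥ 2` the cost of the first `k - 1` steps is `≥ u (f (k-1)) ≥ -M`), so it has length `≤ R` by `hS.lb`; move
the end point by `e` with `lip` for this `R`: `u (x + e) ≤ u x + Λ ‖e‖`, and the same from `x + e` back to `x`.
-/

set_option autoImplicit false

open MeasureTheory Filter
open scoped RealInnerProductSpace

namespace Pool.Agent.H68.HD

open Pool.Agent.H33.AM (E Tor pr IsPeriodic)

variable {n : ℕ}

private def US (S : E n → E n → ℝ) (x : E n) : Set ℝ :=
  {r | ∃ (f : ℕ → E n) (k : ℕ) (z : Fin n → ℤ), 0 < k ∧ f 0 = 0 ∧ f k = x + zv z ∧ r = cost S f k}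

private lemma cost_append (S : E n → E n → ℝ) (f : ℕ → E n) (k : ℕ) (y : E n) :
    cost S (fun i => if i ≤ k then f i else y) (k + 1) = cost S f k + S (f k) y := by
  unfold cost
  rw [Finset.sum_range_succ]
  congr 1
  · apply Finset.sum_congr rfl
    intro i hi
    rw [Finset.mem_range] at hi
    show S (if i ≤ k then f i else y) (if i + 1 ≤ k then f (i + 1) else y) = S (f i) (f (i + 1))
    rw [if_pos hi.le, if_pos (Nat.succ_le_of_lt hi)]
  · show S (if k ≤ k then f k else y) (if k + 1 ≤ k then f (k + 1) else y) = S (f k) y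
    rw [if_pos le_rfl, if_neg (by omega)]

private lemma mem_append {S : E n → E n → ℝ} {f : ℕ → E n} {k : ℕ} {x : E n} {z : Fin n → ℤ}
    (hf0 : f 0 = 0) : cost S f k + S (f k) (x + zv z) ∈ US S x := by
  refine ⟨fun i => if i ≤ k then f i else x + zv z, k + 1, z, Nat.succ_pos k, ?_, ?_, ?_⟩
  · show (if 0 ≤ k then f 0 else x + zv z) = 0
    rw [if_pos (Nat.zero_le k), hf0]
  · show (if k + 1 ≤ k then f (k + 1) else x + zv z) = x + zv z
    rw [if_neg (by omega)]
  · rw [cost_append]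

theorem exists_sub {S : E n → E n → ℝ} {a b κ K : ℝ} (hS : Pot S a b κ K) (h1 : N1 S) :
    ∃ u M Λ, Sub S u M Λ := by
  obtain ⟨M₁, hM₁⟩ := hS.ub (Real.sqrt n)
  obtain ⟨M, hM0, hMM⟩ : ∃ M : ℝ, 0 ≤ M ∧ M₁ ≤ M := ⟨max M₁ 0, le_max_right _ _, le_max_left _ _⟩
  have hlow : ∀ x, ∀ r ∈ US S x, -M ≤ r := by
    rintro x r ⟨f, k, z, hk, hf0, hfk, rfl⟩
    obtain ⟨w, hw, -⟩ := exists_near (x + zv z)
    have h2 : S (f k) (zv (-w)) ≤ M₁ := by
      apply hM₁
      rw [hfk, zv_neg, show -zv w - (x + zv z) = -(x + zv z + zv w) by abel, norm_neg]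
      exact hw
    have h3 := h1 (fun i => if i ≤ k then f i else zv (-w)) (k + 1) (-w) ⟨Nat.succ_pos k, by
      show (if k + 1 ≤ k then f (k + 1) else zv (-w))
        = (if 0 ≤ k then f 0 else zv (-w)) + zv (-w)
      rw [if_neg (by omega), if_pos (Nat.zero_le k), hf0, zero_add]⟩
    rw [cost_append] at h3
    linarith
  have hne : ∀ x, ∃ r ∈ US S x, r ≤ M := by
    intro x
    obtain ⟨z, hz, -⟩ := exists_near x
    refine ⟨_, mem_append (S := S) (f := fun _ => 0) (k := 0) (z := z) rfl, ?_⟩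
    have h2 : S (0 : E n) (x + zv z) ≤ M₁ := hM₁ _ _ (by rw [sub_zero]; exact hz)
    have h3 : cost S (fun _ => (0 : E n)) 0 = 0 := by simp [cost]
    rw [h3, zero_add]
    exact h2.trans hMM
  have hbdd : ∀ x, BddBelow (US S x) := fun x => ⟨-M, fun r hr => hlow x r hr⟩
  have hnon : ∀ x, (US S x).Nonempty := fun x => by
    obtain ⟨r, hr, -⟩ := hne x
    exact ⟨r, hr⟩
  have hule : ∀ x, ∀ r ∈ US S x, sInf (US S x) ≤ r := fun x r hr => csInf_le (hbdd x) hr
  have huM : ∀ x, sInf (US S x) ≤ M := fun x => by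
    obtain ⟨r, hr, hr2⟩ := hne x
    exact (hule x r hr).trans hr2
  have huM' : ∀ x, -M ≤ sInf (US S x) := fun x => le_csInf (hnon x) (hlow x)
  -- the radius of the last step
  obtain ⟨R, hR⟩ : ∃ R : ℝ, ∀ x y : E n, S x y ≤ 2 * M + 1 → ‖y - x‖ ≤ R := by
    refine ⟨(2 * M + 1 + K) / κ + 1, fun x y hxy => ?_⟩
    have h2 := hS.lb x y
    have hκ := hS.pos
    have h3 : ‖y - x‖ ^ 2 ≤ (2 * M + 1 + K) / κ := by
      rw [le_div_iff₀ hκ]
      linarith
    have h4 : 0 ≤ ‖y - x‖ := norm_nonneg _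
    nlinarith [sq_nonneg (‖y - x‖ - 1)]
  obtain ⟨Λ, hΛ0, hΛ⟩ := lip hS R
  have hlip : ∀ x e, ‖e‖ ≤ 1 → sInf (US S (x + e)) ≤ sInf (US S x) + Λ * ‖e‖ := by
    intro x e he
    apply le_of_forall_pos_le_add
    intro δ hδ
    obtain ⟨r, hr, hr2⟩ := exists_lt_of_csInf_lt (hnon x)
      (show sInf (US S x) < sInf (US S x) + min δ 1 by
        have : 0 < min δ 1 := lt_min hδ one_pos
        linarith)
    obtain ⟨f, k, z, hk, hf0, hfk, rfl⟩ := hr
    obtain ⟨j, rfl⟩ : ∃ j, k = j + 1 := ⟨k - 1, by omega⟩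
    have h2 : cost S f (j + 1) = cost S f j + S (f j) (f (j + 1)) := by
      unfold cost
      rw [Finset.sum_range_succ]
    have h3 : -M ≤ cost S f j := by
      rcases Nat.eq_zero_or_pos j with rfl | hj
      · have : cost S f 0 = 0 := by simp [cost]
        rw [this]; linarith
      · exact hlow (f j) _ ⟨f, j, 0, hj, hf0, by rw [zv_zero, add_zero], rfl⟩
    have h4 : min δ 1 ≤ δ := min_le_left _ _
    have h5 : min δ 1 ≤ 1 := min_le_right _ _
    have h6 := huM x
    have h7 : S (f j) (f (j + 1)) ≤ 2 * M + 1 := by linarith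
    have h8 := (hΛ (f j) (f (j + 1)) e (hR _ _ h7) he).2
    have h9 := (abs_le.1 h8).2
    have h10 : cost S f j + S (f j) ((x + e) + zv z) ∈ US S (x + e) := mem_append hf0
    have h11 : (x + e) + zv z = f (j + 1) + e := by
      rw [hfk]; abel
    rw [h11] at h10
    have h12 := hule _ _ h10
    linarith
  refine ⟨fun x => sInf (US S x), M, Λ, ?_, ?_, ?_, ?_⟩
  · intro x
    exact abs_le.2 ⟨huM' x, huM x⟩
  · intro x w
    show sInf (US S (x + zv w)) = sInf (US S x)
    congr 1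
    ext r
    constructor
    · rintro ⟨f, k, z, hk, hf0, hfk, rfl⟩
      exact ⟨f, k, w + z, hk, hf0, by rw [hfk, zv_add]; abel, rfl⟩
    · rintro ⟨f, k, z, hk, hf0, hfk, rfl⟩
      exact ⟨f, k, z - w, hk, hf0, by rw [hfk, sub_eq_add_neg, zv_add, zv_neg]; abel, rfl⟩
  · intro x e he
    have h2 := hlip x e he
    have h3 := hlip (x + e) (-e) (by rw [norm_neg]; exact he)
    rw [add_neg_cancel_right, norm_neg] at h3
    exact abs_le.2 ⟨by linarith, by linarith⟩
  · intro x y
    have h2 : sInf (US S y) - S x y ≤ sInf (US S x) := by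
      apply le_csInf (hnon x)
      rintro r ⟨f, k, z, hk, hf0, hfk, rfl⟩
      have h3 : cost S f k + S (f k) (y + zv z) ∈ US S y := mem_append hf0
      rw [hfk, hS.per] at h3
      have h4 := hule _ _ h3
      linarith
    linarith

end Pool.Agent.H68.HD
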