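import Pool.Agent.H68.HD.Base
import Pool.Agent.H68.HD.S2
import Pool.Agent.H68.HD.S3
import Pool.Agent.H68.HD.S3b
import Pool.Agent.H68.HD.S4
import Pool.Agent.H68.HD.U
import Pool.Agent.H68.HD.D2
import Pool.Agent.H68.HD.Suc
import Pool.Agent.H68.HD.Clo
import Pool.Agent.H68.HD.Rot
import Pool.Agent.H68.HD.Hau
import Pool.Agent.H68.HD.Dio
import Pool.Agent.H68.HD.Grd

/-!
# Main: assembly
-/

set_option autoImplicit false

open MeasureTheory Filter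
open scoped RealInnerProductSpace

namespace Pool.Agent.H68.HD

open Pool.Agent.H33.AM (E Tor pr IsPeriodic)

variable {n : ℕ}

private theorem pr_cont : Continuous (pr : E n → Tor n) := by
  refine continuous_pi fun i => ?_
  exact (AddCircle.continuous_mk' (1 : ℝ)).comp (PiLp.continuous_apply 2 (fun _ : Fin n => ℝ) i)

theorem main1 {L : E n → E n → ℝ → ℝ} {κ K : ℝ} (hL : Growth L κ K) {c h : E n}
    {K' p₀ γ τ : ℝ} (hp : 0 < p₀) (hγ : 0 < γ) (hτ : 0 ≤ τ)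
    (hq : ∀ p, ‖p‖ ≤ p₀ → alpha L (c + p) ≤ alpha L c + ⟪h, p⟫ + K' * ‖p‖ ^ 2)
    (hd : ∀ k : ℕ, 0 < k → ∀ z : Fin n → ℤ, γ * (k : ℝ) ^ (-τ) ≤ ‖zv z - (k : ℝ) • h‖) :
    ENNReal.ofReal (2 / (1 + 2 * τ)) ≤ dimH (aubry L c) := by
  obtain ⟨a, b, κ', K'', hS⟩ := pot hL c (alpha L c)
  have h1 := n1 hL c
  have h2 := n2 hL c
  obtain ⟨u, M, Λ, hu⟩ := exists_sub hS h1
  obtain ⟨x, hx⟩ := exists_aub hS hu h2
  obtain ⟨y, hyA, hy⟩ := exists_chain hS hu hx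
  have hM : 0 ≤ M := (abs_nonneg _).trans (hu.bd 0)
  have hC : 0 ≤ 2 * a + 4 * b * M := by
    have := hS.ha
    have := mul_nonneg hS.hb hM
    nlinarith
  have hq' : ∀ p : E n, ‖p‖ ≤ p₀ →
      alpha L (c + p) - alpha L c ≤ ⟪h, p⟫ + max K' 1 * ‖p‖ ^ 2 := by
    intro p hp'
    have h3 := hq p hp'
    have h4 : K' * ‖p‖ ^ 2 ≤ max K' 1 * ‖p‖ ^ 2 :=
      mul_le_mul_of_nonneg_right (le_max_left _ _) (sq_nonneg _)
    linarith
  obtain ⟨c₁, hc₁, hret⟩ := return_time hC hp (lt_of_lt_of_le one_pos (le_max_right K' 1)) hγ hτ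
    (q := fun p => alpha L (c + p) - alpha L c) (h := h) hq' hd
  have hs : 0 < 2 / (1 + 2 * τ) := by positivity
  have key : ∀ i j z, i < j → ‖y i + zv z - y j‖ ≤ 1 →
      c₁ ≤ ((j - i : ℕ) : ℝ) * ‖y i + zv z - y j‖ ^ (2 / (1 + 2 * τ)) := by
    intro i j z hij hn
    obtain ⟨g, hg, hcost⟩ := closing hS hu hy i j z hij hn
    refine hret (j - i) z _ hg.1 (norm_nonneg _) ?_
    intro p
    have h3 := n1 hL (c + p) g (j - i) z hg
    rw [cost_shift hL c p (alpha L c), hg.2, add_sub_cancel_left] at h3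
    linarith
  refine (dimH_ge hs hc₁ key).trans (dimH_mono ?_)
  have hcl : IsCompact ({x | Aub (Sp L c (alpha L c)) x} ∩ Metric.closedBall 0 (Real.sqrt n)) :=
    (isCompact_closedBall _ _).inter_left (aub_closed hS hu)
  refine (closure_minimal ?_ (hcl.image pr_cont).isClosed).trans ?_
  · rintro _ ⟨i, rfl⟩
    obtain ⟨z, hz, -⟩ := exists_near (y i)
    exact ⟨y i + zv z, ⟨aub_add hS (hyA i) z, by simpa using hz⟩, (pr_eq_pr.2 ⟨z, rfl⟩).symm⟩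
  · rintro _ ⟨w, hw, rfl⟩
    exact aubry_of_aub hL c hw.1

theorem main2 {L : E n → E n → ℝ → ℝ} {κ K : ℝ} (hL : Growth L κ K)
    (h2 : ContDiff ℝ 2 (alpha L))
    (hpos : ∀ c p, p ≠ 0 → 0 < fderiv ℝ (fderiv ℝ (alpha L)) c p p) :
    ∀ᵐ c : E n, ENNReal.ofReal (2 * n / (n + 2)) ≤ dimH (aubry L c) := by
  rcases Nat.eq_zero_or_pos n with hn | hn
  · refine Filter.Eventually.of_forall fun c => ?_
    subst hn
    simp
  have hn' : (0 : ℝ) < n := by exact_mod_cast hn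
  have hP : ∀ᵐ h : E n, ∀ m : ℕ, ∃ γ : ℝ, 0 < γ ∧ ∀ k : ℕ, 0 < k → ∀ z : Fin n → ℤ,
      γ * (k : ℝ) ^ (-(1 / (n : ℝ) + 1 / ((m : ℝ) + 1))) ≤ ‖zv z - (k : ℝ) • h‖ := by
    rw [ae_all_iff]
    intro m
    exact ae_dioph hn (by
      have : (0 : ℝ) < 1 / ((m : ℝ) + 1) := by positivity
      linarith)
  filter_upwards [ae_gradient h2 hpos hP] with c hc
  obtain ⟨K', hK', hquad⟩ := quad_upper h2 c
  have h3 : ∀ m : ℕ, ENNReal.ofReal (2 / (1 + 2 * (1 / (n : ℝ) + 1 / ((m : ℝ) + 1)))) ≤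
      dimH (aubry L c) := by
    intro m
    obtain ⟨γ, hγ, hd⟩ := hc m
    refine main1 hL one_pos hγ (by positivity) (h := gradient (alpha L) c) (K' := K') ?_ hd
    intro p hp
    have := hquad p hp
    linarith
  refine le_of_tendsto' (f := fun m : ℕ =>
    ENNReal.ofReal (2 / (1 + 2 * (1 / (n : ℝ) + 1 / ((m : ℝ) + 1))))) (x := atTop) ?_ h3
  refine ENNReal.tendsto_ofReal ?_
  have h4 : (2 * n / (n + 2) : ℝ) = 2 / (1 + 2 * (1 / (n : ℝ) + 0)) := by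
    field_simp
    ring
  rw [h4]
  have h5 : Tendsto (fun m : ℕ => 1 / ((m : ℝ) + 1)) atTop (nhds 0) :=
    tendsto_one_div_add_atTop_nhds_zero_nat
  refine Tendsto.div tendsto_const_nhds ?_ (by positivity)
  exact tendsto_const_nhds.add (tendsto_const_nhds.mul (tendsto_const_nhds.add h5))

end Pool.Agent.H68.HD
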